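import Pool.Agent.H514.KS.LocR
import Pool.Agent.H514.IS.Lin

/-! The classes. -/

set_option autoImplicit false

open scoped Classical

namespace Pool.Agent.H514.KS

open Finset WeierstrassCurve Pool.Agent.W262.SH Pool.Agent.W338.SH
open Pool.Agent.TH344.SH (IsR sg sg_sq tor_ext sg_add add_self_eq_zero_iff sg_zero)
open Pool.Agent.H514.IS (rt rt_sq rt_ne two_val sig_lc pm ne_neg)

section tt

variable (W : WeierstrassCurve ℚ) (e : Fin 3 → ℤ)

/-- the curve with the three roots -/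
def RR : Prop := (∀ (L : Type) [Field L] [Algebra ℚ L],
    IsR (W.baseChange L).toAffine (e 0 : L) (e 1 : L) (e 2 : L))

/-- the point of order two -/
noncomputable def Tt (j : Fin 3) (L : Type) [Field L] [Algebra ℚ L] : Pt W L :=
  if h : (W.baseChange L).toAffine.Nonsingular (e j : L) 0 then Affine.Point.some _ _ h else 0

variable {W e}

lemma RR.rts (h : RR W e) : Rts W (e 0) (e 1) (e 2) := fun L _ _ => h L

lemma Tt_eq (hR : RR W e) (j : Fin 3) (L : Type) [Field L] [Algebra ℚ L] :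
    ∃ h, Tt W e j L = Affine.Point.some (e j : L) 0 h := by
  have h : (W.baseChange L).toAffine.Nonsingular (e j : L) 0 := by
    rw [(hR L).nonsingular]
    fin_cases j <;> simp
  exact ⟨h, by rw [Tt, dif_pos h]⟩

lemma Tt_two (hR : RR W e) (j : Fin 3) (L : Type) [Field L] [Algebra ℚ L] :
    Tt W e j L + Tt W e j L = 0 := by
  obtain ⟨h, h1⟩ := Tt_eq hR j L
  rw [h1]
  exact (add_self_eq_zero_iff (hR L) h).2 rfl

lemma act_Tt (hR : RR W e) (j : Fin 3) {F L : Type} [Field F] [Field L] [Algebra ℚ F]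
    [Algebra ℚ L] (φ : F →ₐ[ℚ] L) : act W φ (Tt W e j F) = Tt W e j L := by
  obtain ⟨h, h1⟩ := Tt_eq hR j F
  obtain ⟨h', h1'⟩ := Tt_eq hR j L
  obtain ⟨h2, e2⟩ := act_some W φ h
  rw [h1, h1', e2]
  exact some_congr (map_intCast _ _) (map_zero _) _ _

lemma e_ne (hR : RR W e) {j k : Fin 3} (h : j ≠ k) : e j ≠ e k := by
  have h1 := hR ℚ
  have a := h1.nab
  have b := h1.nac
  have c := h1.nbc
  intro h2
  have h3 : ((e j : ℤ) : ℚ) = e k := by rw [h2]
  fin_cases j <;> fin_cases k <;> simp at h h3 <;> first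
    | exact a (by exact_mod_cast h3)
    | exact a (by exact_mod_cast h3.symm)
    | exact b (by exact_mod_cast h3)
    | exact b (by exact_mod_cast h3.symm)
    | exact c (by exact_mod_cast h3)
    | exact c (by exact_mod_cast h3.symm)

lemma sg_Tt (hR : RR W e) (j k : Fin 3) (L : Type) [Field L] [Algebra ℚ L] :
    sg (e k : L) (Tt W e j L) = if j = k then 1 else -1 := by
  have hcz := charZ L
  obtain ⟨h, h1⟩ := Tt_eq hR j L
  rw [h1]
  show (if (e j : L) = e k then (1 : L) else -1) = _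
  by_cases hjk : j = k
  · rw [if_pos (by rw [hjk]), if_pos hjk]
  · rw [if_neg hjk, if_neg]
    intro h2
    exact e_ne hR hjk (by exact_mod_cast h2)

end tt

section cls

variable (W : WeierstrassCurve ℚ) (e : Fin 3 → ℤ) (jj : ℕ → Fin 3) (P : Finset ℕ)

/-- the cocycle of a prime -/
noncomputable def cc (p : ℕ) (σ : GQ) : Pt W QB :=
  if σ (rt p) = rt p then 0 else Tt W e (jj p) QB

/-- the cocycle of a vector -/
noncomputable def Fv (v : P → ZMod 2) (σ : GQ) : Pt W QB := ∑ p : P, (v p).val • cc W e jj p σ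

/-- the integers of the vector -/
def dk (k : Fin 3) (v : P → ZMod 2) : ℕ := ∏ p : P, (if jj p = k then 1 else (p : ℕ)) ^ (v p).val

/-- the square roots -/
noncomputable def uk (k : Fin 3) (v : P → ZMod 2) : QB :=
  ∏ p : P, (if jj p = k then 1 else rt p) ^ (v p).val

variable {W e jj P}

lemma uk_sq (k : Fin 3) (v : P → ZMod 2) : uk jj P k v ^ 2 = ((dk jj P k v : ℤ) : QB) := by
  unfold uk dk
  rw [← Finset.prod_pow]
  push_cast
  refine Finset.prod_congr rfl fun p _ => ?_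
  rw [← pow_mul, mul_comm, pow_mul]
  congr 1
  split_ifs
  · rw [one_pow]
  · exact rt_sq p

lemma cc_two (hR : RR W e) (p : ℕ) (σ : GQ) : cc W e jj p σ + cc W e jj p σ = 0 := by
  unfold cc
  split_ifs
  · exact add_zero _
  · exact Tt_two hR _ _

lemma Fv_two (hR : RR W e) (v : P → ZMod 2) (σ : GQ) :
    Fv W e jj P v σ + Fv W e jj P v σ = 0 := by
  unfold Fv
  rw [← Finset.sum_add_distrib]
  refine Finset.sum_eq_zero fun p _ => ?_
  rw [← nsmul_add, cc_two hR, nsmul_zero]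

lemma Fv_add (hR : RR W e) (v w : P → ZMod 2) (σ : GQ) :
    Fv W e jj P (v + w) σ = Fv W e jj P v σ + Fv W e jj P w σ := by
  unfold Fv
  rw [← Finset.sum_add_distrib]
  exact Finset.sum_congr rfl fun p _ => two_val (cc_two hR _ σ) _ _

lemma rt_sq' (p : ℕ) : rt p ^ 2 = algebraMap ℚ QB (p : ℚ) := by rw [rt_sq, map_natCast]

lemma cc_coc (hR : RR W e) {p : ℕ} (hp : p ≠ 0) (σ τ : GQ) :
    cc W e jj p (σ * τ) = cc W e jj p σ + act W σ.toAlgHom (cc W e jj p τ) := by
  have h0 : (σ * τ) (rt p) = σ (τ (rt p)) := rfl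
  have hs0 := rt_ne hp
  unfold cc
  rw [h0]
  rcases pm (rt_sq' p) σ with h1 | h1 <;> rcases pm (rt_sq' p) τ with h2 | h2
  · rw [h2, h1, if_pos rfl, map_zero, add_zero]
  · rw [h2, map_neg, h1, if_neg (ne_neg hs0), if_pos rfl, zero_add, act_Tt hR]
  · rw [h2, h1, if_neg (ne_neg hs0), if_pos rfl, map_zero, add_zero]
  · rw [h2, map_neg, h1, neg_neg, if_pos rfl, if_neg (ne_neg hs0),
      act_Tt hR, Tt_two hR]

lemma Fv_coc (hR : RR W e) (hP : ∀ p ∈ P, p ≠ 0) (v : P → ZMod 2) (σ τ : GQ) :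
    Fv W e jj P v (σ * τ) = Fv W e jj P v σ + act W σ.toAlgHom (Fv W e jj P v τ) := by
  unfold Fv
  rw [map_sum, ← Finset.sum_add_distrib]
  refine Finset.sum_congr rfl fun p _ => ?_
  rw [cc_coc hR (hP p p.2), nsmul_add, map_nsmul]

lemma Fv_lc (v : P → ZMod 2) : IsLocallyConstant (Fv W e jj P v) := by
  have h1 : ∀ p : ℕ, IsLocallyConstant (cc W e jj p) := fun p =>
    (sig_lc (rt p)).comp (fun z => if z = rt p then 0 else Tt W e (jj p) QB)
  rw [IsLocallyConstant.iff_eventually_eq]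
  intro σ
  have h2 : ∀ p : P, ∀ᶠ τ in nhds σ, cc W e jj p τ = cc W e jj p σ := fun p =>
    (IsLocallyConstant.iff_eventually_eq _).1 (h1 p) σ
  filter_upwards [Filter.eventually_all.2 h2] with τ hτ
  exact Finset.sum_congr rfl fun p _ => by rw [hτ p]

lemma sg_nsmul (hR : RR W e) (k : Fin 3) {T : Pt W QB} (hT : T + T = 0) (n : ℕ) :
    sg (e k : QB) (n • T) = sg (e k : QB) T ^ n ∧ n • T + n • T = 0 := by
  have hk : ∃ b c : ℤ, IsR (W.baseChange QB).toAffine (e k : QB) (b : QB) (c : QB) := by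
    fin_cases k
    · exact ⟨_, _, hR QB⟩
    · exact ⟨_, _, (hR QB).swap⟩
    · exact ⟨_, _, (hR QB).rot⟩
  obtain ⟨b, c, hk⟩ := hk
  induction n with
  | zero => exact ⟨by rw [zero_nsmul, pow_zero]; rfl, by rw [zero_nsmul, add_zero]⟩
  | succ n ih =>
    refine ⟨?_, ?_⟩
    · rw [succ_nsmul, pow_succ, sg_add hk ih.2 hT, ih.1]
    · rw [← nsmul_add, hT, nsmul_zero]

lemma sg_Fv (hR : RR W e) (k : Fin 3) (v : P → ZMod 2) (σ : GQ) :
    σ (uk jj P k v) = sg (e k : QB) (Fv W e jj P v σ) * uk jj P k v := by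
  have hk : ∃ b c : ℤ, IsR (W.baseChange QB).toAffine (e k : QB) (b : QB) (c : QB) := by
    fin_cases k
    · exact ⟨_, _, hR QB⟩
    · exact ⟨_, _, (hR QB).swap⟩
    · exact ⟨_, _, (hR QB).rot⟩
  obtain ⟨b, c, hk⟩ := hk
  unfold uk Fv
  have key : ∀ s : Finset P, (∑ p ∈ s, (v p).val • cc W e jj p σ) +
      (∑ p ∈ s, (v p).val • cc W e jj p σ) = 0 ∧
      σ (∏ p ∈ s, (if jj p = k then 1 else rt p) ^ (v p).val) =
      sg (e k : QB) (∑ p ∈ s, (v p).val • cc W e jj p σ) *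
        ∏ p ∈ s, (if jj p = k then 1 else rt p) ^ (v p).val := by
    intro s
    induction s using Finset.induction_on with
    | empty =>
      refine ⟨by rw [Finset.sum_empty, add_zero], ?_⟩
      rw [Finset.sum_empty, Finset.prod_empty, map_one, sg_zero, mul_one]
    | insert i s hi ih =>
      obtain ⟨h1, h2⟩ := ih
      obtain ⟨g1, g2⟩ := sg_nsmul hR k (cc_two (jj := jj) hR i σ) (v i).val
      refine ⟨?_, ?_⟩
      · rw [Finset.sum_insert hi, add_add_add_comm, g2, h1, add_zero]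
      · rw [Finset.prod_insert hi, Finset.sum_insert hi, map_mul, h2, sg_add hk g2 h1, g1, map_pow]
        have h3 : σ (if jj i = k then 1 else rt i) = sg (e k : QB) (cc W e jj i σ) *
            (if jj i = k then 1 else rt i) := by
          unfold cc
          split_ifs with a1 a2 a2
          · rw [map_one, sg_zero, mul_one]
          · rw [map_one, sg_Tt hR, if_pos a1, mul_one]
          · rw [a2, sg_zero, one_mul]
          · rw [sg_Tt hR, if_neg a1]
            rcases pm (rt_sq' i) σ with h4 | h4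
            · exact absurd h4 a2
            · rw [h4, neg_one_mul]
        rw [h3, mul_pow]
        ring
  exact (key Finset.univ).2

/-- the product of the three integers is a square -/
lemma dk_prod (v : P → ZMod 2) : (dk jj P 0 v : ℤ) * dk jj P 1 v * dk jj P 2 v =
    ((∏ p : P, (p : ℕ) ^ (v p).val : ℕ) : ℤ) * ((∏ p : P, (p : ℕ) ^ (v p).val : ℕ) : ℤ) := by
  unfold dk
  rw [← Nat.cast_mul, ← Nat.cast_mul, ← Nat.cast_mul]
  congr 1
  rw [← Finset.prod_mul_distrib, ← Finset.prod_mul_distrib, ← Finset.prod_mul_distrib]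
  refine Finset.prod_congr rfl fun p _ => ?_
  rw [← mul_pow, ← mul_pow, ← mul_pow]
  congr 1
  generalize jj p = j
  fin_cases j <;> simp

lemma dk_pos (hP : ∀ p ∈ P, p.Prime) (k : Fin 3) (v : P → ZMod 2) : 0 < dk jj P k v :=
  Finset.prod_pos fun p _ => pow_pos (by split_ifs; exacts [one_pos, (hP p p.2).pos]) _

lemma dk_dvd (hP : ∀ p ∈ P, p.Prime) (k : Fin 3) (v : P → ZMod 2) {q : ℕ} (hq : q.Prime) :
    q ∣ dk jj P k v ↔ ∃ h : q ∈ P, jj q ≠ k ∧ v ⟨q, h⟩ ≠ 0 := by
  unfold dk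
  rw [hq.prime.dvd_finsetProd_iff]
  have hv : ∀ c : ZMod 2, (c ≠ 0 → c.val = 1) ∧ (c = 0 → c.val = 0) := by decide
  constructor
  · rintro ⟨p, -, hd⟩
    have h1 := hq.dvd_of_dvd_pow hd
    split_ifs at h1 with h2
    · exact absurd (Nat.dvd_one.1 h1) hq.one_lt.ne'
    · have h3 : q = p := (Nat.prime_dvd_prime_iff_eq hq (hP p p.2)).1 h1
      subst h3
      refine ⟨p.2, h2, fun h4 => ?_⟩
      rw [(hv (v p)).2 h4, pow_zero] at hd
      exact absurd (Nat.dvd_one.1 hd) hq.one_lt.ne'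
  · rintro ⟨h, h2, h3⟩
    refine ⟨⟨q, h⟩, Finset.mem_univ _, ?_⟩
    rw [(hv _).1 h3, pow_one, if_neg h2]

end cls

/-- the class over `L` -/
noncomputable def FL (W : WeierstrassCurve ℚ) (e : Fin 3 → ℤ) (jj : ℕ → Fin 3) (P : Finset ℕ)
    (L : IntermediateField ℚ QB) (v : P → ZMod 2) : Gal L → Pt W QB :=
  fun σ => Fv W e jj P v (inG L σ)

lemma FL_Z1 {W : WeierstrassCurve ℚ} {e : Fin 3 → ℤ} {jj : ℕ → Fin 3} {P : Finset ℕ}
    (hR : RR W e) (hP : ∀ p ∈ P, p ≠ 0) (L : IntermediateField ℚ QB) (v : P → ZMod 2) :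
    FL W e jj P L v ∈ Z1 (nact W L) := by
  refine ⟨?_, fun σ τ => Fv_coc hR hP v (inG L σ) (inG L τ)⟩
  have h1 : IsLocallyConstant (Fv W e jj P v) := Fv_lc v
  exact h1.comp_continuous continuous_subtype_val

end Pool.Agent.H514.KS
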