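import Pool.Agent.H514.KS.S1
import Pool.Agent.H514.IS.BoxL

/-! The primes that do not split completely in a multiquadratic field. -/

set_option autoImplicit false

open scoped Classical

namespace Pool.Agent.H514.KS

open Finset
open Pool.Agent.H514.IS (mert)

lemma jac_le_one (a : ℤ) (p : ℕ) : (jacobiSym a p : ℝ) ≤ 1 ∧ (-1 : ℝ) ≤ jacobiSym a p := by
  rcases jacobiSym.trichotomy a p with h | h | h <;> rw [h] <;> norm_num

lemma jac_prod' {ι : Type} (s : Finset ι) (f : ι → ℤ) (q : ℕ) :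
    jacobiSym (∏ i ∈ s, f i) q = ∏ i ∈ s, jacobiSym (f i) q := by
  induction s using Finset.induction_on with
  | empty => rw [Finset.prod_empty, Finset.prod_empty, jacobiSym.one_left]
  | insert i s hi ih => rw [Finset.prod_insert hi, Finset.prod_insert hi, jacobiSym.mul_left, ih]

/-- the character sums are bounded from above -/
lemma char_sum {d : ℤ} (hd : ¬ IsSquare d) : ∃ C : ℝ, ∀ y : ℕ, 3 ≤ y →
    ∑ p ∈ (Icc 1 y).filter Nat.Prime, (jacobiSym d p : ℝ) / p ≤ C := by
  obtain ⟨C1, hC1⟩ := prime_sum hd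
  obtain ⟨C2, -, hC2⟩ := mert
  refine ⟨2 * C1 + C2, fun y hy => ?_⟩
  have h1 := hC1 y hy
  have h2 := (abs_le.1 (hC2 y (by omega))).2
  have h3 : ∑ p ∈ (Icc 1 y).filter Nat.Prime, (jacobiSym d p : ℝ) / p ≤
      ∑ p ∈ (Icc 1 y).filter Nat.Prime, ((1 : ℝ) / p -
        2 * (if jacobiSym d p = -1 then (1 : ℝ) / p else 0)) := by
    refine sum_le_sum fun p hp => ?_
    have hp0 : (0 : ℝ) < p := by exact_mod_cast (mem_filter.1 hp).2.pos
    split_ifs with h
    · rw [h]
      apply le_of_eq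
      push_cast
      ring
    · rw [mul_zero, sub_zero]
      exact div_le_div_of_nonneg_right (jac_le_one d p).1 hp0.le
  rw [sum_sub_distrib, ← mul_sum, ← sum_filter, filter_filter] at h3
  linarith

theorem prime_multi {m : ℕ} {D : Fin m → ℤ}
    (hind : ∀ S : Finset (Fin m), S.Nonempty → ¬ IsSquare (∏ i ∈ S, D i)) :
    ∃ C : ℝ, ∀ y : ℕ, 3 ≤ y → (1 - 1 / 2 ^ m) * Real.log (Real.log y) - C ≤
      ∑ p ∈ (Icc 1 y).filter (fun p : ℕ => p.Prime ∧ ∃ i, jacobiSym (D i) p = -1),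
        (1 : ℝ) / p := by
  obtain ⟨C2, -, hC2⟩ := mert
  have hD0 : ∀ i, D i ≠ 0 := by
    intro i h
    refine hind {i} (Finset.singleton_nonempty i) ?_
    rw [Finset.prod_singleton, h]
    exact ⟨0, by ring⟩
  have hch : ∀ S : Finset (Fin m), ∃ C : ℝ, S.Nonempty → ∀ y : ℕ, 3 ≤ y →
      ∑ p ∈ (Icc 1 y).filter Nat.Prime, (jacobiSym (∏ i ∈ S, D i) p : ℝ) / p ≤ C := by
    intro S
    by_cases hS : S.Nonempty
    · obtain ⟨C, hC⟩ := char_sum (hind S hS)
      exact ⟨C, fun _ => hC⟩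
    · exact ⟨0, fun h => absurd h hS⟩
  choose C hC using hch
  set B : ℕ := (∏ i, D i).natAbs with hB
  refine ⟨C2 + (∑ S ∈ (Finset.univ : Finset (Finset (Fin m))).erase ∅, |C S|) + B,
    fun y hy => ?_⟩
  have hm := abs_le.1 (hC2 y (by omega))
  have h2m : (0 : ℝ) < 2 ^ m := by positivity
  -- the pointwise inequality
  have hpt : ∀ p ∈ (Icc 1 y).filter Nat.Prime, (1 : ℝ) / p - 1 / 2 ^ m *
      ∑ S : Finset (Fin m), (jacobiSym (∏ i ∈ S, D i) p : ℝ) / p ≤
      (if ∃ i, jacobiSym (D i) p = -1 then (1 : ℝ) / p else 0) +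
      (if p ∣ B then (1 : ℝ) / p else 0) := by
    intro p hp
    have hpp := (mem_filter.1 hp).2
    have hp0 : (0 : ℝ) < p := by exact_mod_cast hpp.pos
    have hsum : ∑ S : Finset (Fin m), (jacobiSym (∏ i ∈ S, D i) p : ℝ) / p =
        (∏ i, (1 + (jacobiSym (D i) p : ℝ))) / p := by
      rw [← sum_div, Finset.prod_one_add]
      congr 1
      rw [Finset.powerset_univ]
      refine sum_congr rfl fun S _ => ?_
      rw [jac_prod']
      push_cast
      rfl
    have hprod : 0 ≤ ∏ i, (1 + (jacobiSym (D i) p : ℝ)) :=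
      prod_nonneg fun i _ => by linarith [(jac_le_one (D i) p).2]
    rw [hsum]
    have h1p : 0 < (1 : ℝ) / p := by positivity
    have hnn : 0 ≤ 1 / 2 ^ m * ((∏ i, (1 + (jacobiSym (D i) p : ℝ))) / p) := by positivity
    split_ifs with h1 h2 h2
    · linarith
    · linarith
    · linarith
    · have h3 : ∀ i, jacobiSym (D i) p = 1 := by
        intro i
        rcases jacobiSym.trichotomy (D i) p with h | h | h
        · exfalso
          have hfact : Fact p.Prime := ⟨hpp⟩
          rw [← jacobiSym.legendreSym.to_jacobiSym, legendreSym.eq_zero_iff,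
            ZMod.intCast_zmod_eq_zero_iff_dvd] at h
          apply h2
          rw [hB]
          exact Int.natCast_dvd.1 (h.trans (Finset.dvd_prod_of_mem _ (Finset.mem_univ i)))
        · exact h
        · exact absurd ⟨i, h⟩ h1
      have h4 : ∏ i, (1 + (jacobiSym (D i) p : ℝ)) = 2 ^ m := by
        rw [prod_congr rfl fun i _ => by rw [h3 i]]
        rw [prod_const, card_univ, Fintype.card_fin]
        norm_num
      rw [h4]
      apply le_of_eq
      field_simp
      ring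
  have hs := sum_le_sum hpt
  rw [sum_sub_distrib, sum_add_distrib, ← sum_filter, ← sum_filter, filter_filter,
    filter_filter, ← mul_sum, sum_comm] at hs
  have hB0 : B ≠ 0 := by
    rw [hB, Int.natAbs_ne_zero, prod_ne_zero_iff]
    exact fun i _ => hD0 i
  have hBs : ∑ p ∈ (Icc 1 y).filter (fun p : ℕ => p.Prime ∧ p ∣ B), (1 : ℝ) / p ≤ B := by
    have h5 : (Icc 1 y).filter (fun p : ℕ => p.Prime ∧ p ∣ B) ⊆ Icc 1 B := by
      intro p hp
      rw [mem_filter] at hp
      rw [mem_Icc]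
      exact ⟨hp.2.1.one_lt.le, Nat.le_of_dvd (Nat.pos_of_ne_zero hB0) hp.2.2⟩
    calc _ ≤ ∑ p ∈ (Icc 1 y).filter (fun p : ℕ => p.Prime ∧ p ∣ B), (1 : ℝ) := by
          refine sum_le_sum fun p hp => ?_
          have : (1 : ℝ) ≤ p := by exact_mod_cast (mem_filter.1 hp).2.1.one_lt.le
          rw [div_le_one (by linarith)]
          exact this
      _ = (((Icc 1 y).filter (fun p : ℕ => p.Prime ∧ p ∣ B)).card : ℝ) := by
          rw [sum_const, nsmul_eq_mul, mul_one]
      _ ≤ _ := by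
          have := card_le_card h5
          rw [Nat.card_Icc] at this
          exact_mod_cast this.trans (by omega)
  have hS : ∑ S : Finset (Fin m), ∑ p ∈ (Icc 1 y).filter Nat.Prime,
      (jacobiSym (∏ i ∈ S, D i) p : ℝ) / p ≤
      (∑ p ∈ (Icc 1 y).filter Nat.Prime, (1 : ℝ) / p) +
        ∑ S ∈ (Finset.univ : Finset (Finset (Fin m))).erase ∅, |C S| := by
    rw [← Finset.add_sum_erase _ _ (Finset.mem_univ (∅ : Finset (Fin m)))]
    apply add_le_add
    · apply le_of_eq
      refine sum_congr rfl fun p _ => ?_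
      rw [prod_empty, jacobiSym.one_left]
      norm_num
    · refine sum_le_sum fun S hS => ?_
      have h6 : S.Nonempty := Finset.nonempty_iff_ne_empty.2 (Finset.mem_erase.1 hS).1
      exact (hC S h6 y hy).trans (le_abs_self _)
  have h7 : 1 / 2 ^ m * ∑ S : Finset (Fin m), ∑ p ∈ (Icc 1 y).filter Nat.Prime,
      (jacobiSym (∏ i ∈ S, D i) p : ℝ) / p ≤ 1 / 2 ^ m * (
      (∑ p ∈ (Icc 1 y).filter Nat.Prime, (1 : ℝ) / p) +
        ∑ S ∈ (Finset.univ : Finset (Finset (Fin m))).erase ∅, |C S|) :=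
    mul_le_mul_of_nonneg_left hS (by positivity)
  have h8 : (0 : ℝ) ≤ ∑ S ∈ (Finset.univ : Finset (Finset (Fin m))).erase ∅, |C S| :=
    sum_nonneg fun _ _ => abs_nonneg _
  have h9 : (1 : ℝ) / 2 ^ m ≤ 1 := by
    rw [div_le_one h2m]
    exact one_le_pow₀ (by norm_num)
  have h10 : (0 : ℝ) ≤ 1 / 2 ^ m := by positivity
  have h11 : 1 / 2 ^ m * (∑ S ∈ (Finset.univ : Finset (Finset (Fin m))).erase ∅, |C S|) ≤
      ∑ S ∈ (Finset.univ : Finset (Finset (Fin m))).erase ∅, |C S| := by nlinarith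
  have h12 : (1 - 1 / 2 ^ m) * (Real.log (Real.log y) - C2) ≤
      (1 - 1 / 2 ^ m) * ∑ p ∈ (Icc 1 y).filter Nat.Prime, (1 : ℝ) / p :=
    mul_le_mul_of_nonneg_left (by linarith [hm.1]) (by linarith)
  have hC20 : 0 ≤ C2 := (abs_nonneg _).trans (hC2 y (by omega))
  have h13 : (1 - 1 / 2 ^ m) * C2 ≤ C2 := by nlinarith
  rw [mul_add] at h7
  linarith

end Pool.Agent.H514.KS
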