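import Mathlib
import Pool.Graph.R_seed8.H474R2.GE.HomsUpper
import Pool.Graph.R_seed8.H474R2.GE.RhoHoms
import Pool.Graph.R_seed8.H305R2.MertensM

/-! KS-S1: the primes that are inert in a quadratic field.

Paper proof. `f = X² - d` is irreducible in `ℤ[X]`. `Pool.Graph.R_seed8.H474R2.GE.RhoHoms`
(`rho_le_homs`): there are a number field `K` and `B` with `rho f p ≤ #Hom(𝓞 K, ZMod p)` for the
primes `p > B`, where `rho f p` is the number of the `a < p` with `p ∣ f(a)`. `HomsUpper`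
(`homs_upper`): `∑_{p ≤ w} #Hom(𝓞 K, ZMod p) / p ≤ log log w + C`. `jacobiSym d p = 1` implies
`rho f p = 2` for odd `p`. So `∑_{p ≤ y, (d/p) = 1} 2 / p ≤ log log y + C'`; Mertens
(`Pool.Agent.H305R2.mertens_inv_tendsto`: `∑_{p ≤ N} 1/p - log log N` converges) and the finitely
many `p ∣ d` and `p = 2` give `∑_{(d/p) = -1} 1/p ≥ (1/2) log log y - C`. -/

set_option autoImplicit false

namespace Pool.Agent.H514.KS

open Finset

theorem two_le_rho {d : ℤ} {p : ℕ} (hp : p.Prime) (hp2 : 2 < p) (hJ : jacobiSym d p = 1) :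
    2 ≤ Pool.Agent.H474R2.PG.rho (Polynomial.X ^ 2 - Polynomial.C d) p := by
  classical
  have hfact : Fact p.Prime := ⟨hp⟩
  rw [← jacobiSym.legendreSym.to_jacobiSym] at hJ
  have hd0 : (d : ZMod p) ≠ 0 := by
    intro h
    rw [(legendreSym.eq_zero_iff p d).2 h] at hJ
    exact zero_ne_one hJ
  obtain ⟨z, hz⟩ := (legendreSym.eq_one_iff p hd0).1 hJ
  have hz0 : z ≠ 0 := by
    intro h
    rw [h, mul_zero] at hz
    exact hd0 hz
  have h2 : (2 : ZMod p) ≠ 0 := by
    intro h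
    have h3 : ((2 : ℕ) : ZMod p) = 0 := by exact_mod_cast h
    rw [ZMod.natCast_eq_zero_iff] at h3
    have := Nat.le_of_dvd (by norm_num) h3
    omega
  have hne : z.val ≠ (-z).val := by
    intro h
    have h3 : z = -z := ZMod.val_injective p h
    have h4 : 2 * z = 0 := by
      have : z + z = 0 := by nth_rewrite 2 [h3]; ring
      rw [two_mul]; exact this
    rcases mul_eq_zero.1 h4 with h5 | h5
    · exact h2 h5
    · exact hz0 h5
  have hmem : ∀ w : ZMod p, w * w = (d : ZMod p) → w.val ∈ (Finset.range p).filter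
      (fun a : ℕ => (p : ℤ) ∣ (Polynomial.X ^ 2 - Polynomial.C d).eval (a : ℤ)) := by
    intro w hw
    rw [Finset.mem_filter]
    refine ⟨Finset.mem_range.2 (ZMod.val_lt w), ?_⟩
    rw [← ZMod.intCast_zmod_eq_zero_iff_dvd]
    simp only [Polynomial.eval_sub, Polynomial.eval_pow, Polynomial.eval_X, Polynomial.eval_C]
    push_cast
    rw [ZMod.natCast_zmod_val, ← hw]
    ring
  unfold Pool.Agent.H474R2.PG.rho
  refine (Finset.card_pair hne).symm.le.trans ?_
  apply Finset.card_le_card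
  intro a ha
  rw [Finset.mem_insert, Finset.mem_singleton] at ha
  rcases ha with rfl | rfl
  · exact hmem z hz.symm
  · exact hmem (-z) (by rw [neg_mul_neg]; exact hz.symm)

theorem sum_union_le (s t : Finset ℕ) :
    ∑ p ∈ s ∪ t, (1 : ℝ) / p ≤ ∑ p ∈ s, (1 : ℝ) / p + ∑ p ∈ t, (1 : ℝ) / p := by
  rw [← Finset.sum_union_inter]
  have : 0 ≤ ∑ p ∈ s ∩ t, (1 : ℝ) / p := Finset.sum_nonneg fun p _ => by positivity
  linarith

theorem prime_sum {d : ℤ} (hd : ¬ IsSquare d) : ∃ C : ℝ, ∀ y : ℕ, 3 ≤ y →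
    (1 / 2) * Real.log (Real.log y) - C ≤
      ∑ p ∈ (Icc 1 y).filter (fun p : ℕ => p.Prime ∧ jacobiSym d p = -1), (1 : ℝ) / p := by
  classical
  obtain ⟨f, hf⟩ : ∃ f : Polynomial ℤ, f = Polynomial.X ^ 2 - Polynomial.C d := ⟨_, rfl⟩
  have hfm : f.Monic := by rw [hf]; exact Polynomial.monic_X_pow_sub_C d (by norm_num)
  have hfd : f.natDegree = 2 := by rw [hf]; exact Polynomial.natDegree_X_pow_sub_C
  have hirr : Irreducible f := by
    rw [hfm.irreducible_iff_roots_eq_zero_of_degree_le_three (by omega) (by omega)]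
    rw [Multiset.eq_zero_iff_forall_notMem]
    intro a ha
    rw [Polynomial.mem_roots hfm.ne_zero, Polynomial.IsRoot.def, hf] at ha
    apply hd
    refine ⟨a, ?_⟩
    simp at ha
    linarith
  obtain ⟨K, _, _, B, hB⟩ := Pool.Agent.H474R2.GE.rho_le_homs f hirr (by omega)
  obtain ⟨C, hC⟩ := Pool.Agent.H474R2.GE.homs_upper K
  obtain ⟨M, hM⟩ := Pool.Agent.H305R2.mertens_inv_tendsto
  obtain ⟨M', hM'⟩ : ∃ M' : ℝ, ∀ N : ℕ, -M' ≤
      ∑ p ∈ (Finset.Icc 1 N).filter Nat.Prime, (1 : ℝ) / p - Real.log (Real.log N) := by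
    obtain ⟨m, hm⟩ := hM.bddBelow_range
    exact ⟨-m, fun N => by rw [neg_neg]; exact hm ⟨N, rfl⟩⟩
  obtain ⟨B0, hB0⟩ : ∃ B0 : ℕ, B0 = max B (max 2 d.natAbs) := ⟨_, rfl⟩
  refine ⟨M' + B0 + C / 2, ?_⟩
  intro y hy
  have hd0 : d ≠ 0 := by
    rintro rfl
    exact hd ⟨0, by simp⟩
  have h1 := hM' y
  -- the primes split
  have h2 : ∑ p ∈ (Finset.Icc 1 y).filter Nat.Prime, (1 : ℝ) / p ≤
      ∑ p ∈ (Icc 1 y).filter (fun p : ℕ => p.Prime ∧ jacobiSym d p = -1), (1 : ℝ) / p +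
      (∑ p ∈ (Icc 1 y).filter (fun p : ℕ => p.Prime ∧ B0 < p ∧ jacobiSym d p = 1), (1 : ℝ) / p +
      ∑ p ∈ Icc 1 B0, (1 : ℝ) / p) := by
    refine le_trans ?_ ((sum_union_le _ _).trans (add_le_add_right (sum_union_le _ _) _))
    refine Finset.sum_le_sum_of_subset_of_nonneg ?_ fun p _ _ => by positivity
    intro p hp
    obtain ⟨hp1, hpp⟩ := Finset.mem_filter.1 hp
    rw [Finset.mem_union, Finset.mem_union, Finset.mem_filter, Finset.mem_filter]
    by_cases hpB : p ≤ B0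
    · exact Or.inr (Or.inr (Finset.mem_Icc.2 ⟨hpp.one_lt.le, hpB⟩))
    push Not at hpB
    have hpd : d.natAbs < p := by
      rw [hB0] at hpB
      exact lt_of_le_of_lt ((le_max_right _ _).trans (le_max_right _ _)) hpB
    rcases jacobiSym.trichotomy d p with h | h | h
    · exfalso
      have hfact : Fact p.Prime := ⟨hpp⟩
      rw [← jacobiSym.legendreSym.to_jacobiSym, legendreSym.eq_zero_iff,
        ZMod.intCast_zmod_eq_zero_iff_dvd] at h
      have h5 : p ∣ d.natAbs := Int.natCast_dvd.1 h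
      have := Nat.le_of_dvd (Int.natAbs_pos.2 hd0) h5
      omega
    · exact Or.inr (Or.inl ⟨hp1, hpp, hpB, h⟩)
    · exact Or.inl ⟨hp1, hpp, h⟩
  have h3 : ∑ p ∈ Icc 1 B0, (1 : ℝ) / p ≤ B0 := by
    refine (Finset.sum_le_card_nsmul _ _ 1 (fun p hp => ?_)).trans ?_
    · have := (Finset.mem_Icc.1 hp).1
      rw [div_le_one (by positivity)]
      exact_mod_cast this
    · simp
  have h4 : 2 * ∑ p ∈ (Icc 1 y).filter (fun p : ℕ => p.Prime ∧ B0 < p ∧ jacobiSym d p = 1),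
      (1 : ℝ) / p ≤ Real.log (Real.log y) + C := by
    refine le_trans ?_ (hC y (by exact_mod_cast hy))
    rw [Finset.mul_sum]
    have hsub : (Icc 1 y).filter (fun p : ℕ => p.Prime ∧ B0 < p ∧ jacobiSym d p = 1) ⊆
        Pool.Agent.H474R2.PG.PR (y : ℝ) := by
      intro p hp
      obtain ⟨hp1, hpp, -⟩ := Finset.mem_filter.1 hp
      unfold Pool.Agent.H474R2.PG.PR
      rw [Nat.floor_natCast]
      exact Finset.mem_filter.2 ⟨hp1, hpp⟩
    refine le_trans ?_ (Finset.sum_le_sum_of_subset_of_nonneg hsub fun p _ _ => by positivity)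
    refine Finset.sum_le_sum fun p hp => ?_
    obtain ⟨hp1, hpp, hpB, hJ⟩ := Finset.mem_filter.1 hp
    have h5 : B < p := lt_of_le_of_lt (by rw [hB0]; exact le_max_left _ _) hpB
    have h6 : 2 < p := lt_of_le_of_lt
      (by rw [hB0]; exact (le_max_left _ _).trans (le_max_right _ _)) hpB
    have h8 := hB p hpp h5
    rw [hf] at h8
    have h7 := (two_le_rho hpp h6 hJ).trans h8
    have hp0 : (0 : ℝ) < p := by exact_mod_cast hpp.pos
    rw [mul_one_div]
    apply div_le_div_of_nonneg_right _ hp0.le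
    exact_mod_cast h7
  linarith

end Pool.Agent.H514.KS
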