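import Pool.Agent.H514.IS.BoxL
import Pool.Agent.H514.KS.S1

/-! KS-S5: the pairs with few prime divisors in a set of primes, or with exceptional primes, are
rare (written by helper215, made generic in the set of primes by helper514). -/

set_option autoImplicit false

open scoped Classical

namespace Pool.Agent.H514.KS

open Finset Pool.Agent.W307.RT

/-- the number of the prime divisors `p > w` of the three differences with the property `Q` -/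
noncomputable def cntQ (Q : ℕ → Prop) (w : ℕ) (t : ℤ × ℤ) : ℕ :=
  ((t.1 * t.2 * (t.1 - t.2)).natAbs.primeFactors.filter
    (fun p : ℕ => w < p ∧ Q p)).card

/-- the exceptional pairs -/
def Exc3 (w : ℕ) (t : ℤ × ℤ) : Prop :=
  ∃ p : ℕ, p.Prime ∧ w < p ∧ ((p : ℤ) ^ 2 ∣ t.1 ∨ (p : ℤ) ^ 2 ∣ t.2 ∨ (p : ℤ) ^ 2 ∣ t.1 - t.2 ∨
    ((p : ℤ) ∣ t.1 ∧ (p : ℤ) ∣ t.2))

/-! ### The function -/

/-- the contribution of a prime -/
noncomputable def ps (p : ℕ) (t : ℤ × ℤ) : ℝ :=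
  if (p : ℤ) ∣ t.1 ∨ (p : ℤ) ∣ t.2 ∨ (p : ℤ) ∣ t.1 - t.2 then 1 else 0

/-- the same function modulo `p` -/
noncomputable def Yp (p : ℕ) [Fact p.Prime] (r : ZMod p × ZMod p) : ℝ :=
  if r.1 = 0 ∨ r.2 = 0 ∨ r.1 = r.2 then 1 else 0

lemma ps_eq (p : ℕ) [Fact p.Prime] (t : ℤ × ℤ) :
    ps p t = Yp p ((t.1 : ZMod p), (t.2 : ZMod p)) := by
  unfold ps Yp
  simp only [← ZMod.intCast_zmod_eq_zero_iff_dvd, Int.cast_sub, sub_eq_zero]

section prime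

variable (p : ℕ) [hp : Fact p.Prime]

lemma Yp_abs (r : ZMod p × ZMod p) : |Yp p r| ≤ 1 := by
  unfold Yp
  split_ifs <;> norm_num

lemma Yp_sq (r : ZMod p × ZMod p) : Yp p r ^ 2 = Yp p r := by
  unfold Yp
  split_ifs <;> norm_num

lemma sum_Yp : ∑ r, Yp p r = 3 * p - 2 := by
  have h1 : ∀ r : ZMod p × ZMod p, Yp p r =
      (if r.1 = 0 ∨ r.2 = 0 then (1 : ℝ) else 0) + (if r.1 = r.2 then 1 else 0) -
        (if r.1 = 0 then 1 else 0) * (if r.2 = 0 then 1 else 0) := by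
    rintro ⟨a, b⟩
    unfold Yp
    by_cases h1 : a = 0
    · subst h1
      by_cases h2 : b = 0
      · subst h2
        simp
      · have h3 : ¬ (0 : ZMod p) = b := fun h => h2 h.symm
        simp [h2, h3]
    · by_cases h2 : b = 0
      · subst h2
        simp [h1]
      · simp [h1, h2]
  have s2 : ∑ r : ZMod p × ZMod p, (if r.1 = r.2 then (1 : ℝ) else 0) = p := by
    rw [Fintype.sum_prod_type]
    simp
  have s3 : ∑ r : ZMod p × ZMod p, (if r.1 = 0 then (1 : ℝ) else 0) *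
      (if r.2 = 0 then (1 : ℝ) else 0) = 1 := by
    rw [Fintype.sum_prod_type]
    simp
  rw [Finset.sum_congr rfl fun r _ => h1 r, Finset.sum_sub_distrib, Finset.sum_add_distrib,
    Pool.Agent.H514.IS.sum_zero p, s2, s3]
  ring

end prime

/-- the mean -/
noncomputable def mu3 (p : ℕ) : ℝ := (3 * p - 2) / (p : ℝ) ^ 2

/-- the variance -/
theorem tk_var3 (P : Finset ℕ) (hP : ∀ p ∈ P, p.Prime) (T y : ℕ) (hy : ∀ p ∈ P, p ≤ y) :
    ∑ t ∈ Box T, ((∑ p ∈ P, ps p t) - ∑ p ∈ P, mu3 p) ^ 2 ≤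
      (2 * T + 1) ^ 2 * ∑ p ∈ P, (3 : ℝ) / p +
        3 * (P.card : ℝ) ^ 2 * (2 * (y : ℝ) ^ 2 * (2 * T + 1) + (y : ℝ) ^ 4) := by
  rw [← Pool.Agent.H514.IS.box_card]
  have hposp : ∀ p ∈ P, (1 : ℝ) ≤ p := fun p hp => by exact_mod_cast (hP p hp).one_lt.le
  have hyp : ∀ p ∈ P, (p : ℝ) ≤ y := fun p hp => by exact_mod_cast hy p hp
  refine Pool.Agent.H514.IS.var_abs (Box T) P ps mu3 (fun p => 3 / p) _ ?_ ?_ ?_ ?_
  · intro p hp
    have : Fact p.Prime := ⟨hP p hp⟩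
    have h := Pool.Agent.H514.IS.sum_mod T p (Yp p) (Yp_abs p)
    rw [sum_Yp p] at h
    have h1 := hposp p hp
    have h2 := hyp p hp
    simp_rw [ps_eq p]
    rw [Pool.Agent.H514.IS.box_card]
    have h3 : ((2 * T + 1 : ℝ)) ^ 2 * mu3 p = ((2 * T + 1) / p) ^ 2 * (3 * p - 2) := by
      unfold mu3
      field_simp
    rw [h3]
    refine h.trans ?_
    have h4 : (p : ℝ) ≤ (y : ℝ) ^ 2 := by nlinarith
    have h5 : (p : ℝ) ^ 2 ≤ (y : ℝ) ^ 4 := by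
      calc (p : ℝ) ^ 2 ≤ ((y : ℝ) ^ 2) ^ 2 := pow_le_pow_left₀ (by linarith) h4 2
        _ = _ := by ring
    have h6 : (0 : ℝ) ≤ 2 * T + 1 := by positivity
    nlinarith
  · intro p hp q hq hpq
    have : Fact p.Prime := ⟨hP p hp⟩
    have : Fact q.Prime := ⟨hP q hq⟩
    have : NeZero (p * q) := ⟨mul_ne_zero (NeZero.ne p) (NeZero.ne q)⟩
    have hco : Nat.Coprime p q := (Nat.coprime_primes (hP p hp) (hP q hq)).2 hpq
    have h := Pool.Agent.H514.IS.sum_mod T (p * q) (fun r =>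
      Yp p ((ZMod.castHom (dvd_mul_right p q) (ZMod p) r.1),
        (ZMod.castHom (dvd_mul_right p q) (ZMod p) r.2)) *
      Yp q ((ZMod.castHom (dvd_mul_left q p) (ZMod q) r.1),
        (ZMod.castHom (dvd_mul_left q p) (ZMod q) r.2))) (fun r => by
          rw [abs_mul]
          calc _ ≤ (1 : ℝ) * 1 := mul_le_mul (Yp_abs p _) (Yp_abs q _) (abs_nonneg _) zero_le_one
            _ = 1 := one_mul _)
    rw [Pool.Agent.H514.IS.sum_crt hco, sum_Yp p, sum_Yp q] at h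
    simp only [Pool.Agent.H514.IS.castHom_cast] at h
    simp_rw [ps_eq p, ps_eq q]
    rw [Pool.Agent.H514.IS.box_card]
    have h1 := hposp p hp
    have h2 := hyp p hp
    have h1' := hposp q hq
    have h2' := hyp q hq
    have h3 : ((2 * T + 1 : ℝ)) ^ 2 * (mu3 p * mu3 q) =
        ((2 * T + 1) / ((p * q : ℕ) : ℝ)) ^ 2 * ((3 * p - 2) * (3 * q - 2)) := by
      unfold mu3
      push_cast
      field_simp
    rw [h3]
    refine h.trans ?_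
    push_cast
    have h4 : (p : ℝ) * q ≤ (y : ℝ) ^ 2 := by nlinarith
    have h40 : (0 : ℝ) ≤ (p : ℝ) * q := by positivity
    have h5 : ((p : ℝ) * q) ^ 2 ≤ (y : ℝ) ^ 4 := by
      calc ((p : ℝ) * q) ^ 2 ≤ ((y : ℝ) ^ 2) ^ 2 := pow_le_pow_left₀ h40 h4 2
        _ = _ := by ring
    have h6 : (0 : ℝ) ≤ 2 * T + 1 := by positivity
    nlinarith
  · intro p hp
    have : Fact p.Prime := ⟨hP p hp⟩
    have h := Pool.Agent.H514.IS.sum_mod T p (Yp p) (Yp_abs p)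
    have h1 := hposp p hp
    have h2 := hyp p hp
    rw [sum_Yp p] at h
    simp_rw [ps_eq p, Yp_sq]
    rw [Pool.Agent.H514.IS.box_card]
    have h3 := (abs_le.1 h).2
    have h7 : ((2 * T + 1 : ℝ) / p) ^ 2 * (3 * p - 2) ≤ (2 * T + 1) ^ 2 * (3 / p) := by
      calc _ ≤ ((2 * T + 1 : ℝ) / p) ^ 2 * (3 * p) :=
            mul_le_mul_of_nonneg_left (by linarith) (by positivity)
        _ = _ := by
          field_simp
    have h4 : (p : ℝ) ≤ (y : ℝ) ^ 2 := by nlinarith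
    have h5 : (p : ℝ) ^ 2 ≤ (y : ℝ) ^ 4 := by
      calc (p : ℝ) ^ 2 ≤ ((y : ℝ) ^ 2) ^ 2 := pow_le_pow_left₀ (by linarith) h4 2
        _ = _ := by ring
    have h6 : (0 : ℝ) ≤ 2 * T + 1 := by positivity
    nlinarith
  · intro p hp
    have h2 : (2 : ℝ) ≤ p := by exact_mod_cast (hP p hp).two_le
    unfold mu3
    rw [abs_of_nonneg (by apply div_nonneg <;> nlinarith), div_le_one (by positivity)]
    nlinarith

/-! ### The exceptional pairs -/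

lemma dif_card {w T : ℕ} (hw : 1 ≤ w) (hT : 1 ≤ T) :
    ((((Box T).filter (fun t : ℤ × ℤ => t.1 ≠ t.2 ∧ ∃ p : ℕ, p.Prime ∧ w < p ∧
      (p : ℤ) ^ 2 ∣ t.1 - t.2)).card : ℕ) : ℝ) ≤ 12 * (T : ℝ) ^ 2 / w := by
  set F : ℕ → Finset ℤ := fun m =>
    (Icc (-((2 * T : ℕ) : ℤ)) ((2 * T : ℕ) : ℤ)).filter (fun a : ℤ => a ≠ 0 ∧ (m : ℤ) ∣ a) with hF
  set G : ℕ → Finset (ℤ × ℤ) := fun p =>
    ((Icc (-(T : ℤ)) T) ×ˢ F (p ^ 2)).image (fun s => (s.1, s.1 - s.2)) with hG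
  have hsub : (Box T).filter (fun t : ℤ × ℤ => t.1 ≠ t.2 ∧ ∃ p : ℕ, p.Prime ∧ w < p ∧
      (p : ℤ) ^ 2 ∣ t.1 - t.2) ⊆ (Ioc w (2 * T)).biUnion G := by
    intro t ht
    rw [mem_filter, mem_Box] at ht
    obtain ⟨⟨h1, h2⟩, h3, p, hp, hwp, h5⟩ := ht
    have h6 : t.1 - t.2 ≠ 0 := sub_ne_zero.2 h3
    have h7 : p ≤ 2 * T := by
      have h8 : p ∣ (t.1 - t.2).natAbs :=
        Int.natCast_dvd.1 ((dvd_pow_self _ two_ne_zero).trans h5)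
      have h9 := Nat.le_of_dvd (Int.natAbs_pos.2 h6) h8
      omega
    rw [mem_biUnion]
    refine ⟨p, mem_Ioc.2 ⟨hwp, h7⟩, ?_⟩
    rw [hG]
    simp only
    refine mem_image.2 ⟨(t.1, t.1 - t.2), ?_, ?_⟩
    · rw [mem_product, mem_Icc, hF]
      simp only
      rw [mem_filter, mem_Icc]
      push_cast
      refine ⟨by omega, by omega, h6, h5⟩
    · simp
  have hG' : ∀ p ∈ Ioc w (2 * T), ((G p).card : ℝ) ≤ 12 * (T : ℝ) ^ 2 * (1 / (p : ℝ) ^ 2) := by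
    intro p hp
    rw [mem_Ioc] at hp
    have hp0 : 0 < p := by omega
    have hp0' : (0 : ℝ) < p := by exact_mod_cast hp0
    have c2 : ((F (p ^ 2)).card : ℝ) ≤ 4 * T / (p : ℝ) ^ 2 := by
      have h9 : ((F (p ^ 2)).card : ℝ) ≤ 2 * ((2 * T : ℕ) : ℝ) / ((p ^ 2 : ℕ) : ℝ) :=
        Pool.Agent.H514.IS.cnt_dvd (T := 2 * T) (m := p ^ 2) (by positivity)
      push_cast at h9
      refine h9.trans (le_of_eq ?_)
      ring
    have c1 : (((Icc (-(T : ℤ)) T).card : ℕ) : ℝ) ≤ 3 * T := by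
      rw [Int.card_Icc]
      have : ((T : ℤ) + 1 - (-(T : ℤ))).toNat ≤ 3 * T := by omega
      exact_mod_cast this
    have c4 : (G p).card ≤ (Icc (-(T : ℤ)) T).card * (F (p ^ 2)).card := by
      rw [hG]
      simp only
      refine card_image_le.trans ?_
      rw [card_product]
    have c5 : ((G p).card : ℝ) ≤ (((Icc (-(T : ℤ)) T).card : ℕ) : ℝ) * (F (p ^ 2)).card := by
      exact_mod_cast c4
    have d1 : (((Icc (-(T : ℤ)) T).card : ℕ) : ℝ) * (F (p ^ 2)).card ≤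
        (3 * T) * (4 * T / (p : ℝ) ^ 2) :=
      mul_le_mul c1 c2 (Nat.cast_nonneg _) (by positivity)
    have e1 : (3 * T) * (4 * T / (p : ℝ) ^ 2) = 12 * (T : ℝ) ^ 2 * (1 / (p : ℝ) ^ 2) := by
      field_simp
      ring
    linarith
  have h1 := (card_le_card hsub).trans card_biUnion_le
  calc _ ≤ ((∑ p ∈ Ioc w (2 * T), (G p).card : ℕ) : ℝ) := by exact_mod_cast h1
    _ = ∑ p ∈ Ioc w (2 * T), ((G p).card : ℝ) := by push_cast; rfl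
    _ ≤ ∑ p ∈ Ioc w (2 * T), 12 * (T : ℝ) ^ 2 * (1 / (p : ℝ) ^ 2) := sum_le_sum hG'
    _ = 12 * (T : ℝ) ^ 2 * ∑ p ∈ Ioc w (2 * T), (1 / (p : ℝ) ^ 2) := by rw [mul_sum]
    _ ≤ 12 * (T : ℝ) ^ 2 * (1 / w) :=
        mul_le_mul_of_nonneg_left (Pool.Agent.H514.IS.sum_inv_sq_le hw) (by positivity)
    _ = _ := by ring

/-- the number of the exceptional pairs -/
theorem exc3_card {w T : ℕ} (hw : 1 ≤ w) (hT : 1 ≤ T) :
    ((((Box T).filter (fun t : ℤ × ℤ => (t.1 ≠ 0 ∧ t.2 ≠ 0 ∧ t.1 ≠ t.2) ∧ Exc3 w t)).card : ℕ) : ℝ)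
      ≤ 24 * (T : ℝ) ^ 2 / w := by
  have h1 := Pool.Agent.H514.IS.exc_card (w := w) (T := T) hw
  have h2 := dif_card (w := w) (T := T) hw hT
  have hsub : (Box T).filter (fun t : ℤ × ℤ => (t.1 ≠ 0 ∧ t.2 ≠ 0 ∧ t.1 ≠ t.2) ∧ Exc3 w t) ⊆
      ((Box T).filter (fun t : ℤ × ℤ => t.1 ≠ 0 ∧ t.2 ≠ 0 ∧ Pool.Agent.H514.IS.Exc w t)) ∪
      ((Box T).filter (fun t : ℤ × ℤ => t.1 ≠ t.2 ∧ ∃ p : ℕ, p.Prime ∧ w < p ∧
        (p : ℤ) ^ 2 ∣ t.1 - t.2)) := by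
    intro t ht
    rw [mem_filter] at ht
    obtain ⟨ht1, ⟨a1, a2, a3⟩, p, hp, hwp, h⟩ := ht
    rw [mem_union, mem_filter, mem_filter]
    rcases h with h | h | h | h
    · exact Or.inl ⟨ht1, a1, a2, p, hp, hwp, Or.inl h⟩
    · exact Or.inl ⟨ht1, a1, a2, p, hp, hwp, Or.inr (Or.inl h)⟩
    · exact Or.inr ⟨ht1, a3, p, hp, hwp, h⟩
    · exact Or.inl ⟨ht1, a1, a2, p, hp, hwp, Or.inr (Or.inr h)⟩
  have h3 := (card_le_card hsub).trans (card_union_le _ _)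
  have h4 : ((((Box T).filter (fun t : ℤ × ℤ => (t.1 ≠ 0 ∧ t.2 ≠ 0 ∧ t.1 ≠ t.2) ∧
      Exc3 w t)).card : ℕ) : ℝ) ≤
      (((Box T).filter (fun t : ℤ × ℤ => t.1 ≠ 0 ∧ t.2 ≠ 0 ∧ Pool.Agent.H514.IS.Exc w t)).card : ℝ) +
      (((Box T).filter (fun t : ℤ × ℤ => t.1 ≠ t.2 ∧ ∃ p : ℕ, p.Prime ∧ w < p ∧
        (p : ℤ) ^ 2 ∣ t.1 - t.2)).card : ℝ) := by exact_mod_cast h3
  have h5 : 24 * (T : ℝ) ^ 2 / w = 12 * (T : ℝ) ^ 2 / w + 12 * (T : ℝ) ^ 2 / w := by ring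
  rw [h5]
  linarith

/-! ### The box -/

/-- the inert primes in `(w, y]` -/
noncomputable def Pd (Q : ℕ → Prop) (w y : ℕ) : Finset ℕ :=
  (Ioc w y).filter (fun p : ℕ => p.Prime ∧ Q p)

lemma mem_Pd {Q : ℕ → Prop} {w y p : ℕ} : p ∈ Pd Q w y ↔ (w < p ∧ p ≤ y) ∧ p.Prime ∧ Q p := by
  rw [Pd, mem_filter, mem_Ioc]

lemma sum_ps_le (Q : ℕ → Prop) (w y : ℕ) {t : ℤ × ℤ} (hA : t.1 ≠ 0) (hB : t.2 ≠ 0) (hAB : t.1 ≠ t.2) :
    ∑ p ∈ Pd Q w y, ps p t ≤ cntQ Q w t := by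
  unfold ps cntQ
  rw [Finset.sum_boole]
  have h : ((Pd Q w y).filter (fun p : ℕ => (p : ℤ) ∣ t.1 ∨ (p : ℤ) ∣ t.2 ∨
      (p : ℤ) ∣ t.1 - t.2)).card ≤ ((t.1 * t.2 * (t.1 - t.2)).natAbs.primeFactors.filter
    (fun p : ℕ => w < p ∧ Q p)).card := by
    apply card_le_card
    intro p hp
    rw [mem_filter, mem_Pd] at hp
    obtain ⟨⟨⟨h1, h2⟩, h3, h4⟩, h5⟩ := hp
    rw [mem_filter, Nat.mem_primeFactors]
    refine ⟨⟨h3, ?_, Int.natAbs_ne_zero.2 (mul_ne_zero (mul_ne_zero hA hB)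
      (sub_ne_zero.2 hAB))⟩, h1, h4⟩
    rw [← Int.natCast_dvd]
    rcases h5 with h5 | h5 | h5
    · exact (h5.mul_right _).mul_right _
    · exact (h5.mul_left _).mul_right _
    · exact h5.mul_left _
  exact_mod_cast h

lemma sum_Pd_low {Q : ℕ → Prop} {κ C : ℝ} (hC : ∀ y : ℕ, 3 ≤ y →
    κ * Real.log (Real.log y) - C ≤
      ∑ p ∈ (Icc 1 y).filter (fun p : ℕ => p.Prime ∧ Q p), (1 : ℝ) / p) {w y : ℕ}
    (hy : 3 ≤ y) : κ * Real.log (Real.log y) - C - w ≤ ∑ p ∈ Pd Q w y, (1 : ℝ) / p := by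
  have h1 := hC y hy
  have h3 : ∑ p ∈ (Icc 1 y).filter (fun p : ℕ => p.Prime ∧ Q p), (1 : ℝ) / p ≤
      w + ∑ p ∈ Pd Q w y, (1 : ℝ) / p := by
    have h4 : (Icc 1 y).filter (fun p : ℕ => p.Prime ∧ Q p) ⊆
        (Icc 1 w) ∪ Pd Q w y := by
      intro p hp
      rw [mem_filter, mem_Icc] at hp
      rw [mem_union, mem_Icc, mem_Pd]
      rcases le_or_gt p w with h | h
      · exact Or.inl ⟨hp.1.1, h⟩
      · exact Or.inr ⟨⟨h, hp.1.2⟩, hp.2⟩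
    refine (sum_le_sum_of_subset_of_nonneg h4 fun p _ _ => by positivity).trans ?_
    have h5 := sum_union_le (Icc 1 w) (Pd Q w y)
    have h7 : ∑ p ∈ Icc 1 w, (1 : ℝ) / p ≤ w := by
      calc ∑ p ∈ Icc 1 w, (1 : ℝ) / p ≤ ∑ p ∈ Icc 1 w, (1 : ℝ) := by
            apply sum_le_sum
            intro p hp
            rw [mem_Icc] at hp
            have : (1 : ℝ) ≤ p := by exact_mod_cast hp.1
            rw [div_le_one (by linarith)]
            exact this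
        _ = w := by simp
    linarith
  linarith

lemma sum_mu3 (Q : ℕ → Prop) (w y : ℕ) (hw : 1 ≤ w) : 3 * (∑ p ∈ Pd Q w y, (1 : ℝ) / p) - 2 ≤
    ∑ p ∈ Pd Q w y, mu3 p := by
  have h1 : ∀ p ∈ Pd Q w y, 3 * ((1 : ℝ) / p) - 2 * (1 / (p : ℝ) ^ 2) = mu3 p := by
    intro p hp
    have : (0 : ℝ) < p := by exact_mod_cast (mem_Pd.1 hp).2.1.pos
    unfold mu3
    field_simp
  rw [← sum_congr rfl h1, sum_sub_distrib, ← mul_sum, ← mul_sum]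
  have h2 : ∑ p ∈ Pd Q w y, 1 / (p : ℝ) ^ 2 ≤ 1 := by
    have h3 : ∑ p ∈ Pd Q w y, 1 / (p : ℝ) ^ 2 ≤ ∑ p ∈ Ioc w y, 1 / (p : ℝ) ^ 2 :=
      sum_le_sum_of_subset_of_nonneg (filter_subset _ _) fun p _ _ => by positivity
    have h4 := Pool.Agent.H514.IS.sum_inv_sq_le (w := w) (N := y) hw
    have h5 : 1 / (w : ℝ) ≤ 1 := by
      rw [div_le_one (by exact_mod_cast hw)]
      exact_mod_cast hw
    linarith
  linarith

theorem box_bad {Q : ℕ → Prop} {κ : ℝ} (hκ0 : 0 ≤ κ) (hκ1 : κ ≤ 1)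
    (hQ : ∃ C : ℝ, ∀ y : ℕ, 3 ≤ y → κ * Real.log (Real.log y) - C ≤
      ∑ p ∈ (Icc 1 y).filter (fun p : ℕ => p.Prime ∧ Q p), (1 : ℝ) / p)
    {ε δ : ℝ} (hε : 0 < ε) (hδ : 0 < δ) :
    ∃ w0 : ℕ, ∀ w : ℕ, w0 ≤ w → ∃ T0 : ℕ, ∀ T : ℕ, T0 ≤ T →
    (((Box T).filter (fun t : ℤ × ℤ => (t.1 ≠ 0 ∧ t.2 ≠ 0 ∧ t.1 ≠ t.2) ∧
      (Exc3 w t ∨ (cntQ Q w t : ℝ) < (3 * κ - ε) * Real.log (Real.log T)))).card : ℝ) ≤
        δ * (T : ℝ) ^ 2 := by
  obtain ⟨C2, hC20, hC2⟩ := Pool.Agent.H514.IS.mert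
  obtain ⟨C1, hC1⟩ := hQ
  obtain ⟨w0, hw01, hwδ⟩ : ∃ w0 : ℕ, 1 ≤ w0 ∧ ∀ w : ℕ, w0 ≤ w → 24 / (w : ℝ) ≤ δ / 2 := by
    obtain ⟨w, hw⟩ := exists_nat_ge (48 / δ)
    refine ⟨w + 1, by omega, fun w' hw' => ?_⟩
    have h1 : 48 / δ ≤ (w' : ℝ) := by
      have : ((w + 1 : ℕ) : ℝ) ≤ w' := by exact_mod_cast hw'
      push_cast at this
      linarith
    have h2 : (0 : ℝ) < (w' : ℝ) := by
      have : 0 < w' := by omega
      exact_mod_cast this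
    rw [div_le_iff₀ hδ] at h1
    rw [div_le_div_iff₀ h2 (by norm_num)]
    linarith
  refine ⟨w0, fun w hw => ?_⟩
  have hw1 : 1 ≤ w := by omega
  have hwδ' := hwδ w hw
  set C3 : ℝ := 9 + 3 * |C1| + 3 * w + 2 with hC3
  -- the size of `T`
  obtain ⟨L0, hL0a, hL0b⟩ : ∃ L0 : ℝ, 1 ≤ L0 ∧ ∀ L : ℝ, L0 ≤ L →
      C3 ≤ (ε / 2) * L ∧
      (27 * (L + C2) + 21) / ((ε / 2) * L) ^ 2 ≤ δ / 2 := by
    refine ⟨1 + C3 / (ε / 2) + 2 * (27 * (1 + C2) + 21) / (δ * (ε / 2) ^ 2), ?_,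
      fun L hL => ?_⟩
    · have h1 : 0 ≤ C3 / (ε / 2) := by positivity
      have h2 : 0 ≤ 2 * (27 * (1 + C2) + 21) / (δ * (ε / 2) ^ 2) := by positivity
      linarith
    have h1 : 0 ≤ C3 / (ε / 2) := by positivity
    have h2 : 0 ≤ 2 * (27 * (1 + C2) + 21) / (δ * (ε / 2) ^ 2) := by positivity
    have h3 : C3 / (ε / 2) ≤ L := by linarith
    have h4 : 2 * (27 * (1 + C2) + 21) / (δ * (ε / 2) ^ 2) ≤ L := by linarith
    have h5 : 1 ≤ L := by linarith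
    constructor
    · rw [div_le_iff₀ (by positivity)] at h3
      linarith
    · rw [div_le_iff₀ (by positivity)] at h4
      rw [div_le_div_iff₀ (by positivity) (by norm_num)]
      have h6 : 27 * (L + C2) + 21 ≤ (27 * (1 + C2) + 21) * L := by nlinarith
      have h7 : 2 * (27 * (1 + C2) + 21) * L ≤ L * (δ * (ε / 2) ^ 2) * L :=
        mul_le_mul_of_nonneg_right h4 (by linarith)
      nlinarith
  obtain ⟨T1, hT1⟩ := (Filter.tendsto_atTop.1 Pool.Agent.H514.IS.tend_ll L0).exists_forall_of_atTop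
  refine ⟨max T1 256, fun T hT => ?_⟩
  have hT16 : 256 ≤ T := (le_max_right _ _).trans hT
  have hL := hT1 T ((le_max_left _ _).trans hT)
  set L : ℝ := Real.log (Real.log T) with hLdef
  obtain ⟨hb1, hb2⟩ := hL0b L hL
  have hL1 : 1 ≤ L := hL0a.trans hL
  obtain ⟨y, hy2, hyT, hTy⟩ := Pool.Agent.H514.IS.root4 T (by omega)
  have hy3 : 3 ≤ y := by
    by_contra h
    have h1 : y + 1 ≤ 4 := by omega
    have h2 := Nat.pow_le_pow_left h1 4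
    omega
  have hTr : (0 : ℝ) < T := by
    have : 0 < T := by omega
    exact_mod_cast this
  have hyr : (2 : ℝ) ≤ y := by exact_mod_cast hy2
  have hlogy : 0 < Real.log y := Real.log_pos (by linarith)
  -- the logarithms
  have hll1 : L - 3 ≤ Real.log (Real.log y) := by
    have h1 : (T : ℝ) ≤ (y : ℝ) ^ 8 := by
      have h2 : T ≤ y ^ 8 := by
        have h3 : y + 1 ≤ y ^ 2 := by nlinarith
        calc T ≤ (y + 1) ^ 4 := hTy.le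
          _ ≤ (y ^ 2) ^ 4 := Nat.pow_le_pow_left h3 4
          _ = y ^ 8 := by ring
      exact_mod_cast h2
    have h4 : Real.log T ≤ 8 * Real.log y := by
      have := Real.log_le_log hTr h1
      rw [Real.log_pow] at this
      exact_mod_cast this
    have h5 : 0 < Real.log T := Real.log_pos (by
      have : (256 : ℝ) ≤ T := by exact_mod_cast hT16
      linarith)
    have h6 := Real.log_le_log h5 h4
    rw [Real.log_mul (by norm_num) hlogy.ne'] at h6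
    have h7 : Real.log 8 ≤ 3 := by
      have h8 : Real.log 8 = 3 * Real.log 2 := by
        rw [show (8 : ℝ) = 2 ^ 3 by norm_num, Real.log_pow]
        norm_num
      have := Real.log_two_lt_d9
      linarith
    linarith
  have hll2 : Real.log (Real.log y) ≤ L := by
    apply Real.log_le_log hlogy
    apply Real.log_le_log (by linarith)
    exact_mod_cast (Nat.le_self_pow (by norm_num) y).trans hyT
  have hs1 := sum_Pd_low hC1 (w := w) hy3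
  have hs2 : ∑ p ∈ Pd Q w y, (1 : ℝ) / p ≤ L + C2 := by
    have h1 := (Pool.Agent.H514.IS.sum_Pw hC2 (w := w) hy2).2
    have h2 : ∑ p ∈ Pd Q w y, (1 : ℝ) / p ≤ ∑ p ∈ Pool.Agent.H514.IS.Pw w y, (1 : ℝ) / p := by
      apply sum_le_sum_of_subset_of_nonneg
      · intro p hp
        rw [mem_Pd] at hp
        rw [Pool.Agent.H514.IS.mem_Pw]
        exact ⟨hp.1, hp.2.1⟩
      · intro p _ _
        positivity
    linarith
  have hmu := sum_mu3 Q w y hw1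
  have hP : ∀ p ∈ Pd Q w y, p.Prime := fun p hp => (mem_Pd.1 hp).2.1
  -- the variance
  have hvar := tk_var3 (Pd Q w y) hP T y (fun p hp => (mem_Pd.1 hp).1.2)
  have hcard : ((Pd Q w y).card : ℝ) ≤ y := by
    have h1 : (Pd Q w y).card ≤ (Ioc w y).card := card_le_card (filter_subset _ _)
    rw [Nat.card_Ioc] at h1
    exact_mod_cast h1.trans (Nat.sub_le _ _)
  have hV : ∑ t ∈ Box T, ((∑ p ∈ Pd Q w y, ps p t) - ∑ p ∈ Pd Q w y, mu3 p) ^ 2 ≤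
      (27 * (L + C2) + 21) * (T : ℝ) ^ 2 := by
    refine hvar.trans ?_
    have h1 : ∑ p ∈ Pd Q w y, (3 : ℝ) / p = 3 * ∑ p ∈ Pd Q w y, (1 : ℝ) / p := by
      rw [mul_sum]
      exact sum_congr rfl fun p _ => by ring
    rw [h1]
    have hT1r : (1 : ℝ) ≤ T := by
      have : 1 ≤ T := by omega
      exact_mod_cast this
    have h2 : ((2 * T + 1 : ℝ)) ^ 2 ≤ 9 * (T : ℝ) ^ 2 := by nlinarith
    have h3 : 3 * ∑ p ∈ Pd Q w y, (1 : ℝ) / p ≤ 3 * (L + C2) := by linarith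
    have h30 : 0 ≤ 3 * ∑ p ∈ Pd Q w y, (1 : ℝ) / p :=
      mul_nonneg (by norm_num) (sum_nonneg fun p _ => by positivity)
    have h4 : (2 * T + 1 : ℝ) ^ 2 * (3 * ∑ p ∈ Pd Q w y, (1 : ℝ) / p) ≤
        9 * (T : ℝ) ^ 2 * (3 * (L + C2)) := mul_le_mul h2 h3 h30 (by positivity)
    have h5 : (y : ℝ) ^ 4 ≤ T := by exact_mod_cast hyT
    have h6 : (y : ℝ) ^ 2 ≤ (y : ℝ) ^ 4 := by
      apply pow_le_pow_right₀ (by linarith) (by norm_num)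
    have h7 : ((Pd Q w y).card : ℝ) ^ 2 ≤ (y : ℝ) ^ 2 := pow_le_pow_left₀ (Nat.cast_nonneg _) hcard 2
    have h8 : 3 * ((Pd Q w y).card : ℝ) ^ 2 * (2 * (y : ℝ) ^ 2 * (2 * T + 1) + (y : ℝ) ^ 4) ≤
        21 * (T : ℝ) ^ 2 := by
      have a1 : 3 * ((Pd Q w y).card : ℝ) ^ 2 * (2 * (y : ℝ) ^ 2 * (2 * T + 1) + (y : ℝ) ^ 4) ≤
          3 * (y : ℝ) ^ 2 * (2 * (y : ℝ) ^ 2 * (3 * T) + (y : ℝ) ^ 4) := by
        apply mul_le_mul (by linarith) _ (by positivity) (by positivity)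
        have : 0 ≤ 2 * (y : ℝ) ^ 2 := by positivity
        nlinarith
      have a2 : 3 * (y : ℝ) ^ 2 * (2 * (y : ℝ) ^ 2 * (3 * T) + (y : ℝ) ^ 4) =
          18 * (y : ℝ) ^ 4 * T + 3 * (y : ℝ) ^ 2 * (y : ℝ) ^ 4 := by ring
      have a3 : 18 * (y : ℝ) ^ 4 * T ≤ 18 * T * T := by
        apply mul_le_mul_of_nonneg_right (by linarith) hTr.le
      have a4 : 3 * (y : ℝ) ^ 2 * (y : ℝ) ^ 4 ≤ 3 * T * T := by
        apply mul_le_mul (by linarith) h5 (by positivity) (by positivity)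
      nlinarith
    nlinarith
  have hc1 := Pool.Agent.H514.IS.cheb (Box T)
    (fun t => (∑ p ∈ Pd Q w y, ps p t) - ∑ p ∈ Pd Q w y, mu3 p)
    (a := (ε / 2) * L) (by positivity) hV
  have hE := exc3_card (w := w) (T := T) hw1 (by omega)
  -- the union
  have hsub : (Box T).filter (fun t : ℤ × ℤ => (t.1 ≠ 0 ∧ t.2 ≠ 0 ∧ t.1 ≠ t.2) ∧
      (Exc3 w t ∨ (cntQ Q w t : ℝ) < (3 * κ - ε) * L)) ⊆
      ((Box T).filter (fun t : ℤ × ℤ => (t.1 ≠ 0 ∧ t.2 ≠ 0 ∧ t.1 ≠ t.2) ∧ Exc3 w t)) ∪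
      ((Box T).filter (fun t : ℤ × ℤ => (ε / 2) * L <
        |(∑ p ∈ Pd Q w y, ps p t) - ∑ p ∈ Pd Q w y, mu3 p|)) := by
    intro t ht
    rw [mem_filter] at ht
    obtain ⟨ht1, ⟨hA, hB, hAB⟩, ht2⟩ := ht
    rw [mem_union, mem_filter, mem_filter]
    by_contra hcon
    rw [not_or] at hcon
    obtain ⟨n1, n3⟩ := hcon
    have he : ¬ Exc3 w t := fun h => n1 ⟨ht1, ⟨hA, hB, hAB⟩, h⟩
    have h3 : |(∑ p ∈ Pd Q w y, ps p t) - ∑ p ∈ Pd Q w y, mu3 p| ≤ (ε / 2) * L := by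
      by_contra h
      exact n3 ⟨ht1, not_le.1 h⟩
    have ht3 := ht2.resolve_left he
    have h4 := (abs_le.1 h3).1
    have h5 := sum_ps_le Q w y hA hB hAB
    have h6 := le_abs_self C1
    have h8 : κ * (L - 3) ≤ κ * Real.log (Real.log y) := mul_le_mul_of_nonneg_left hll1 hκ0
    have h7 : (3 * κ) * (L - 3) - 3 * C1 - 3 * w - 2 ≤ ∑ p ∈ Pd Q w y, mu3 p := by linarith
    have h9 : (3 * κ) * (L - 3) = 3 * κ * L - 9 * κ := by ring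
    linarith
  have hfin := (card_le_card hsub).trans (card_union_le _ _)
  have hfin' : (((Box T).filter (fun t : ℤ × ℤ => (t.1 ≠ 0 ∧ t.2 ≠ 0 ∧ t.1 ≠ t.2) ∧
      (Exc3 w t ∨ (cntQ Q w t : ℝ) < (3 * κ - ε) * L))).card : ℝ) ≤
      ((Box T).filter (fun t : ℤ × ℤ => (t.1 ≠ 0 ∧ t.2 ≠ 0 ∧ t.1 ≠ t.2) ∧ Exc3 w t)).card +
      ((Box T).filter (fun t : ℤ × ℤ => (ε / 2) * L <
        |(∑ p ∈ Pd Q w y, ps p t) - ∑ p ∈ Pd Q w y, mu3 p|)).card := by exact_mod_cast hfin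
  have hT2 : (0 : ℝ) ≤ (T : ℝ) ^ 2 := by positivity
  have f1 : 24 * (T : ℝ) ^ 2 / w ≤ δ / 2 * (T : ℝ) ^ 2 := by
    calc 24 * (T : ℝ) ^ 2 / w = 24 / w * (T : ℝ) ^ 2 := by ring
      _ ≤ _ := mul_le_mul_of_nonneg_right hwδ' hT2
  have f3 : (27 * (L + C2) + 21) * (T : ℝ) ^ 2 / ((ε / 2) * L) ^ 2 ≤ δ / 2 * (T : ℝ) ^ 2 := by
    calc (27 * (L + C2) + 21) * (T : ℝ) ^ 2 / ((ε / 2) * L) ^ 2 =
        (27 * (L + C2) + 21) / ((ε / 2) * L) ^ 2 * (T : ℝ) ^ 2 := by ring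
      _ ≤ _ := mul_le_mul_of_nonneg_right hb2 hT2
  linarith

end Pool.Agent.H514.KS
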