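import Pool.Agent.H514.KS.Ker
import Pool.Agent.H514.KS.S1b
import Pool.Agent.H514.KS.S5
import Pool.Agent.H514.IS.FinI
import Pool.Agent.H457.A.S2b

/-! The curves ordered by height. -/

set_option autoImplicit false

open scoped Classical

namespace Pool.Agent.H514.KS

open Finset Filter Pool.Agent.W307.RT Pool.Agent.W262.SH Pool.Agent.H514
open Pool.Agent.H514.IS (tend_ll rel_ne)

/-- the filter does not depend on the decidability of the predicate -/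
theorem filter_inst (s : Finset ℕ) (p : ℕ → Prop) (d1 d2 : DecidablePred p) :
    @Finset.filter ℕ p d1 s = @Finset.filter ℕ p d2 s := by
  have h : d1 = d2 := Subsingleton.elim _ _
  subst h
  rfl

/-- the theorem about pairs -/
def BoxBad (Q : ℕ → Prop) (κ : ℝ) : Prop := ∀ ε δ : ℝ, 0 < ε → 0 < δ →
    ∃ w0 : ℕ, ∀ w : ℕ, w0 ≤ w → ∃ T0 : ℕ, ∀ T : ℕ, T0 ≤ T →
    (((Box T).filter (fun t : ℤ × ℤ => (t.1 ≠ 0 ∧ t.2 ≠ 0 ∧ t.1 ≠ t.2) ∧
      (Exc3 w t ∨ (cntQ Q w t : ℝ) < (3 * κ - ε) * Real.log (Real.log T)))).card : ℝ) ≤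
        δ * (T : ℝ) ^ 2

/-- the roots -/
def er (e1 e2 : ℤ) : Fin 3 → ℤ := ![e1, e2, -e1 - e2]

lemma rr_of_rel {c : ℤ × ℤ} {e1 e2 : ℤ} (h12 : e1 ≠ e2) (h13 : 2 * e1 + e2 ≠ 0)
    (h23 : e1 + 2 * e2 ≠ 0) (hA : c.1 = -(e1 ^ 2 + e1 * e2 + e2 ^ 2))
    (hB : c.2 = e1 * e2 * (e1 + e2)) : RR (Sh c.1 c.2) (er e1 e2) := by
  intro L _ _
  have hcz := charZ L
  have h0 : (er e1 e2) 0 = e1 := rfl
  have h1 : (er e1 e2) 1 = e2 := rfl
  have h2 : (er e1 e2) 2 = -e1 - e2 := rfl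
  rw [h0, h1, h2]
  refine ⟨map_zero _, ?_, map_zero _, ?_, ?_, two_ne_zero, ?_, ?_, ?_⟩
  · show algebraMap ℚ L 0 = _
    rw [map_zero]
    push_cast
    ring
  · show algebraMap ℚ L ((c.1 : ℤ) : ℚ) = _
    rw [map_intCast, hA]
    push_cast
    ring
  · show algebraMap ℚ L ((c.2 : ℤ) : ℚ) = _
    rw [map_intCast, hB]
    push_cast
    ring
  · exact_mod_cast h12
  · intro h
    have h3 : e1 = -e1 - e2 := by exact_mod_cast h
    exact h13 (by linarith)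
  · intro h
    have h3 : e2 = -e1 - e2 := by exact_mod_cast h
    exact h23 (by linarith)

lemma nx_of {w : ℕ} {e1 e2 : ℤ} (h : ¬ Exc3 w (e2 - e1, -2 * e1 - e2)) : NX w (er e1 e2) := by
  intro p hp hpw
  have h0 : (er e1 e2) 0 - (er e1 e2) 1 = -(e2 - e1) := by
    show e1 - e2 = _
    ring
  have h1 : (er e1 e2) 0 - (er e1 e2) 2 = -(-2 * e1 - e2) := by
    show e1 - (-e1 - e2) = _
    ring
  have h2 : (er e1 e2) 1 - (er e1 e2) 2 = (e2 - e1) - (-2 * e1 - e2) := by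
    show e2 - (-e1 - e2) = _
    ring
  rw [h0, h1, h2, dvd_neg, dvd_neg, dvd_neg, dvd_neg]
  refine ⟨fun h3 => h ⟨p, hp, hpw, Or.inl h3⟩, fun h3 => h ⟨p, hp, hpw, Or.inr (Or.inl h3)⟩,
    fun h3 => h ⟨p, hp, hpw, Or.inr (Or.inr (Or.inl h3))⟩,
    fun h3 => h ⟨p, hp, hpw, Or.inr (Or.inr (Or.inr h3))⟩⟩

lemma cnt_eq {Q : ℕ → Prop} {w : ℕ} {e1 e2 : ℤ} :
    ((Pp w (er e1 e2)).filter Q).card = cntQ Q w (e2 - e1, -2 * e1 - e2) := by
  unfold Pp cntQ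
  rw [filter_filter]
  congr 1
  have h : (Del (er e1 e2)).natAbs =
      ((e2 - e1) * (-2 * e1 - e2) * ((e2 - e1) - (-2 * e1 - e2))).natAbs := by
    congr 1
    show (e1 - e2) * (e1 - (-e1 - e2)) * (e2 - (-e1 - e2)) = _
    ring
  rw [h]

lemma has_zero (A : Type) [AddCommGroup A] (q : ℕ) : Has A q 0 :=
  ⟨0, Function.injective_of_subsingleton _⟩

lemma rank_rare {n : ℕ} {D : Fin n → ℤ} (hD : ∀ i, D i ≠ 0) {δ : ℝ} (hδ : 0 < δ) :
    ∃ R : ℕ, ∀ᶠ H : ℕ in atTop, (((Cv 2 H).filter (fun c : ℤ × ℤ =>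
      R ≤ rkN (Sh c.1 c.2) (KD D))).card : ℝ) ≤ δ * (Cv 2 H).card := by
  obtain ⟨C, c, hC, hc, h⟩ := Pool.Agent.H457.A.height_tailK n
  have hl : Tendsto (fun r : ℕ => (r : ℝ) * Real.log r) atTop atTop :=
    tendsto_natCast_atTop_atTop.atTop_mul_atTop₀
      (Real.tendsto_log_atTop.comp tendsto_natCast_atTop_atTop)
  have h1 : Tendsto (fun r : ℕ => C * (∏ i, (D i : ℝ) ^ 2) *
      Real.exp (-(c * (r * Real.log r)))) atTop (nhds 0) := by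
    have h2 : Tendsto (fun r : ℕ => Real.exp (-(c * (r * Real.log r)))) atTop (nhds 0) :=
      Real.tendsto_exp_neg_atTop_nhds_zero.comp (hl.const_mul_atTop hc)
    have h3 := h2.const_mul (C * (∏ i, (D i : ℝ) ^ 2))
    rw [mul_zero] at h3
    exact h3
  obtain ⟨R, hR⟩ := ((h1.eventually (gt_mem_nhds hδ)).exists)
  refine ⟨R, ?_⟩
  filter_upwards [h D hD R] with H hH
  refine le_trans ?_ (hH.trans (mul_le_mul_of_nonneg_right hR.le (Nat.cast_nonneg _)))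
  have h4 : (Cv 2 H).filter (fun c : ℤ × ℤ => R ≤ rkN (Sh c.1 c.2) (KD D)) ⊆
      Pool.Agent.H457.A.CP (fun e => ∃ s : ℕ, Has (ShaN (Sh e.1 e.2) (KD D)) (2 ^ (n + 1)) s ∧
        R ≤ rkN (Sh e.1 e.2) (KD D) + s) H := by
    intro x hx
    unfold Pool.Agent.H457.A.CP
    rw [mem_filter] at hx ⊢
    exact ⟨hx.1, 0, has_zero _ _, by simpa using hx.2⟩
  exact_mod_cast card_le_card h4

theorem fin_sha {n : ℕ} {D : Fin n → ℤ} (hD : ∀ i, D i ≠ 0) {κ : ℝ} (hκ0 : 0 < κ) (hκ1 : κ ≤ 1)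
    (hbox : BoxBad (fun p => ∃ i, jacobiSym (D i) p = -1) κ) {ε δ : ℝ} (hε : 0 < ε)
    (hδ : 0 < δ) : ∀ᶠ H : ℕ in atTop,
    (((Cv 2 H).filter (fun c : ℤ × ℤ => ¬ ∃ r : ℕ, (3 * κ - ε) * Real.log (Real.log H) ≤ r ∧
      Has (ShaN (Sh c.1 c.2) (KD D)) 2 r)).card : ℝ) ≤ δ * (Cv 2 H).card := by
  set ε' : ℝ := min ε κ with hε'
  have hε'0 : 0 < ε' := lt_min hε hκ0
  have hε'1 : ε' ≤ κ := min_le_right _ _
  have hε'ε : ε' ≤ ε := min_le_left _ _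
  obtain ⟨R, hR⟩ := rank_rare hD (half_pos hδ)
  obtain ⟨c0, C1, T1, hc0, hlow⟩ := low2
  set Dn : ℕ := 54 * C1 + 1 with hDn
  have hD1 : 1 ≤ Dn := by omega
  obtain ⟨w0, hw0⟩ := hbox (ε' / 2) (δ / 2 * c0 / (4 * (Dn : ℝ) ^ 2)) (by positivity)
    (by positivity)
  set w : ℕ := max w0 (max 29 (∏ i, D i).natAbs) with hw
  have hw29 : 29 ≤ w := (le_max_left _ _).trans (le_max_right _ _)
  have hprod0 : (∏ i, D i) ≠ 0 := prod_ne_zero_iff.2 fun i _ => hD i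
  have hDw : ∀ p : ℕ, p.Prime → w < p → ¬ (p : ℤ) ∣ ∏ i, D i := by
    intro p _ hpw h
    have h1 := Nat.le_of_dvd (Int.natAbs_pos.2 hprod0) (Int.natCast_dvd.1 h)
    have h2 : (∏ i, D i).natAbs ≤ w := (le_max_right _ _).trans (le_max_right _ _)
    omega
  obtain ⟨T2, hT2⟩ := hw0 w (le_max_left _ _)
  obtain ⟨T3, hT3⟩ := (tendsto_atTop.1 tend_ll ((18 + 2 * (2 * w + 2 + R)) / ε')).exists_forall_of_atTop
  set Tm : ℕ := max (max (Dn * (T1 + 1)) T2) (max T3 16) with hTm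
  filter_upwards [hR, eventually_ge_atTop (Tm ^ 6)] with H hRH hH
  -- the size of the parameters
  set T : ℕ := Nat.findGreatest (fun t => t ^ 6 ≤ 54 * H) (54 * H) with hT
  have hle : ∀ x : ℕ, x ^ 6 ≤ 54 * H → x ≤ T := fun x hx =>
    Nat.le_findGreatest ((Nat.le_self_pow (by omega) x).trans hx) hx
  have hTk : T ^ 6 ≤ 54 * H := Nat.findGreatest_spec (P := fun t => t ^ 6 ≤ 54 * H)
    (Nat.zero_le _) (by rw [zero_pow (by omega)]; exact Nat.zero_le _)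
  have hTs : 54 * H < (T + 1) ^ 6 := by
    by_contra h
    rw [not_lt] at h
    have := hle (T + 1) h
    omega
  have hTmT : Tm ≤ T := hle _ (hH.trans (by omega))
  have hTD : Dn * (T1 + 1) ≤ T := ((le_max_left _ _).trans (le_max_left _ _)).trans hTmT
  have hTT2 : T2 ≤ T := ((le_max_right _ _).trans (le_max_left _ _)).trans hTmT
  have hTT3 : T3 ≤ T := ((le_max_left _ _).trans (le_max_right _ _)).trans hTmT
  have hT16 : 16 ≤ T := ((le_max_right _ _).trans (le_max_right _ _)).trans hTmT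
  -- the number of the curves
  set T' := T / Dn with hT'
  have hT'0 : T1 + 1 ≤ T' := by
    rw [hT', Nat.le_div_iff_mul_le hD1, mul_comm]
    exact hTD
  have h2 : T' * Dn ≤ T := Nat.div_mul_le_self T Dn
  have h3 : C1 * T' ^ 6 ≤ H := by
    have a1 : (T' * Dn) ^ 6 ≤ 54 * H := (Nat.pow_le_pow_left h2 6).trans hTk
    rw [mul_pow] at a1
    have a2 : Dn ≤ Dn ^ 6 := Nat.le_self_pow (by omega) Dn
    have a3 : T' ^ 6 * (54 * C1) ≤ 54 * H :=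
      (Nat.mul_le_mul_left _ (by omega : 54 * C1 ≤ Dn ^ 6)).trans a1
    have a4 : 54 * (C1 * T' ^ 6) ≤ 54 * H := by
      calc 54 * (C1 * T' ^ 6) = T' ^ 6 * (54 * C1) := by ring
        _ ≤ _ := a3
    omega
  have h4 := hlow T' H (by omega) h3
  have h5 : T ≤ 2 * Dn * T' := by
    have a1 : T < Dn * (T' + 1) := by
      rw [mul_comm]
      exact Nat.lt_mul_of_div_lt (by rw [← hT']; omega) hD1
    have a2 : Dn * (T' + 1) ≤ 2 * Dn * T' := by nlinarith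
    omega
  have h6 : (T : ℝ) ≤ 2 * Dn * T' := by exact_mod_cast h5
  have h7 : (T : ℝ) ^ 2 ≤ 4 * (Dn : ℝ) ^ 2 / c0 * (Cv 2 H).card := by
    calc (T : ℝ) ^ 2 ≤ (2 * Dn * T') ^ 2 := pow_le_pow_left₀ (Nat.cast_nonneg T) h6 2
      _ = 4 * (Dn : ℝ) ^ 2 / c0 * (c0 * (T' : ℝ) ^ 2) := by
        field_simp
        ring
      _ ≤ _ := mul_le_mul_of_nonneg_left h4 (by positivity)
  -- the logarithms
  have hTr : (16 : ℝ) ≤ T := by exact_mod_cast hT16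
  have hH16 : 16 ≤ H := by
    have : 16 ^ 6 ≤ Tm ^ 6 :=
      Nat.pow_le_pow_left ((le_max_right _ _).trans (le_max_right _ _)) 6
    omega
  have hHr : (16 : ℝ) ≤ H := by exact_mod_cast hH16
  have hlogT : 0 < Real.log T := Real.log_pos (by linarith)
  have hlogH1 : 1 ≤ Real.log H := by
    rw [Real.le_log_iff_exp_le (by linarith)]
    have := Real.exp_one_lt_d9
    linarith
  have hLH0 : 0 ≤ Real.log (Real.log H) := Real.log_nonneg hlogH1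
  have hLH : Real.log (Real.log H) ≤ 3 + Real.log (Real.log T) := by
    have a1 : (H : ℝ) ≤ (T : ℝ) ^ 12 := by
      have a2 : H ≤ T ^ 12 := by
        have a3 : T + 1 ≤ T ^ 2 := by nlinarith
        calc H ≤ 54 * H := by omega
          _ ≤ (T + 1) ^ 6 := hTs.le
          _ ≤ (T ^ 2) ^ 6 := Nat.pow_le_pow_left a3 6
          _ = T ^ 12 := by ring
      exact_mod_cast a2
    have a4 : Real.log H ≤ 12 * Real.log T := by
      have := Real.log_le_log (by linarith) a1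
      rw [Real.log_pow] at this
      exact_mod_cast this
    have a6 := Real.log_le_log (by linarith) a4
    rw [Real.log_mul (by norm_num) hlogT.ne'] at a6
    have a7 : Real.log 12 ≤ 3 := by
      rw [Real.log_le_iff_le_exp (by norm_num)]
      have b1 := Real.exp_one_gt_d9
      have b2 : (2.7182818283 : ℝ) ^ 3 ≤ (Real.exp 1) ^ 3 :=
        pow_le_pow_left₀ (by norm_num) b1.le 3
      rw [← Real.exp_nat_mul] at b2
      norm_num at b2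
      linarith
    linarith
  have hLT : (18 + 2 * (2 * w + 2 + R)) / ε' ≤ Real.log (Real.log T) := hT3 T hTT3
  have hcmp : (3 * κ - ε) * Real.log (Real.log H) + (2 * w + 2 + R) ≤
      (3 * κ - ε' / 2) * Real.log (Real.log T) := by
    rw [div_le_iff₀ hε'0] at hLT
    have b1 : (3 * κ - ε) * Real.log (Real.log H) ≤ (3 * κ - ε') * Real.log (Real.log H) :=
      mul_le_mul_of_nonneg_right (by linarith) hLH0
    have b2 : (3 * κ - ε') * Real.log (Real.log H) ≤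
        (3 * κ - ε') * (3 + Real.log (Real.log T)) :=
      mul_le_mul_of_nonneg_left hLH (by linarith)
    nlinarith
  -- the comparison
  have hbad := hT2 T hTT2
  have hchoose : ∀ c ∈ ((Cv 2 H).filter (fun c : ℤ × ℤ =>
      ¬ ∃ r : ℕ, (3 * κ - ε) * Real.log (Real.log H) ≤ r ∧
      Has (ShaN (Sh c.1 c.2) (KD D)) 2 r)).filter (fun c => ¬ R ≤ rkN (Sh c.1 c.2) (KD D)),
      ∃ ab, Rel2 c ab ∧
      ab ∈ (Box T).filter (fun t : ℤ × ℤ => (t.1 ≠ 0 ∧ t.2 ≠ 0 ∧ t.1 ≠ t.2) ∧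
      (Exc3 w t ∨ (cntQ (fun p => ∃ i, jacobiSym (D i) p = -1) w t : ℝ) <
        (3 * κ - ε' / 2) * Real.log (Real.log T))) := by
    intro c hc
    rw [mem_filter, mem_filter] at hc
    obtain ⟨⟨hc, hS⟩, hrk⟩ := hc
    have hc' := hc
    simp only [Cv, Finset.mem_filter] at hc'
    obtain ⟨-, hDc, hH1, -, -, hTc⟩ := hc'
    obtain ⟨ab, hr⟩ : ∃ ab, Rel2 c ab := core2 (A := c.1) (B := c.2) hDc hTc
    refine ⟨ab, hr, ?_⟩
    obtain ⟨hb1, hb2⟩ := rel2_bound (A := c.1) (B := c.2) hr hH1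
    rw [mem_filter, mem_Box]
    refine ⟨⟨hle _ hb1, hle _ hb2⟩, rel_ne hr, ?_⟩
    by_contra hcon
    rw [not_or] at hcon
    obtain ⟨hx, hn⟩ := hcon
    obtain ⟨e1, e2, rfl, h12, h13, h23, hA, hB⟩ := hr
    obtain ⟨r, hr1, hr2⟩ := low (D := D) (w := w) hDc (rr_of_rel h12 h13 h23 hA hB) hw29
      (nx_of hx) hD hDw
    have hce := cnt_eq (Q := fun p => ∃ i, jacobiSym (D i) p = -1) (w := w) (e1 := e1) (e2 := e2)
    replace hr1 : cntQ (fun p => ∃ i, jacobiSym (D i) p = -1) w (e2 - e1, -2 * e1 - e2) ≤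
        r + (2 * w + 2 + rkN (⟨0, 0, 0, (c.1 : ℚ), (c.2 : ℚ)⟩ : WeierstrassCurve ℚ) (KD D)) := by
      rw [← hce]
      exact (congrArg Finset.card (filter_inst _ _ _ _)).le.trans hr1
    refine hS ⟨r, ?_, hr2⟩
    rw [not_lt] at hn
    rw [not_le] at hrk
    have hr3 : (cntQ (fun p => ∃ i, jacobiSym (D i) p = -1) w (e2 - e1, -2 * e1 - e2) : ℝ) ≤
        r + (2 * w + 2 + R) := by
      have : cntQ (fun p => ∃ i, jacobiSym (D i) p = -1) w (e2 - e1, -2 * e1 - e2) ≤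
          r + (2 * w + 2 + R) := by
        refine hr1.trans ?_
        have : rkN (⟨0, 0, 0, (c.1 : ℚ), (c.2 : ℚ)⟩ : WeierstrassCurve ℚ) (KD D) < R := hrk
        omega
      exact_mod_cast this
    linarith
  choose! G hG1 hG2 using hchoose
  have hcard : (((Cv 2 H).filter (fun c : ℤ × ℤ =>
      ¬ ∃ r : ℕ, (3 * κ - ε) * Real.log (Real.log H) ≤ r ∧
      Has (ShaN (Sh c.1 c.2) (KD D)) 2 r)).filter
        (fun c => ¬ R ≤ rkN (Sh c.1 c.2) (KD D))).card ≤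
      ((Box T).filter (fun t : ℤ × ℤ => (t.1 ≠ 0 ∧ t.2 ≠ 0 ∧ t.1 ≠ t.2) ∧
      (Exc3 w t ∨ (cntQ (fun p => ∃ i, jacobiSym (D i) p = -1) w t : ℝ) <
        (3 * κ - ε' / 2) * Real.log (Real.log T)))).card := by
    refine card_le_card_of_injOn G (fun c hc => hG2 c hc) ?_
    intro c hc c' hc' h
    have r1 := hG1 c hc
    have r2 := hG1 c' hc'
    rw [← h] at r2
    exact rel2_unique r1 r2
  have hsplit := card_filter_add_card_filter_not (s := (Cv 2 H).filter (fun c : ℤ × ℤ =>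
      ¬ ∃ r : ℕ, (3 * κ - ε) * Real.log (Real.log H) ≤ r ∧
      Has (ShaN (Sh c.1 c.2) (KD D)) 2 r)) (fun c => R ≤ rkN (Sh c.1 c.2) (KD D))
  have hsub : (((Cv 2 H).filter (fun c : ℤ × ℤ =>
      ¬ ∃ r : ℕ, (3 * κ - ε) * Real.log (Real.log H) ≤ r ∧
      Has (ShaN (Sh c.1 c.2) (KD D)) 2 r)).filter
        (fun c => R ≤ rkN (Sh c.1 c.2) (KD D))).card ≤ ((Cv 2 H).filter (fun c : ℤ × ℤ =>
      R ≤ rkN (Sh c.1 c.2) (KD D))).card :=
    card_le_card (filter_subset_filter _ (filter_subset _ _))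
  have f1 : ((((Cv 2 H).filter (fun c : ℤ × ℤ =>
      ¬ ∃ r : ℕ, (3 * κ - ε) * Real.log (Real.log H) ≤ r ∧
      Has (ShaN (Sh c.1 c.2) (KD D)) 2 r)).filter
        (fun c => R ≤ rkN (Sh c.1 c.2) (KD D))).card : ℝ) ≤ δ / 2 * (Cv 2 H).card :=
    le_trans (by exact_mod_cast hsub) hRH
  have f2 : ((((Cv 2 H).filter (fun c : ℤ × ℤ =>
      ¬ ∃ r : ℕ, (3 * κ - ε) * Real.log (Real.log H) ≤ r ∧
      Has (ShaN (Sh c.1 c.2) (KD D)) 2 r)).filter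
        (fun c => ¬ R ≤ rkN (Sh c.1 c.2) (KD D))).card : ℝ) ≤ δ / 2 * (Cv 2 H).card := by
    calc _ ≤ ((((Box T).filter (fun t : ℤ × ℤ => (t.1 ≠ 0 ∧ t.2 ≠ 0 ∧ t.1 ≠ t.2) ∧
      (Exc3 w t ∨ (cntQ (fun p => ∃ i, jacobiSym (D i) p = -1) w t : ℝ) <
        (3 * κ - ε' / 2) * Real.log (Real.log T)))).card : ℕ) : ℝ) := by exact_mod_cast hcard
      _ ≤ δ / 2 * c0 / (4 * (Dn : ℝ) ^ 2) * (T : ℝ) ^ 2 := hbad
      _ ≤ δ / 2 * c0 / (4 * (Dn : ℝ) ^ 2) * (4 * (Dn : ℝ) ^ 2 / c0 * (Cv 2 H).card) :=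
        mul_le_mul_of_nonneg_left h7 (by positivity)
      _ = _ := by
        field_simp
  have f3 : (((Cv 2 H).filter (fun c : ℤ × ℤ =>
      ¬ ∃ r : ℕ, (3 * κ - ε) * Real.log (Real.log H) ≤ r ∧
      Has (ShaN (Sh c.1 c.2) (KD D)) 2 r)).card : ℝ) =
      ((((Cv 2 H).filter (fun c : ℤ × ℤ =>
      ¬ ∃ r : ℕ, (3 * κ - ε) * Real.log (Real.log H) ≤ r ∧
      Has (ShaN (Sh c.1 c.2) (KD D)) 2 r)).filter
        (fun c => R ≤ rkN (Sh c.1 c.2) (KD D))).card : ℝ) +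
      ((((Cv 2 H).filter (fun c : ℤ × ℤ =>
      ¬ ∃ r : ℕ, (3 * κ - ε) * Real.log (Real.log H) ≤ r ∧
      Has (ShaN (Sh c.1 c.2) (KD D)) 2 r)).filter
        (fun c => ¬ R ≤ rkN (Sh c.1 c.2) (KD D))).card : ℝ) := by exact_mod_cast hsplit.symm
  rw [f3]
  linarith

/-- the theorem -/
theorem main {n : ℕ} (hn : n ≠ 0) {D : Fin n → ℤ}
    (hind : ∀ S : Finset (Fin n), S.Nonempty → ¬ IsSquare (∏ i ∈ S, D i)) {ε δ : ℝ} (hε : 0 < ε)
    (hδ : 0 < δ) : ∀ᶠ H : ℕ in atTop,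
    (((Cv 2 H).filter (fun c : ℤ × ℤ => ¬ ∃ r : ℕ,
      (3 * (1 - 1 / 2 ^ n) - ε) * Real.log (Real.log H) ≤ r ∧
      Has (ShaN (Sh c.1 c.2) (KD D)) 2 r)).card : ℝ) ≤ δ * (Cv 2 H).card := by
  have hD : ∀ i, D i ≠ 0 := by
    intro i h
    refine hind {i} (Finset.singleton_nonempty i) ?_
    rw [Finset.prod_singleton, h]
    exact ⟨0, by ring⟩
  have h1 : (1 : ℝ) / 2 ^ n ≤ 1 / 2 := by
    apply one_div_le_one_div_of_le (by norm_num)
    calc (2 : ℝ) = 2 ^ 1 := (pow_one 2).symm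
      _ ≤ 2 ^ n := pow_le_pow_right₀ (by norm_num) (Nat.one_le_iff_ne_zero.2 hn)
  have h2 : (0 : ℝ) < 1 / 2 ^ n := by positivity
  have h3 : (0 : ℝ) < 1 - 1 / 2 ^ n := by linarith
  have h4 : (1 : ℝ) - 1 / 2 ^ n ≤ 1 := by linarith
  refine fin_sha hD h3 h4 (fun ε δ hε hδ => ?_) hε hδ
  exact box_bad h3.le h4 (by
    obtain ⟨C, hC⟩ := prime_multi hind
    refine ⟨C, fun y hy => ?_⟩
    exact (hC y hy).trans (le_of_eq
      (Finset.sum_congr (filter_inst _ _ _ _) (fun _ _ => rfl)))) hε hδ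

end Pool.Agent.H514.KS
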