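import Mathlib
import Pool.Graph.R_pool_sql_team_seeded_f72693b1.W262.SH.DefB
import Pool.Graph.R_seed8.H64R2.DD_MWK

/-! KS-S2: few classes modulo doubling (Mordell-Weil). -/

set_option autoImplicit false

open scoped Classical

namespace Pool.Agent.H514.KS

open WeierstrassCurve Pool.Agent.W262.SH

/-- the number of classes modulo doubling of a finite abelian group -/
theorem fin_index (T : Type) [AddCommGroup T] [Finite T] :
    Nat.card (T ⧸ (zsmulAddGroupHom (α := T) 2).range) = Nat.card (zsmulAddGroupHom (α := T) 2).ker := by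
  have h1 := AddSubgroup.index_ker (zsmulAddGroupHom (α := T) 2)
  have h2 := (zsmulAddGroupHom (α := T) 2).ker.index_mul_card
  have h3 := (zsmulAddGroupHom (α := T) 2).range.index_mul_card
  have h4 : 0 < Nat.card (zsmulAddGroupHom (α := T) 2).range := Nat.card_pos
  rw [h1] at h2
  rw [← h2, mul_comm] at h3
  exact Nat.eq_of_mul_eq_mul_left h4 h3

theorem abs_bound {G : Type} [AddCommGroup G] (hG : AddGroup.FG G)
    (h4 : ∀ S : Finset G, (∀ P ∈ S, P + P = 0) → S.card ≤ 4) (S : Finset G)
    (hS : ∀ P ∈ S, ∀ Q ∈ S, (∃ R, P - Q = R + R) → P = Q) :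
    S.card ≤ 4 * 2 ^ Module.finrank ℤ G := by
  classical
  have : AddGroup.FG G := hG
  have hMF : Module.Finite ℤ G := Module.Finite.iff_addGroup_fg.2 hG
  obtain ⟨n, ι, _, p, hp, e, ⟨f⟩⟩ := AddCommGroup.equiv_free_prod_directSum_zmod G
  have hNe : ∀ i, NeZero (p i ^ e i) := fun i => ⟨pow_ne_zero _ (hp i).ne_zero⟩
  set T := DirectSum ι fun i => ZMod (p i ^ e i) with hT
  have hTf : Finite T := Finite.of_equiv _ (DirectSum.addEquivProd fun i => ZMod (p i ^ e i)).symm.toEquiv
  -- the rank
  have hn : n ≤ Module.finrank ℤ G := by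
    have h1 : Function.Injective
        ((f.symm.toAddMonoidHom.comp (AddMonoidHom.inl (Fin n →₀ ℤ) T)).toIntLinearMap) := by
      intro a b hab
      have h2 : f.symm (a, 0) = f.symm (b, 0) := hab
      exact (Prod.mk.inj (f.symm.injective h2)).1
    have h3 := LinearMap.finrank_le_finrank_of_injective h1
    rwa [Module.finrank_finsupp_self, Fintype.card_fin] at h3
  -- the classes
  set T2 := T ⧸ (zsmulAddGroupHom (α := T) 2).range with hT2
  have hT2f : Finite T2 := inferInstance
  have hcard : Nat.card T2 ≤ 4 := by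
    rw [hT2, fin_index]
    have hfk : Finite (zsmulAddGroupHom (α := T) 2).ker := inferInstance
    have := Fintype.ofFinite (zsmulAddGroupHom (α := T) 2).ker
    rw [Nat.card_eq_fintype_card, ← Finset.card_univ]
    have h5 := h4 ((Finset.univ : Finset (zsmulAddGroupHom (α := T) 2).ker).image
      fun t => f.symm (0, t.1)) (by
        intro P hP
        obtain ⟨t, _, rfl⟩ := Finset.mem_image.1 hP
        have h6 : (2 : ℤ) • t.1 = 0 := t.2
        rw [← map_add, Prod.mk_add_mk, add_zero, ← two_zsmul, h6]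
        exact map_zero f.symm)
    rwa [Finset.card_image_of_injective] at h5
    intro a b hab
    exact Subtype.ext (Prod.mk.inj (f.symm.injective hab)).2
  set Φ : G → (Fin n → ZMod 2) × T2 := fun P =>
    (fun i => (((f P).1 i : ℤ) : ZMod 2), QuotientAddGroup.mk (f P).2) with hΦ
  have hinj : Set.InjOn Φ (S : Set G) := by
    intro P hP Q hQ hPQ
    apply hS P hP Q hQ
    have h6 : ∀ i, (2 : ℤ) ∣ (f P).1 i - (f Q).1 i := by
      intro i
      have h7 := congrFun (congrArg Prod.fst hPQ) i
      simp only [hΦ] at h7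
      have h8 := (ZMod.intCast_eq_intCast_iff_dvd_sub _ _ 2).1 h7.symm
      exact_mod_cast h8
    have h7 : (QuotientAddGroup.mk (f P).2 : T2) = QuotientAddGroup.mk (f Q).2 :=
      congrArg Prod.snd hPQ
    rw [QuotientAddGroup.eq] at h7
    obtain ⟨t, ht⟩ := h7
    have ht' : (2 : ℤ) • t = -(f P).2 + (f Q).2 := ht
    choose c hc using h6
    refine ⟨f.symm (Finsupp.equivFunOnFinite.symm c, -t), ?_⟩
    apply f.injective
    rw [map_sub, map_add, AddEquiv.apply_symm_apply, Prod.mk_add_mk]
    refine Prod.ext ?_ ?_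
    · rw [Prod.fst_sub]
      ext i
      rw [Finsupp.sub_apply, hc i, Finsupp.add_apply]
      simp
      ring
    · rw [Prod.snd_sub]
      have : -t + -t = -((2 : ℤ) • t) := by rw [two_zsmul]; abel
      change (f P).2 - (f Q).2 = -t + -t
      rw [this, ht']
      abel
  have := Fintype.ofFinite T2
  calc S.card = (S.image Φ).card := (Finset.card_image_of_injOn hinj).symm
    _ ≤ Fintype.card ((Fin n → ZMod 2) × T2) := Finset.card_le_univ _
    _ = 2 ^ n * Nat.card T2 := by
      rw [Fintype.card_prod, Fintype.card_fun, ZMod.card, Fintype.card_fin,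
        Nat.card_eq_fintype_card]
    _ ≤ 2 ^ n * 4 := Nat.mul_le_mul_left _ hcard
    _ ≤ 4 * 2 ^ Module.finrank ℤ G := by
      rw [mul_comm]
      exact Nat.mul_le_mul_left _ (Nat.pow_le_pow_right (by norm_num) hn)


/-- points of order two -/
theorem two_tors {K : Type} [Field K] [CharZero K] [DecidableEq K] (a b : K)
    (S : Finset (Pool.Agent.H925R3.DC.crv K a b).Point) (hS : ∀ P ∈ S, P + P = 0) :
    S.card ≤ 4 := by
  let p : Polynomial K := Polynomial.X ^ 3 + (Polynomial.C a * Polynomial.X + Polynomial.C b)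
  have hp : p.Monic := Polynomial.monic_X_pow_add (by
    refine lt_of_le_of_lt Polynomial.degree_linear_le (by norm_num))
  have hdeg : p.natDegree = 3 := by
    change (Polynomial.X ^ 3 + (Polynomial.C a * Polynomial.X + Polynomial.C b)).natDegree = 3
    compute_degree!
  let F : (Pool.Agent.H925R3.DC.crv K a b).Point → Option K := fun P => match P with
    | .zero => none
    | .some x _ _ => some x
  have hy : ∀ (x y : K) (h : (Pool.Agent.H925R3.DC.crv K a b).Nonsingular x y),
      (WeierstrassCurve.Affine.Point.some x y h : (Pool.Agent.H925R3.DC.crv K a b).Point) ∈ S →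
        y = 0 := by
    intro x y h hP
    have h1 := hS _ hP
    have h2 : (WeierstrassCurve.Affine.Point.some x y h : (Pool.Agent.H925R3.DC.crv K a b).Point) =
        -WeierstrassCurve.Affine.Point.some x y h := eq_neg_of_add_eq_zero_left h1
    rw [WeierstrassCurve.Affine.Point.neg_some] at h2
    have h3 := (WeierstrassCurve.Affine.Point.some.inj h2).2
    have h4 : y = -y := by
      simpa [WeierstrassCurve.Affine.negY, Pool.Agent.H925R3.DC.crv] using h3
    exact self_eq_neg.1 h4
  have hinj : Set.InjOn F (S : Set (Pool.Agent.H925R3.DC.crv K a b).Point) := by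
    intro P hP Q hQ hPQ
    rcases P with _ | ⟨x, y, h⟩ <;> rcases Q with _ | ⟨x', y', h'⟩
    · rfl
    · simp [F] at hPQ
    · simp [F] at hPQ
    · have e1 := hy x y h hP
      have e2 := hy x' y' h' hQ
      subst e1 e2
      have e3 : x = x' := Option.some.inj hPQ
      subst e3
      rfl
  have hsub : S.image F ⊆ insert none (p.roots.toFinset.image some) := by
    intro t ht
    obtain ⟨P, hP, rfl⟩ := Finset.mem_image.1 ht
    rcases P with _ | ⟨x, y, h⟩
    · exact Finset.mem_insert_self _ _
    · refine Finset.mem_insert_of_mem (Finset.mem_image.2 ⟨x, ?_, rfl⟩)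
      rw [Multiset.mem_toFinset, Polynomial.mem_roots hp.ne_zero]
      have e1 := hy x y h hP
      subst e1
      have e2 := ((WeierstrassCurve.Affine.equation_iff _ _).1 h.1)
      simp only [Pool.Agent.H925R3.DC.crv] at e2
      simp only [p, Polynomial.IsRoot, Polynomial.eval_add, Polynomial.eval_pow,
        Polynomial.eval_X, Polynomial.eval_mul, Polynomial.eval_C]
      linear_combination -e2
  calc S.card = (S.image F).card := (Finset.card_image_of_injOn hinj).symm
    _ ≤ (insert none (p.roots.toFinset.image some)).card := Finset.card_le_card hsub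
    _ ≤ (p.roots.toFinset.image some).card + 1 := Finset.card_insert_le _ _
    _ ≤ p.roots.toFinset.card + 1 := Nat.add_le_add_right Finset.card_image_le 1
    _ ≤ p.roots.card + 1 := Nat.add_le_add_right (Multiset.toFinset_card_le _) 1
    _ ≤ p.natDegree + 1 := Nat.add_le_add_right (Polynomial.card_roots' p) 1
    _ = 4 := by rw [hdeg]

/-- both facts for a curve which is equal to `crv` -/
theorem of_eq {K : Type} [Field K] [NumberField K] [DecidableEq K] (a b : ℤ)
    (h : 4 * a ^ 3 + 27 * b ^ 2 ≠ 0) {W : WeierstrassCurve.Affine K}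
    (hW : Pool.Agent.H925R3.DC.crv K (a : K) (b : K) = W) (S : Finset W.Point)
    (hS : ∀ P ∈ S, ∀ Q ∈ S, (∃ R, P - Q = R + R) → P = Q) :
    S.card ≤ 4 * 2 ^ Module.finrank ℤ W.Point := by
  subst hW
  exact abs_bound (Pool.Agent.H64R2.DDMWK.mwk K a b h) (two_tors (a : K) (b : K)) S hS

/-- the sum does not depend on the decidable equality -/
theorem add_inst {K : Type} [Field K] (W : WeierstrassCurve.Affine K) (d1 d2 : DecidableEq K)
    (R : W.Point) :
    @HAdd.hAdd W.Point W.Point W.Point
      (@instHAdd W.Point (@WeierstrassCurve.Affine.Point.instAdd K _ W d1)) R R =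
    @HAdd.hAdd W.Point W.Point W.Point
      (@instHAdd W.Point (@WeierstrassCurve.Affine.Point.instAdd K _ W d2)) R R := by
  have h : d1 = d2 := Subsingleton.elim _ _
  subst h
  rfl

theorem mw_bound (A B : ℤ) (h : 4 * A ^ 3 + 27 * B ^ 2 ≠ 0) (L : IntermediateField ℚ QB)
    [FiniteDimensional ℚ L]
    (S : Finset (Pt (⟨0, 0, 0, (A : ℚ), (B : ℚ)⟩ : WeierstrassCurve ℚ) L))
    (hS : ∀ P ∈ S, ∀ Q ∈ S, (∃ R, P - Q = R + R) → P = Q) :
    S.card ≤ 4 * 2 ^ rkN (⟨0, 0, 0, (A : ℚ), (B : ℚ)⟩ : WeierstrassCurve ℚ) L := by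
  have hNF : NumberField L := NumberField.of_module_finite ℚ L
  have hW : Pool.Agent.H925R3.DC.crv L (A : L) (B : L) =
      ((⟨0, 0, 0, (A : ℚ), (B : ℚ)⟩ : WeierstrassCurve ℚ).baseChange L).toAffine := by
    apply WeierstrassCurve.ext
    · change (0 : L) = algebraMap ℚ L 0
      rw [map_zero]
    · change (0 : L) = algebraMap ℚ L 0
      rw [map_zero]
    · change (0 : L) = algebraMap ℚ L 0
      rw [map_zero]
    · change (A : L) = algebraMap ℚ L (A : ℚ)
      simp
    · change (B : L) = algebraMap ℚ L (B : ℚ)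
      simp
  refine @of_eq L _ hNF (fun a b => Classical.propDecidable (a = b)) A B h _ hW S ?_
  rintro P hP Q hQ ⟨R, hR⟩
  refine hS P hP Q hQ ⟨R, ?_⟩
  exact hR.trans (add_inst _ _ _ R)

end Pool.Agent.H514.KS
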