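import Pool.Graph.R_pool_sql_team_seeded_f72693b1.W262.SH.DefB

/-! KS-S7: square roots of integers in a multiquadratic field.

Paper proof. Kummer theory, by induction on `n`: `KD D = ℚ(√D_1, ..., √D_n)`. Let `F` be the field
generated by the roots of the first `n - 1`, `K = F(√D_n)`. If `s ∈ K`, `s² = m`: `s = a + b r`,
`r² = D_n`, `a, b ∈ F` (if `r ∈ F` then `K = F` and the induction hypothesis applies). Squaring,
`2 a b = 0` (as `r ∉ F`), so `s = a ∈ F` or `s = b r`, `s r = b D_n ∈ F` is a root of `m D_n`. Apply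
the induction hypothesis to `m` or to `m D_n`. For `n = 0`, `KD D = ⊥` and `s ∈ ℚ`, `s² = m`, so `m`
is the square of an integer. -/

set_option autoImplicit false

open scoped Classical

namespace Pool.Agent.H514.KS

open Finset Pool.Agent.W262.SH IntermediateField

/-- elements of `F(r)` with `r² = d ∈ ℤ` have the form `a + b r` -/
theorem mem_adjoin_insert (A : Set QB) (r : QB) (d : ℤ) (hr : r ^ 2 = (d : QB)) {s : QB}
    (hs : s ∈ adjoin ℚ (insert r A)) : ∃ a ∈ adjoin ℚ A, ∃ b ∈ adjoin ℚ A, s = a + b * r := by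
  have h1 : s ∈ adjoin (adjoin ℚ A) {r} := by
    have h2 := adjoin_adjoin_left (F := ℚ) (E := QB) A ({r} : Set QB)
    rw [Set.union_singleton] at h2
    rw [← h2] at hs
    exact hs
  have hint : IsIntegral (adjoin ℚ A) r := by
    refine ⟨Polynomial.X ^ 2 - Polynomial.C (d : adjoin ℚ A), ?_, ?_⟩
    · exact Polynomial.monic_X_pow_sub_C _ two_ne_zero
    · rw [Polynomial.eval₂_sub, Polynomial.eval₂_X_pow, Polynomial.eval₂_C, map_intCast, hr, sub_self]
  have h3 : s ∈ Algebra.adjoin (adjoin ℚ A) {r} := by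
    rw [← adjoin_simple_toSubalgebra_of_isAlgebraic hint.isAlgebraic]
    exact h1
  refine Algebra.adjoin_induction (p := fun x _ => ∃ a ∈ adjoin ℚ A, ∃ b ∈ adjoin ℚ A, x = a + b * r)
    ?_ ?_ ?_ ?_ h3
  · intro x hx
    rw [Set.mem_singleton_iff] at hx
    exact ⟨0, zero_mem _, 1, one_mem _, by rw [hx]; ring⟩
  · intro c
    exact ⟨c, c.2, 0, zero_mem _, by simp⟩
  · rintro x y _ _ ⟨a, ha, b, hb, rfl⟩ ⟨a', ha', b', hb', rfl⟩
    exact ⟨a + a', add_mem ha ha', b + b', add_mem hb hb', by ring⟩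
  · rintro x y _ _ ⟨a, ha, b, hb, rfl⟩ ⟨a', ha', b', hb', rfl⟩
    refine ⟨a * a' + b * b' * (d : QB), add_mem (mul_mem ha ha') (mul_mem (mul_mem hb hb') ?_),
      a * b' + b * a', add_mem (mul_mem ha hb') (mul_mem hb ha'), ?_⟩
    · exact intCast_mem _ d
    · rw [← hr]; ring

theorem kd_aux {n : ℕ} (D : Fin n → ℤ) (r : Fin n → QB) (hr : ∀ i, r i ^ 2 = (D i : QB))
    (T : Finset (Fin n)) : ∀ (m : ℤ) (s : QB), s ∈ adjoin ℚ (r '' (T : Set (Fin n))) →
    s ^ 2 = (m : QB) → ∃ S : Finset (Fin n), S ⊆ T ∧ IsSquare (m * ∏ i ∈ S, D i) := by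
  induction T using Finset.induction_on with
  | empty =>
    intro m s hs hs2
    refine ⟨∅, subset_rfl, ?_⟩
    rw [Finset.coe_empty, Set.image_empty, adjoin_empty, IntermediateField.mem_bot] at hs
    obtain ⟨q, rfl⟩ := hs
    have h1 : q ^ 2 = (m : ℚ) := by
      have h2 : algebraMap ℚ QB (q ^ 2) = algebraMap ℚ QB (m : ℚ) := by
        rw [map_pow, hs2, map_intCast]
      exact (algebraMap ℚ QB).injective h2
    have h3 : IsSquare (m : ℚ) := ⟨q, by rw [← h1]; ring⟩
    rw [Finset.prod_empty, mul_one]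
    exact Rat.isSquare_intCast_iff.1 h3
  | insert i T hi ih =>
    intro m s hs hs2
    rw [Finset.coe_insert, Set.image_insert_eq] at hs
    obtain ⟨a, ha, b, hb, rfl⟩ := mem_adjoin_insert _ (r i) (D i) (hr i) hs
    by_cases hri : r i ∈ adjoin ℚ (r '' (T : Set (Fin n)))
    · obtain ⟨S, hS, h⟩ := ih m _ (add_mem ha (mul_mem hb hri)) hs2
      exact ⟨S, hS.trans (Finset.subset_insert _ _), h⟩
    · by_cases hab : a * b = 0
      · rcases mul_eq_zero.1 hab with h0 | h0
        · subst h0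
          have h4 : ((0 + b * r i) * r i) ∈ adjoin ℚ (r '' (T : Set (Fin n))) := by
            have : (0 + b * r i) * r i = b * (D i : QB) := by rw [← hr i]; ring
            rw [this]
            exact mul_mem hb (intCast_mem _ (D i))
          obtain ⟨S, hS, h⟩ := ih (m * D i) _ h4 (by rw [mul_pow, hs2, hr i]; push_cast; ring)
          refine ⟨insert i S, Finset.insert_subset_insert _ hS, ?_⟩
          rw [Finset.prod_insert (fun h => hi (hS h)), ← mul_assoc]
          exact h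
        · subst h0
          obtain ⟨S, hS, h⟩ := ih m (a + 0 * r i) (by simpa using ha) hs2
          exact ⟨S, hS.trans (Finset.subset_insert _ _), h⟩
      · exfalso
        apply hri
        have h2 : (2 : QB) * (a * b) ≠ 0 := mul_ne_zero two_ne_zero hab
        have h5 : r i = ((m : QB) - a ^ 2 - b ^ 2 * (D i : QB)) / (2 * (a * b)) := by
          rw [eq_div_iff h2, ← hs2, ← hr i]
          ring
        rw [h5]
        refine div_mem (sub_mem (sub_mem (intCast_mem _ m) (pow_mem ha 2))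
          (mul_mem (pow_mem hb 2) (intCast_mem _ (D i)))) (mul_mem ?_ (mul_mem ha hb))
        exact_mod_cast intCast_mem (adjoin ℚ (r '' (T : Set (Fin n)))) 2

theorem kd_sqrt {n : ℕ} (D : Fin n → ℤ) (hD : ∀ i, D i ≠ 0) {m : ℤ} {s : QB} (hs : s ∈ KD D)
    (hs2 : s ^ 2 = (m : QB)) : ∃ S : Finset (Fin n), IsSquare (m * ∏ i ∈ S, D i) := by
  have hex : ∀ i, ∃ r : QB, r ^ 2 = (D i : QB) := fun i =>
    IsAlgClosed.exists_pow_nat_eq _ two_pos
  choose r hr using hex
  have hKD : KD D ≤ adjoin ℚ (r '' ((Finset.univ : Finset (Fin n)) : Set (Fin n))) := by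
    unfold KD
    rw [adjoin_le_iff]
    rintro x ⟨i, hx⟩
    have hx2 : x ^ 2 = r i ^ 2 := by rw [hx, hr i]
    have hri : r i ∈ adjoin ℚ (r '' ((Finset.univ : Finset (Fin n)) : Set (Fin n))) :=
      subset_adjoin _ _ ⟨i, by simp, rfl⟩
    rcases sq_eq_sq_iff_eq_or_eq_neg.1 hx2 with h | h
    · rw [h]; exact hri
    · rw [h]; exact neg_mem hri
  obtain ⟨S, -, h⟩ := kd_aux D r hr Finset.univ m s (hKD hs) hs2
  exact ⟨S, h⟩

end Pool.Agent.H514.KS
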