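import Pool.Agent.H514.KS.Ver
import Pool.Agent.H514.KS.S2
import Pool.Agent.H514.KS.S7

/-! The kernel of the map to the Tate-Shafarevich group over `L`. -/

set_option autoImplicit false

open scoped Classical

namespace Pool.Agent.H514.KS

open Finset WeierstrassCurve Pool.Agent.W262.SH Pool.Agent.W338.SH
open Pool.Agent.H514.IS (large_sub)

section fix

variable {L : IntermediateField ℚ QB}

/-- the elements fixed by `Gal(ℚ̄/L)` -/
lemma mem_of_fixed {x : QB} (h : ∀ σ : Gal L, inG L σ x = x) : x ∈ L := by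
  have hgal : IsGalois ℚ QB := Pool.Agent.W338.SH.galQB
  rw [← InfiniteGalois.fixedField_fixingSubgroup L, IntermediateField.mem_fixedField_iff]
  intro σ hσ
  exact h ⟨σ, hσ⟩

variable {F : Type} [Field F] [Algebra ℚ F] {φ : F →ₐ[ℚ] QB}

lemma incL_act (W : WeierstrassCurve ℚ) (hφ : ∀ x, φ x ∈ L) (T : Pt W F) (σ : Gal L) :
    nact W L σ (act W φ T) = act W φ T := by
  rcases T with _ | ⟨x, y, hxy⟩
  · have h0 : act W φ (Affine.Point.zero : Pt W F) = 0 := map_zero (act W φ)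
    exact (congrArg (nact W L σ) h0).trans ((map_zero (nact W L σ)).trans h0.symm)
  · obtain ⟨h1, e1⟩ := act_some W φ hxy
    obtain ⟨h2, e2⟩ := act_some W (inG L σ).toAlgHom h1
    refine (congrArg (nact W L σ) e1).trans (e2.trans ((some_congr ?_ ?_ _ _).trans e1.symm))
    · exact (IntermediateField.mem_fixingSubgroup_iff L _).1 σ.2 _ (hφ x)
    · exact (IntermediateField.mem_fixingSubgroup_iff L _).1 σ.2 _ (hφ y)

/-- the points fixed by `Gal(ℚ̄/L)` -/
lemma pt_of_fixed (W : WeierstrassCurve ℚ) (hφ : ∀ x ∈ L, ∃ y, φ y = x) {Q : Pt W QB}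
    (h : ∀ σ : Gal L, nact W L σ Q = Q) : ∃ R : Pt W F, act W φ R = Q := by
  rcases Q with _ | ⟨x, y, hxy⟩
  · exact ⟨0, map_zero _⟩
  · have h1 : ∀ σ : Gal L, inG L σ x = x ∧ inG L σ y = y := by
      intro σ
      obtain ⟨h2, e2⟩ := act_some W (inG L σ).toAlgHom hxy
      have h3 : nact W L σ (Affine.Point.some x y hxy) =
        Affine.Point.some ((inG L σ).toAlgHom x) ((inG L σ).toAlgHom y) h2 := e2
      rw [h σ] at h3
      have h4 := Affine.Point.some.inj h3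
      exact ⟨h4.1.symm, h4.2.symm⟩
    obtain ⟨x', hx⟩ := hφ x (mem_of_fixed fun σ => (h1 σ).1)
    obtain ⟨y', hy⟩ := hφ y (mem_of_fixed fun σ => (h1 σ).2)
    subst hx hy
    have hns : (W.baseChange F).toAffine.Nonsingular x' y' :=
      (WeierstrassCurve.Affine.baseChange_nonsingular (W := W.toAffine)
        (f := φ) φ.injective x' y').1 hxy
    obtain ⟨h6, e6⟩ := act_some W φ hns
    exact ⟨Affine.Point.some _ _ hns, e6.trans (some_congr rfl rfl _ _)⟩

end fix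

variable {n : ℕ} {D : Fin n → ℤ} {w : ℕ} {e : Fin 3 → ℤ}

lemma FL_add {W : WeierstrassCurve ℚ} (hR : RR W e) {L : IntermediateField ℚ QB}
    (v v' : Pp w e → ZMod 2) : FL W e (je e) (Pp w e) L (v + v') =
      FL W e (je e) (Pp w e) L v + FL W e (je e) (Pp w e) L v' := by
  funext σ
  exact Fv_add hR v v' (inG L σ)

/-- independence -/
lemma FL_zero {W : WeierstrassCurve ℚ} (hR : RR W e)
    (hD : ∀ i, D i ≠ 0) (hDw : ∀ p : ℕ, p.Prime → w < p → ¬ (p : ℤ) ∣ ∏ i, D i)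
    {v : Pp w e → ZMod 2} (h : FL W e (je e) (Pp w e) (KD D) v = 0) : v = 0 := by
  funext q
  by_contra hv
  have hqp := Pp_prime q q.2
  have hqw : w < (q : ℕ) := (mem_filter.1 q.2).2
  have hqi := Nat.prime_iff_prime_int.1 hqp
  obtain ⟨m, hm1, hm2⟩ := dv_ram v q.2 hv (k := oA (je e q)) (oA_ne _).symm
  have hfix : ∀ σ : Gal (KD D), inG (KD D) σ (uk (je e) (Pp w e) (oA (je e q)) v) =
      uk (je e) (Pp w e) (oA (je e q)) v := by
    intro σ
    have h1 := sg_Fv (jj := je e) (P := Pp w e) hR (oA (je e q)) v (inG (KD D) σ)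
    have h2 : Fv W e (je e) (Pp w e) v (inG (KD D) σ) = 0 := congrFun h σ
    rw [h2, Pool.Agent.TH344.SH.sg_zero, one_mul] at h1
    exact h1
  obtain ⟨S, z, hz⟩ := kd_sqrt D hD (mem_of_fixed hfix) (uk_sq (oA (je e q)) v)
  have hz' : (q : ℤ) * (m * ∏ i ∈ S, D i) = z * z := by
    rw [← hz, ← mul_assoc]
    congr 1
    exact hm1.symm
  have hz1 : (q : ℤ) ∣ z := by
    have : (q : ℤ) ∣ z * z := ⟨_, hz'.symm⟩
    rcases hqi.dvd_or_dvd this with h1 | h1 <;> exact h1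
  obtain ⟨y, rfl⟩ := hz1
  have hq0 : ((q : ℕ) : ℤ) ≠ 0 := by exact_mod_cast hqp.ne_zero
  have h3 : m * ∏ i ∈ S, D i = q * (y * y) := by
    apply mul_left_cancel₀ hq0
    rw [hz']
    ring
  have h4 : (q : ℤ) ∣ m * ∏ i ∈ S, D i := ⟨_, h3⟩
  rcases hqi.dvd_or_dvd h4 with h5 | h5
  · exact hm2 h5
  · exact hDw q hqp hqw (h5.trans (Finset.prod_dvd_prod_of_subset _ _ _ (Finset.subset_univ S)))

/-- the map to the Tate-Shafarevich group -/
noncomputable def del {W : WeierstrassCurve ℚ} {L : IntermediateField ℚ QB} (hR : RR W e)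
    (hsn : ∀ v ∈ VV D w e, IsSN W (FL W e (je e) (Pp w e) L v)) : VV D w e →+ ShaN W L :=
  (QuotientAddGroup.mk' ((B1 (nact W L)).addSubgroupOf (ZN W L))).comp
    { toFun := fun v => (⟨FL W e (je e) (Pp w e) L v.1, hsn v.1 v.2⟩ : ZN W L)
      map_zero' := by
        apply Subtype.ext
        have h := FL_add hR (L := L) (0 : Pp w e → ZMod 2) 0
        rw [add_zero] at h
        show FL W e (je e) (Pp w e) L 0 = 0
        exact left_eq_add.1 h
      map_add' := fun v v' => Subtype.ext (FL_add hR v.1 v'.1) }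

lemma del_ker {W : WeierstrassCurve ℚ} {L : IntermediateField ℚ QB} (hR : RR W e)
    (hsn : ∀ v ∈ VV D w e, IsSN W (FL W e (je e) (Pp w e) L v)) {v : VV D w e}
    (hv : v ∈ (del hR hsn).ker) :
    ∃ Q : Pt W QB, ∀ σ : Gal L, FL W e (je e) (Pp w e) L v.1 σ = nact W L σ Q - Q := by
  have h1 : (QuotientAddGroup.mk' ((B1 (nact W L)).addSubgroupOf (ZN W L)))
      (⟨FL W e (je e) (Pp w e) L v.1, hsn v.1 v.2⟩ : ZN W L) = 0 := hv
  have h2 := (QuotientAddGroup.eq_zero_iff _).1 h1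
  exact h2

theorem ker_bound {W : WeierstrassCurve ℚ} (hR : RR W e)
    (hD : ∀ i, D i ≠ 0) (hDw : ∀ p : ℕ, p.Prime → w < p → ¬ (p : ℤ) ∣ ∏ i, D i)
    (hsn : ∀ v ∈ VV D w e, IsSN W (FL W e (je e) (Pp w e) (KD D) v)) {N : ℕ}
    {F : Type} [Field F] [Algebra ℚ F] {φ : F →ₐ[ℚ] QB} (hφ1 : ∀ x, φ x ∈ KD D)
    (hφ2 : ∀ x ∈ KD D, ∃ y, φ y = x)
    (hN : ∀ S : Finset (Pt W F), (∀ P ∈ S, ∀ Q ∈ S, (∃ R, P - Q = R + R) → P = Q) →
      S.card ≤ N) : Nat.card (del hR hsn).ker ≤ N := by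
  set L := KD D with hL
  have hQ : ∀ v : (del hR hsn).ker, ∃ (Q : Pt W QB) (R : Pt W F), act W φ R = Q + Q ∧
      ∀ σ : Gal L, FL W e (je e) (Pp w e) L v.1.1 σ = nact W L σ Q - Q := by
    intro v
    obtain ⟨Q, hQ⟩ := del_ker hR hsn v.2
    obtain ⟨R, hR'⟩ := pt_of_fixed W hφ2 (Q := Q + Q) (by
      intro σ
      have h1 := hQ σ
      have h2 : FL W e (je e) (Pp w e) L v.1.1 σ + FL W e (je e) (Pp w e) L v.1.1 σ = 0 :=
        Fv_two hR _ _
      rw [h1] at h2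
      rw [map_add]
      have h3 : nact W L σ Q - Q + (nact W L σ Q - Q) =
        (nact W L σ Q + nact W L σ Q) - (Q + Q) := by abel
      rw [h3] at h2
      exact sub_eq_zero.1 h2)
    exact ⟨Q, R, hR', hQ⟩
  choose Q R hQR hQc using hQ
  have key : ∀ v v' : (del hR hsn).ker, (∃ T, R v - R v' = T + T) → v = v' := by
    rintro v v' ⟨T, hT⟩
    obtain ⟨U, hU⟩ : ∃ U, U = Q v - Q v' - act W φ T := ⟨_, rfl⟩
    have hU2 : U + U = 0 := by
      have h1 : act W φ (R v - R v') = act W φ (T + T) := by rw [hT]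
      rw [map_sub, map_add, hQR, hQR] at h1
      rw [hU]
      have : Q v - Q v' - act W φ T + (Q v - Q v' - act W φ T) =
        (Q v + Q v - (Q v' + Q v')) - (act W φ T + act W φ T) := by abel
      rw [this, h1, sub_self]
    have hact : ∀ σ : Gal L, nact W L σ (act W φ T) = act W φ T := incL_act W hφ1 T
    have hUact : ∀ σ : Gal L, nact W L σ U = U := by
      intro σ
      refine Pool.Agent.TH344.SH.tor_ext (hR QB) ?_ hU2 ?_ ?_
      · rw [← map_add, hU2, map_zero]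
      · refine (sg_act' W (inG L σ).toAlgHom (e 0) U).trans ?_
        rcases Pool.Agent.TH344.SH.sg_sq ((e 0 : ℤ) : QB) U with h | h <;> rw [h]
        · exact map_one _
        · rw [map_neg, map_one]
      · refine (sg_act' W (inG L σ).toAlgHom (e 1) U).trans ?_
        rcases Pool.Agent.TH344.SH.sg_sq ((e 1 : ℤ) : QB) U with h | h <;> rw [h]
        · exact map_one _
        · rw [map_neg, map_one]
    have hdiff : FL W e (je e) (Pp w e) L v.1.1 = FL W e (je e) (Pp w e) L v'.1.1 := by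
      funext σ
      rw [hQc, hQc]
      have h1 : Q v = Q v' + act W φ T + U := by rw [hU]; abel
      rw [h1, map_add, map_add, hact, hUact]
      abel
    have hsum : FL W e (je e) (Pp w e) L (v.1.1 + v'.1.1) = 0 := by
      rw [FL_add hR, hdiff]
      funext σ
      exact Fv_two hR _ _
    have hz := FL_zero hR hD hDw hsum
    apply Subtype.ext
    apply Subtype.ext
    funext q
    have h2 := congrFun hz q
    rw [Pi.add_apply, Pi.zero_apply] at h2
    revert h2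
    generalize v.1.1 q = a
    generalize v'.1.1 q = b
    revert a b
    decide
  have hinj : Function.Injective R := fun v v' h => key v v' ⟨0, by rw [h, sub_self, add_zero]⟩
  have hfin : Finite (del hR hsn).ker := inferInstance
  have : Fintype (del hR hsn).ker := Fintype.ofFinite _
  rw [Nat.card_eq_fintype_card, ← Finset.card_univ, ← Finset.card_image_of_injective _ hinj]
  apply hN
  intro A hA B hB hAB
  rw [Finset.mem_image] at hA hB
  obtain ⟨v, -, rfl⟩ := hA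
  obtain ⟨v', -, rfl⟩ := hB
  rw [key v v' hAB]

/-- the field is a number field -/
lemma kd_fin {n : ℕ} (D : Fin n → ℤ) : FiniteDimensional ℚ (KD D) := by
  have hfin : Set.Finite {r : QB | ∃ i, r ^ 2 = (D i : QB)} := by
    have h1 : {r : QB | ∃ i, r ^ 2 = (D i : QB)} = ⋃ i, {r : QB | r ^ 2 = (D i : QB)} := by
      ext r
      simp
    rw [h1]
    refine Set.finite_iUnion fun i => ?_
    obtain ⟨s, hs⟩ := IsAlgClosed.exists_pow_nat_eq ((D i : QB)) (n := 2) (by norm_num)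
    refine Set.Finite.subset (Set.toFinite {s, -s}) fun r hr => ?_
    have h2 : r ^ 2 = s ^ 2 := by rw [hs]; exact hr
    rcases sq_eq_sq_iff_eq_or_eq_neg.1 h2 with h | h
    · exact Or.inl h
    · exact Or.inr h
  have : Finite {r : QB | ∃ i, r ^ 2 = (D i : QB)} := hfin
  unfold KD
  refine IntermediateField.finiteDimensional_adjoin fun z _ => ?_
  have := Pool.Agent.W338.SH.algQB
  exact (Algebra.IsAlgebraic.isAlgebraic (R := ℚ) z).isIntegral

lemma kd_sq {n : ℕ} (D : Fin n → ℤ) (i : Fin n) : ∃ s ∈ KD D, s ^ 2 = (D i : QB) := by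
  obtain ⟨s, hs⟩ := IsAlgClosed.exists_pow_nat_eq ((D i : QB)) (n := 2) (by norm_num)
  exact ⟨s, IntermediateField.subset_adjoin ℚ _ ⟨i, hs⟩, hs⟩

/-- the lower bound of the 2-torsion of the Tate-Shafarevich group -/
theorem low {A B : ℤ} (hAB : 4 * A ^ 3 + 27 * B ^ 2 ≠ 0)
    (hR : RR (⟨0, 0, 0, (A : ℚ), (B : ℚ)⟩ : WeierstrassCurve ℚ) e) (hw : 29 ≤ w) (hX : NX w e)
    (hD : ∀ i, D i ≠ 0) (hDw : ∀ p : ℕ, p.Prime → w < p → ¬ (p : ℤ) ∣ ∏ i, D i) :
    ∃ r : ℕ, ((Pp w e).filter (fun q => ∃ i, jacobiSym (D i) q = -1)).card ≤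
      r + (2 * w + 2 + rkN (⟨0, 0, 0, (A : ℚ), (B : ℚ)⟩ : WeierstrassCurve ℚ) (KD D)) ∧
      Has (ShaN (⟨0, 0, 0, (A : ℚ), (B : ℚ)⟩ : WeierstrassCurve ℚ) (KD D)) 2 r := by
  have hdw : ∀ p : ℕ, p.Prime → w < p → ∀ i, ¬ (p : ℤ) ∣ D i := fun p hp hpw i h =>
    hDw p hp hpw (h.trans (Finset.dvd_prod_of_mem _ (Finset.mem_univ i)))
  have hsn : ∀ v ∈ VV D w e, IsSN (⟨0, 0, 0, (A : ℚ), (B : ℚ)⟩ : WeierstrassCurve ℚ)
      (FL (⟨0, 0, 0, (A : ℚ), (B : ℚ)⟩ : WeierstrassCurve ℚ) e (je e) (Pp w e) (KD D) v) :=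
    fun v hv => ver_sn hR hw hX (kd_sq D) hdw hv
  have hfd := kd_fin D
  have hker := ker_bound hR hD hDw hsn (F := KD D) (φ := (KD D).val.toRingHom.toRatAlgHom)
    (fun x => x.2) (fun x hx => ⟨⟨x, hx⟩, rfl⟩) (fun S hS => mw_bound A B hAB (KD D) S
      (fun P hP Q hQ h => hS P hP Q hQ (h.imp fun R hR => hR.trans (add_inst _ _ _ R))))
  obtain ⟨r, h1, h2⟩ := large_sub (VV D w e) (del hR hsn) _ hker
  refine ⟨r, ?_, h2⟩
  have h3 := VV_card (D := D) (w := w) (e := e)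
    (fun p hp => hdw p (Pp_prime p hp) (mem_filter.1 hp).2)
  have h4 : 2 ^ Module.finrank (ZMod 2) (VV D w e) ≤
      2 ^ (2 + rkN (⟨0, 0, 0, (A : ℚ), (B : ℚ)⟩ : WeierstrassCurve ℚ) (KD D) + r) := by
    rw [pow_add, pow_add]
    exact h1
  have h5 := (Nat.pow_le_pow_iff_right (by norm_num)).1 h4
  omega

end Pool.Agent.H514.KS
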