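import Pool.Agent.H514.KS.Cls
import Pool.Agent.H514.IS.Lin2

/-! The linear conditions and the local triviality. -/

set_option autoImplicit false

open scoped Classical

namespace Pool.Agent.H514.KS

open Finset WeierstrassCurve Pool.Agent.W262.SH Pool.Agent.W338.SH
open Pool.Agent.H514.IS (lam prod_sign sq_of_leg leg_cast sq_two sg_mul sg_one sg_pow sg_prod sg_pm)

/-! ### Linear algebra -/

/-- the linear map of a system of signs -/
def Ls {P J : Type} [Fintype P] (ε : J → P → ℤ) : (P → ZMod 2) →ₗ[ZMod 2] (J → ZMod 2) where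
  toFun v j := ∑ p, v p * lam (ε j p)
  map_add' v w := by
    funext j
    simp only [Pi.add_apply, add_mul, Finset.sum_add_distrib]
  map_smul' c v := by
    funext j
    simp only [Pi.smul_apply, smul_eq_mul, RingHom.id_apply, Finset.mul_sum, mul_assoc]

lemma Ls_card {P J : Type} [Fintype P] [Fintype J] (ε : J → P → ℤ) :
    Fintype.card P ≤ Module.finrank (ZMod 2) (LinearMap.ker (Ls ε)) + Fintype.card J := by
  have h1 := LinearMap.finrank_range_add_finrank_ker (Ls ε)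
  have h2 : Module.finrank (ZMod 2) (LinearMap.range (Ls ε)) ≤
      Module.finrank (ZMod 2) (J → ZMod 2) := Submodule.finrank_le _
  rw [Module.finrank_fintype_fun_eq_card] at h1 h2
  omega

lemma Ls_ker {P J : Type} [Fintype P] {ε : J → P → ℤ} (hε : ∀ j p, ε j p = 1 ∨ ε j p = -1)
    {v : P → ZMod 2} (hv : v ∈ LinearMap.ker (Ls ε)) (j : J) : ∏ p, ε j p ^ (v p).val = 1 := by
  rw [prod_sign Finset.univ (ε j) (fun p _ => hε j p) v]
  rw [LinearMap.mem_ker] at hv
  have h2 : ∑ p, v p * lam (ε j p) = 0 := congrFun hv j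
  rw [if_pos h2]

/-! ### The primes -/

/-- the product of the differences -/
def Del (e : Fin 3 → ℤ) : ℤ := (e 0 - e 1) * (e 0 - e 2) * (e 1 - e 2)

/-- the primes of the classes -/
noncomputable def Pp (w : ℕ) (e : Fin 3 → ℤ) : Finset ℕ :=
  (Del e).natAbs.primeFactors.filter (fun p => w < p)

/-- the index of a prime -/
noncomputable def je (e : Fin 3 → ℤ) (p : ℕ) : Fin 3 :=
  if (p : ℤ) ∣ e 1 - e 2 then 0 else if (p : ℤ) ∣ e 0 - e 2 then 1 else 2

/-- the other two indices -/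
def oA (j : Fin 3) : Fin 3 := if j = 0 then 1 else 0

/-- the other two indices -/
def oB (j : Fin 3) : Fin 3 := if j = 2 then 1 else 2

/-- no exceptional primes -/
def NX (w : ℕ) (e : Fin 3 → ℤ) : Prop := ∀ p : ℕ, p.Prime → w < p →
  ¬ (p : ℤ) ^ 2 ∣ e 0 - e 1 ∧ ¬ (p : ℤ) ^ 2 ∣ e 0 - e 2 ∧ ¬ (p : ℤ) ^ 2 ∣ e 1 - e 2 ∧
    ¬ ((p : ℤ) ∣ e 0 - e 1 ∧ (p : ℤ) ∣ e 0 - e 2)

lemma oA_ne (j : Fin 3) : oA j ≠ j := by fin_cases j <;> decide
lemma oB_ne (j : Fin 3) : oB j ≠ j := by fin_cases j <;> decide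
lemma oAB (j : Fin 3) : oA j ≠ oB j := by fin_cases j <;> decide

lemma Pp_prime {w : ℕ} {e : Fin 3 → ℤ} : ∀ p ∈ Pp w e, p.Prime := fun p hp =>
  (Nat.mem_primeFactors.1 (mem_filter.1 hp).1).1

/-- a prime that divides one difference -/
lemma Pp_mem {w : ℕ} {e : Fin 3 → ℤ} (hX : NX w e) {p : ℕ} (hp : p ∈ Pp w e) :
    (∃ k : ℤ, e (oA (je e p)) - e (oB (je e p)) = p * k ∧ ¬ (p : ℤ) ∣ k) ∧
      ¬ (p : ℤ) ∣ e (oA (je e p)) - e (je e p) := by
  rw [Pp, mem_filter, Nat.mem_primeFactors] at hp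
  obtain ⟨⟨h1, h2, -⟩, h3⟩ := hp
  obtain ⟨x1, x2, x3, x4⟩ := hX p h1 h3
  have hpi := Nat.prime_iff_prime_int.1 h1
  have h4 : (p : ℤ) ∣ Del e := Int.natCast_dvd.2 h2
  have key : ∀ {z : ℤ}, ¬ (p : ℤ) ^ 2 ∣ z → (p : ℤ) ∣ z → ∃ k : ℤ, z = p * k ∧ ¬ (p : ℤ) ∣ k := by
    rintro z hz ⟨k, rfl⟩
    refine ⟨k, rfl, fun h => hz ?_⟩
    rw [pow_two]
    exact mul_dvd_mul_left _ h
  unfold je
  split_ifs with a1 a2
  · refine ⟨key x3 a1, fun h => x4 ?_⟩
    have h5 : (p : ℤ) ∣ e 1 - e 0 := h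
    have h6 : (p : ℤ) ∣ e 0 - e 1 := by
      have := h5.neg_right
      rwa [neg_sub] at this
    refine ⟨h6, ?_⟩
    have : e 0 - e 2 = (e 0 - e 1) + (e 1 - e 2) := by ring
    rw [this]
    exact dvd_add h6 a1
  · refine ⟨key x2 a2, fun h => x4 ⟨h, a2⟩⟩
  · have h5 : (p : ℤ) ∣ e 0 - e 1 := by
      rcases hpi.dvd_or_dvd h4 with h | h
      · rcases hpi.dvd_or_dvd h with h' | h'
        · exact h'
        · exact absurd h' a2
      · exact absurd h a1
    exact ⟨key x1 h5, a2⟩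

lemma Sol3.of {K Ω : Type} [Field K] [Algebra ℚ K] [Field Ω] [Algebra K Ω] [Algebra ℚ Ω]
    [IsScalarTower ℚ K Ω] {L : IntermediateField ℚ QB} {ι : QB →ₐ[ℚ] Ω} {e d : Fin 3 → ℤ}
    (j : Fin 3) (h : Sol3 K L ι (e (oA j)) (e (oB j)) (e j) (d (oA j)) (d (oB j)) (d j)) :
    Sol3 K L ι (e 0) (e 1) (e 2) (d 0) (d 1) (d 2) := by
  fin_cases j
  · exact Sol3.rot h
  · exact (Sol3.rot h).swap
  · exact h

/-! ### The conditions -/

/-- the moduli of the conditions of the first kind -/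
noncomputable def K1 (w : ℕ) : Finset ℕ := (Icc 1 w).filter (fun k => k = 1 ∨ k.Prime)

lemma K1_card (w : ℕ) : (K1 w).card ≤ w := by
  refine (card_filter_le _ _).trans ?_
  rw [Nat.card_Icc]
  omega

/-- the split primes -/
noncomputable def K2 {n : ℕ} (D : Fin n → ℤ) (w : ℕ) (e : Fin 3 → ℤ) : Finset ℕ :=
  (Pp w e).filter (fun q => ∀ i, jacobiSym (D i) q = 1)

/-- the signs -/
noncomputable def eps {n : ℕ} (D : Fin n → ℤ) (w : ℕ) (e : Fin 3 → ℤ) :
    (Bool × K1 w) ⊕ K2 D w e → Pp w e → ℤ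
  | .inl (i, k), p => Pool.Agent.H514.IS.sg k (if je e p = (if i then 1 else 0) then 1 else p)
  | .inr q, p => if (p : ℕ) = q then jacobiSym (e (oA (je e q)) - e (je e q)) q else
      jacobiSym ((if je e p = je e q then 1 else (p : ℕ) : ℕ) : ℤ) q

variable {n : ℕ} {D : Fin n → ℤ} {w : ℕ} {e : Fin 3 → ℤ}

lemma jac_pm {q : ℕ} (hq : q.Prime) {a : ℤ} (h : ¬ (q : ℤ) ∣ a) :
    jacobiSym a q = 1 ∨ jacobiSym a q = -1 := by
  have : Fact q.Prime := ⟨hq⟩
  rw [← jacobiSym.legendreSym.to_jacobiSym]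
  exact leg_pm h

lemma eps_pm (hw : 2 ≤ w) (hX : NX w e) (j : (Bool × K1 w) ⊕ K2 D w e) (p : Pp w e) :
    eps D w e j p = 1 ∨ eps D w e j p = -1 := by
  have hp := Pp_prime p p.2
  have hpw : w < (p : ℕ) := (mem_filter.1 p.2).2
  rcases j with ⟨i, k⟩ | q
  · show Pool.Agent.H514.IS.sg k (if je e p = (if i then 1 else 0) then 1 else p) = 1 ∨
      Pool.Agent.H514.IS.sg k (if je e p = (if i then 1 else 0) then 1 else p) = -1
    generalize (if i then (1 : Fin 3) else 0) = i'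
    by_cases h1 : je e p = i'
    · rw [if_pos h1, sg_one]
      left; rfl
    · rw [if_neg h1]
      apply sg_pm
      · rcases hp.eq_two_or_odd with h | h
        · omega
        · exact h
      · obtain ⟨hk1, hk2⟩ := mem_filter.1 k.2
        rw [mem_Icc] at hk1
        rw [hp.coprime_iff_not_dvd]
        intro h
        have := Nat.le_of_dvd (by omega) h
        omega
  · have hq := Pp_prime q (mem_filter.1 q.2).1
    show (if (p : ℕ) = q then jacobiSym (e (oA (je e q)) - e (je e q)) q else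
      jacobiSym ((if je e p = je e q then 1 else (p : ℕ) : ℕ) : ℤ) q) = 1 ∨
      (if (p : ℕ) = q then jacobiSym (e (oA (je e q)) - e (je e q)) q else
      jacobiSym ((if je e p = je e q then 1 else (p : ℕ) : ℕ) : ℤ) q) = -1
    split_ifs with h1 h2
    · exact jac_pm hq (Pp_mem hX (mem_filter.1 q.2).1).2
    · rw [Nat.cast_one, jacobiSym.one_left]
      left; rfl
    · apply jac_pm hq
      intro h
      have h3 : (q : ℕ) ∣ p := by exact_mod_cast h
      exact h1 ((Nat.prime_dvd_prime_iff_eq hq hp).1 h3).symm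

/-- the subspace -/
noncomputable def VV {n : ℕ} (D : Fin n → ℤ) (w : ℕ) (e : Fin 3 → ℤ) : Submodule (ZMod 2) (Pp w e → ZMod 2) :=
  LinearMap.ker (Ls (eps D w e))

lemma VV_card (hd : ∀ p ∈ Pp w e, ∀ i, ¬ (p : ℤ) ∣ D i) :
    ((Pp w e).filter (fun q => ∃ i, jacobiSym (D i) q = -1)).card ≤
      Module.finrank (ZMod 2) (VV D w e) + 2 * w := by
  have h1 := Ls_card (eps D w e)
  rw [Fintype.card_sum, Fintype.card_prod, Fintype.card_bool, Fintype.card_coe, Fintype.card_coe,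
    Fintype.card_coe] at h1
  have h2 := K1_card w
  have h3 : (Pp w e).card = ((Pp w e).filter (fun q => ∃ i, jacobiSym (D i) q = -1)).card +
      (K2 D w e).card := by
    rw [← card_union_of_disjoint]
    · congr 1
      ext q
      rw [mem_union, mem_filter, K2, mem_filter]
      constructor
      · intro hq
        by_cases h : ∃ i, jacobiSym (D i) q = -1
        · exact Or.inl ⟨hq, h⟩
        · refine Or.inr ⟨hq, fun i => ?_⟩
          rcases jac_pm (Pp_prime q hq) (hd q hq i) with h' | h'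
          · exact h'
          · exact absurd ⟨i, h'⟩ h
      · rintro (h | h)
        · exact h.1
        · exact h.1
    · rw [Finset.disjoint_left]
      intro q hq hq'
      rw [mem_filter] at hq
      rw [K2, mem_filter] at hq'
      obtain ⟨-, i, hi⟩ := hq
      rw [hq'.2 i] at hi
      exact absurd hi (by norm_num)
  unfold VV
  omega

end Pool.Agent.H514.KS
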