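import Pool.Graph.R_pool_sql_team_seeded_f72693b1.W262.SH.DefB
import Pool.Graph.R_pool_sql_team_seeded_f72693b1.W338.SH.Sh2
import Pool.Graph.R_seed8.TH344.SH.Gal

/-! Local triviality of the cocycles with values in the points of order two. -/

set_option autoImplicit false

open scoped Classical

namespace Pool.Agent.H514.KS

open WeierstrassCurve Pool.Agent.W262.SH Pool.Agent.W338.SH
open Pool.Agent.TH344.SH (IsR rt sg sg_sq tor_ext sg_add halve double translate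
  add_self_eq_zero_iff)

/-- the curve is `y² = (x - e1) (x - e2) (x - e3)` -/
def Rts (W : WeierstrassCurve ℚ) (e1 e2 e3 : ℤ) : Prop :=
  ∀ (L : Type) [Field L] [Algebra ℚ L],
    IsR (W.baseChange L).toAffine (e1 : L) (e2 : L) (e3 : L)

theorem rt_act' (W : WeierstrassCurve ℚ) {F L : Type} [Field F] [Field L] [Algebra ℚ F]
    [Algebra ℚ L] (φ : F →ₐ[ℚ] L) (a b c : ℤ) (P : Pt W F) :
    rt (a : L) (b : L) (c : L) (act W φ P) = φ (rt (a : F) (b : F) (c : F) P) := by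
  have h := Pool.Agent.TH344.SH.rt_act W φ (a : F) (b : F) (c : F) P
  rw [map_intCast, map_intCast, map_intCast] at h
  exact h

theorem sg_act' (W : WeierstrassCurve ℚ) {F L : Type} [Field F] [Field L] [Algebra ℚ F]
    [Algebra ℚ L] (φ : F →ₐ[ℚ] L) (a : ℤ) (P : Pt W F) :
    sg (a : L) (act W φ P) = φ (sg (a : F) P) := by
  have h := Pool.Agent.TH344.SH.sg_act W φ (a : F) P
  rw [map_intCast] at h
  exact h

theorem charZ (L : Type) [Field L] [Algebra ℚ L] : CharZero L :=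
  charZero_of_injective_algebraMap (algebraMap ℚ L).injective

theorem sg_one_of {L : Type} [Field L] {W : Affine L} {a : L} {T : W.Point} (h2 : (2 : L) ≠ 0)
    {u : L} (hu : u ≠ 0) (h : u = sg a T * u) : sg a T = 1 := by
  rcases sg_sq a T with h1 | h1
  · exact h1
  · rw [h1] at h
    exfalso
    have : (2 : L) * u = 0 := by linear_combination h
    rcases mul_eq_zero.1 this with h3 | h3
    · exact h2 h3
    · exact hu h3

section loc

variable {W : WeierstrassCurve ℚ} {e1 e2 e3 : ℤ} {K Ω : Type} [Field K] [Algebra ℚ K] [Field Ω]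
  [Algebra K Ω] [Algebra ℚ Ω] [IsScalarTower ℚ K Ω] {L : IntermediateField ℚ QB}

/-- the points of order two are rational -/
theorem act_two (hR : Rts W e1 e2 e3) {F F' : Type} [Field F] [Field F'] [Algebra ℚ F]
    [Algebra ℚ F'] (φ : F →ₐ[ℚ] F') {S T : Pt W F'} (hS : S + S = 0) (hT : T + T = 0)
    (h1 : sg (e1 : F') S = sg (e1 : F') T) (h2 : sg (e2 : F') S = sg (e2 : F') T) : S = T :=
  tor_ext (hR F') hS hT h1 h2

/-- the trivial cocycle -/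
theorem loc_triv (hR : Rts W e1 e2 e3) (ι : QB →ₐ[ℚ] Ω) {f : Gal L → Pt W QB}
    (hf2 : ∀ σ, f σ + f σ = 0) {u1 u2 : QB} (hu1 : u1 ≠ 0) (hu2 : u2 ≠ 0)
    (hs1 : ∀ σ : Gal L, inG L σ u1 = sg (e1 : QB) (f σ) * u1)
    (hs2 : ∀ σ : Gal L, inG L σ u2 = sg (e2 : QB) (f σ) * u2)
    (hfix : ∀ τ : Ω ≃ₐ[K] Ω, (∀ x ∈ L, τ (ι x) = ι x) → τ (ι u1) = ι u1 ∧ τ (ι u2) = ι u2) :
    LocN W (K := K) ι f := by
  refine ⟨0, fun τ σ hc => ?_⟩
  rw [map_zero, sub_zero]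
  have hτ : ∀ x ∈ L, τ (ι x) = ι x := by
    intro x hx
    rw [hc]
    congr 1
    exact (IntermediateField.mem_fixingSubgroup_iff L _).1 σ.2 x hx
  obtain ⟨g1, g2⟩ := hfix τ hτ
  have h1 : sg (e1 : QB) (f σ) = 1 := by
    refine sg_one_of two_ne_zero hu1 ?_
    rw [← hs1]
    exact ι.toRingHom.injective (g1.symm.trans (hc u1))
  have h2 : sg (e2 : QB) (f σ) = 1 := by
    refine sg_one_of two_ne_zero hu2 ?_
    rw [← hs2]
    exact ι.toRingHom.injective (g2.symm.trans (hc u2))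
  have h3 : f σ = 0 := tor_ext (hR QB) (hf2 σ) (add_zero 0) (by rw [h1]; rfl) (by rw [h2]; rfl)
  rw [h3, map_zero]

/-- a point gives local triviality -/
theorem loc_pt (hR : Rts W e1 e2 e3) (ι : QB →ₐ[ℚ] Ω) {f : Gal L → Pt W QB}
    (hf2 : ∀ σ, f σ + f σ = 0) {u1 u2 : QB} {d1 d2 : ℤ} (hd1 : d1 ≠ 0) (hd2 : d2 ≠ 0)
    (hq1 : u1 ^ 2 = (d1 : QB)) (hq2 : u2 ^ 2 = (d2 : QB))
    (hs1 : ∀ σ : Gal L, inG L σ u1 = sg (e1 : QB) (f σ) * u1)
    (hs2 : ∀ σ : Gal L, inG L σ u2 = sg (e2 : QB) (f σ) * u2)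
    {X : K} (hX1 : X ≠ e1) (hX2 : X ≠ e2) (hX3 : X ≠ e3) {r1 r2 r3 : Ω}
    (hr1 : r1 ^ 2 = algebraMap K Ω ((X - e1) * d1)) (hr2 : r2 ^ 2 = algebraMap K Ω ((X - e2) * d2))
    (hr3 : r3 ^ 2 = algebraMap K Ω ((X - e3) * (d1 * d2)))
    (hfix : ∀ τ : Ω ≃ₐ[K] Ω, (∀ x ∈ L, τ (ι x) = ι x) → τ r1 = r1 ∧ τ r2 = r2 ∧ τ r3 = r3) :
    LocN W (K := K) ι f := by
  have hcz := charZ Ω
  have hcK := charZ K
  set x : Ω := algebraMap K Ω X with hx
  have hU1 : (ι u1) ^ 2 = (d1 : Ω) := by rw [← map_pow, hq1, map_intCast]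
  have hU2 : (ι u2) ^ 2 = (d2 : Ω) := by rw [← map_pow, hq2, map_intCast]
  have hd1' : (d1 : Ω) ≠ 0 := by exact_mod_cast hd1
  have hd2' : (d2 : Ω) ≠ 0 := by exact_mod_cast hd2
  have hn1 : ι u1 ≠ 0 := fun h => hd1' (by rw [← hU1, h, zero_pow two_ne_zero])
  have hn2 : ι u2 ≠ 0 := fun h => hd2' (by rw [← hU2, h, zero_pow two_ne_zero])
  have hk : ∀ (e : ℤ) (z : K), algebraMap K Ω ((X - e) * z) = (x - e) * algebraMap K Ω z := by
    intro e z
    rw [map_mul, map_sub, map_intCast]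
  obtain ⟨v1, hv1⟩ : ∃ v, v = r1 / ι u1 := ⟨_, rfl⟩
  obtain ⟨v2, hv2⟩ : ∃ v, v = r2 / ι u2 := ⟨_, rfl⟩
  obtain ⟨v3, hv3⟩ : ∃ v, v = r3 / (ι u1 * ι u2) := ⟨_, rfl⟩
  have q1 : v1 ^ 2 = x - e1 := by
    rw [hv1, div_pow, hr1, hk, hU1, map_intCast, mul_div_cancel_right₀ _ hd1']
  have q2 : v2 ^ 2 = x - e2 := by
    rw [hv2, div_pow, hr2, hk, hU2, map_intCast, mul_div_cancel_right₀ _ hd2']
  have q3 : v3 ^ 2 = x - e3 := by
    rw [hv3, div_pow, hr3, hk, mul_pow, hU1, hU2, map_mul, map_intCast, map_intCast,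
      mul_div_cancel_right₀ _ (mul_ne_zero hd1' hd2')]
  have hxe : ∀ e : ℤ, X ≠ e → x - (e : Ω) ≠ 0 := by
    intro e he h
    apply he
    apply (algebraMap K Ω).injective
    rw [map_intCast]
    exact sub_eq_zero.1 h
  have hv10 : v1 ≠ 0 := fun h => hxe e1 hX1 (by rw [← q1, h, zero_pow two_ne_zero])
  have hv20 : v2 ≠ 0 := fun h => hxe e2 hX2 (by rw [← q2, h, zero_pow two_ne_zero])
  have hv30 : v3 ≠ 0 := fun h => hxe e3 hX3 (by rw [← q3, h, zero_pow two_ne_zero])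
  have hQ : (W.baseChange Ω).toAffine.Nonsingular x (v1 * v2 * v3) := by
    rw [(hR Ω).nonsingular, mul_pow, mul_pow, q1, q2, q3]
  obtain ⟨P, hP⟩ := halve (hR Ω) hQ q1 q2 q3
  refine ⟨P, fun τ σ hc => ?_⟩
  have hτ : ∀ x ∈ L, τ (ι x) = ι x := by
    intro x hx
    rw [hc]
    congr 1
    exact (IntermediateField.mem_fixingSubgroup_iff L _).1 σ.2 x hx
  obtain ⟨g1, g2, g3⟩ := hfix τ hτ
  -- the signs of the cocycle in `Ω`
  set T : Pt W Ω := act W ι (f σ) with hT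
  have hT2 : T + T = 0 := by rw [hT, ← map_add, hf2, map_zero]
  have s1 : sg (e1 : Ω) T = ι (sg (e1 : QB) (f σ)) := sg_act' W ι e1 (f σ)
  have s2 : sg (e2 : Ω) T = ι (sg (e2 : QB) (f σ)) := sg_act' W ι e2 (f σ)
  have t1 : τ (ι u1) = sg (e1 : Ω) T * ι u1 := by rw [hc, s1, ← map_mul]; exact congrArg ι (hs1 σ)
  have t2 : τ (ι u2) = sg (e2 : Ω) T * ι u2 := by rw [hc, s2, ← map_mul]; exact congrArg ι (hs2 σ)
  have n1 : sg (e1 : Ω) T * sg (e1 : Ω) T = 1 := by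
    rcases sg_sq (e1 : Ω) T with h | h <;> rw [h] <;> ring
  have n2 : sg (e2 : Ω) T * sg (e2 : Ω) T = 1 := by
    rcases sg_sq (e2 : Ω) T with h | h <;> rw [h] <;> ring
  have z1 : sg (e1 : Ω) T ≠ 0 := fun h => by rw [h, zero_mul] at n1; exact zero_ne_one n1
  have z2 : sg (e2 : Ω) T ≠ 0 := fun h => by rw [h, zero_mul] at n2; exact zero_ne_one n2
  have w1 : τ v1 = sg (e1 : Ω) T * v1 := by
    rw [hv1, map_div₀, g1, t1]
    field_simp
    linear_combination (-r1) * n1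
  have w2 : τ v2 = sg (e2 : Ω) T * v2 := by
    rw [hv2, map_div₀, g2, t2]
    field_simp
    linear_combination (-r2) * n2
  have w3 : τ v3 = sg (e1 : Ω) T * sg (e2 : Ω) T * v3 := by
    rw [hv3, map_div₀, g3, map_mul, t1, t2]
    field_simp
    linear_combination (-r3) * n1 * (sg (e2 : Ω) T) ^ 2 - r3 * n2
  have hP0 : P + P ≠ 0 := by
    rw [hP]
    exact Affine.Point.some_ne_zero _
  obtain ⟨X', Y', hQ', a1, a2, a3, -, -⟩ := double (hR Ω) hP0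
  have hX' : X' = x := by
    rw [hP] at a1
    exact (Affine.Point.some.inj a1).1.symm
  subst hX'
  have pm : ∀ {y z : Ω}, y ^ 2 = z ^ 2 → ∀ {c : Ω}, τ z = c * z → τ y = c * y := by
    intro y z h c hz
    rcases sq_eq_sq_iff_eq_or_eq_neg.1 h with h1 | h1
    · rw [h1, hz]
    · rw [h1, map_neg, hz]
      ring
  set φ : Ω →ₐ[ℚ] Ω := τ.toAlgHom.restrictScalars ℚ with hφ
  have hφτ : ∀ z, φ z = τ z := fun z => rfl
  set P' : Pt W Ω := act W φ P with hP'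
  have hPP : P' + P' = P + P := by
    rw [hP', ← map_add, hP]
    obtain ⟨h5, e5⟩ := act_some W φ hQ
    rw [e5]
    refine some_congr ?_ ?_ _ _
    · show τ (algebraMap K Ω X) = _
      exact τ.commutes X
    · show τ (v1 * v2 * v3) = _
      rw [map_mul, map_mul, w1, w2, w3]
      linear_combination v1 * v2 * v3 * (n1 * (sg (e2 : Ω) T) ^ 2 + n2)
  set S : Pt W Ω := P' - P with hS
  have hS2 : S + S = 0 := by
    rw [hS]
    have : P' - P + (P' - P) = (P' + P') - (P + P) := by abel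
    rw [this, hPP, sub_self]
  have hSP : P + S = P' := by rw [hS]; abel
  have b1 : rt (e1 : Ω) e2 e3 (P + S) = sg (e1 : Ω) S * rt (e1 : Ω) e2 e3 P :=
    translate (hR Ω) hP0 hS2
  have b2 : rt (e2 : Ω) e1 e3 (P + S) = sg (e2 : Ω) S * rt (e2 : Ω) e1 e3 P :=
    translate (hR Ω).swap hP0 hS2
  have c1 : rt (e1 : Ω) e2 e3 P' = τ (rt (e1 : Ω) e2 e3 P) := rt_act' W φ e1 e2 e3 P
  have c2 : rt (e2 : Ω) e1 e3 P' = τ (rt (e2 : Ω) e1 e3 P) := rt_act' W φ e2 e1 e3 P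
  have m1 : τ (rt (e1 : Ω) e2 e3 P) = sg (e1 : Ω) T * rt (e1 : Ω) e2 e3 P :=
    pm (by rw [a2, q1]) w1
  have m2 : τ (rt (e2 : Ω) e1 e3 P) = sg (e2 : Ω) T * rt (e2 : Ω) e1 e3 P :=
    pm (by rw [a3, q2]) w2
  have k1 : rt (e1 : Ω) e2 e3 P ≠ 0 := fun h => hxe e1 hX1 (by
    rw [← a2, h, zero_pow two_ne_zero])
  have k2 : rt (e2 : Ω) e1 e3 P ≠ 0 := fun h => hxe e2 hX2 (by
    rw [← a3, h, zero_pow two_ne_zero])
  refine tor_ext (hR Ω) hT2 hS2 ?_ ?_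
  · apply mul_right_cancel₀ k1
    rw [← m1, ← c1, ← hSP, b1]
  · apply mul_right_cancel₀ k2
    rw [← m2, ← c2, ← hSP, b2]

end loc

end Pool.Agent.H514.KS
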