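import Mathlib
import Pool.Graph.R_seed8.W165.CE.FF

/-! KS-S3: signs of three translates.

Paper proof. Put `A1 = m1`, `A2 = m2`, `A3 = m1 m2`, `χ` the quadratic character of `ZMod p`. Eight
times the number of the `x` different from `a, b, c` with all three signs `1` is
`∑_{x ≠ a,b,c} (1 + χ(A1 (x-a))) (1 + χ(A2 (x-b))) (1 + χ(A3 (x-c)))`. The constant term is `p - 3`;
the three single sums are at most `2` in absolute value (`∑_x χ(A1 (x-a)) = 0`, and two values are
left out); the pair sums `∑_{x ≠ a,b,c} χ(A1 A2 (x-a)(x-b))` are at most `2` (`∑_x χ((x-a)(x-b)) =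
-1`, and one value is left out); the triple sum is `∑_x χ(A1 A2 A3 (x-a)(x-b)(x-c)) =
∑_x χ((x-a)(x-b)(x-c))` (as `A1 A2 A3 = (m1 m2)²`), which is at most `2 √p` by Hasse's bound
(the sharp form of Weil's bound, `Pool.Agent.H341R2.Sharp.weil_sharp_monic`).
As `p - 3 - 6 - 6 - 2 √p > 0` for `p ≥ 29` such an `x` exists. -/

set_option autoImplicit false

namespace Pool.Agent.H514.KS

open Polynomial Finset

theorem three_sign (p : ℕ) [Fact p.Prime] (hp : 29 ≤ p) {a b c m1 m2 : ZMod p} (hab : a ≠ b)
    (hac : a ≠ c) (hbc : b ≠ c) (h1 : m1 ≠ 0) (h2 : m2 ≠ 0) :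
    ∃ x : ZMod p, quadraticChar (ZMod p) ((x - a) * m1) = 1 ∧
      quadraticChar (ZMod p) ((x - b) * m2) = 1 ∧
      quadraticChar (ZMod p) ((x - c) * (m1 * m2)) = 1 := by
  by_contra hcon
  have hF : ringChar (ZMod p) ≠ 2 := by
    rw [ZMod.ringChar_zmod_n]; omega
  have h20 : (2 : ZMod p) ≠ 0 := Ring.two_ne_zero hF
  have hval : ∀ z : ZMod p, z ≠ 0 → quadraticChar (ZMod p) z = 1 ∨ quadraticChar (ZMod p) z = -1 :=
    fun z hz => quadraticChar_dichotomy hz
  have hval' : ∀ z : ZMod p, quadraticChar (ZMod p) z = 0 ∨ quadraticChar (ZMod p) z = 1 ∨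
      quadraticChar (ZMod p) z = -1 := by
    intro z
    by_cases hz : z = 0
    · left; rw [hz]; exact quadraticChar_zero
    · right; exact hval z hz
  have e1 : ∀ d : ZMod p, ∑ x : ZMod p, quadraticChar (ZMod p) (x - d) = 0 := by
    intro d
    rw [Fintype.sum_equiv (Equiv.subRight d) (fun x => quadraticChar (ZMod p) (x - d))
      (fun x => quadraticChar (ZMod p) x) (fun x => rfl)]
    exact quadraticChar_sum_zero hF
  have e2 : ∀ d e : ZMod p, d ≠ e →
      ∑ x : ZMod p, quadraticChar (ZMod p) (x - d) * quadraticChar (ZMod p) (x - e) = -1 := by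
    intro d e hde
    have hD : ((d - e) / 2) ^ 2 ≠ 0 := by
      refine pow_ne_zero _ (div_ne_zero (sub_ne_zero.2 hde) h20)
    rw [← W165.CE.sum_sq_sub hF (((d - e) / 2) ^ 2) hD]
    refine Fintype.sum_equiv (Equiv.subRight ((d + e) / 2)) _ _ (fun x => ?_)
    rw [← map_mul]
    congr 1
    rw [Equiv.subRight_apply]
    field_simp
    ring
  have e3 : |∑ x : ZMod p, (quadraticChar (ZMod p) ((x - a) * (x - b) * (x - c)) : ℝ)| ≤
      2 * Real.sqrt p := by
    have hm : ((X - C a) * (X - C b) * (X - C c) : (ZMod p)[X]).Monic :=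
      ((monic_X_sub_C a).mul (monic_X_sub_C b)).mul (monic_X_sub_C c)
    have hd : ((X - C a) * (X - C b) * (X - C c) : (ZMod p)[X]).natDegree = 3 := by
      rw [Monic.natDegree_mul ((monic_X_sub_C a).mul (monic_X_sub_C b)) (monic_X_sub_C c),
        Monic.natDegree_mul (monic_X_sub_C a) (monic_X_sub_C b), natDegree_X_sub_C,
        natDegree_X_sub_C, natDegree_X_sub_C]
    have h4 := Pool.Agent.H341R2.Sharp.weil_sharp_monic hF hm (by rw [hd]; norm_num)
      (W165.CE.cubic_nsq hd)
    rw [hd, ZMod.card] at h4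
    have h5 : ∀ x : ZMod p, ((X - C a) * (X - C b) * (X - C c) : (ZMod p)[X]).eval x =
        (x - a) * (x - b) * (x - c) := by
      intro x
      simp
    simp_rw [h5] at h4
    refine h4.trans (le_of_eq ?_)
    norm_num
  have hcon' : ∀ x : ZMod p, quadraticChar (ZMod p) ((x - a) * m1) = 1 →
      quadraticChar (ZMod p) ((x - b) * m2) = 1 →
      quadraticChar (ZMod p) ((x - c) * (m1 * m2)) = 1 → False :=
    fun x q1 q2 q3 => hcon ⟨x, q1, q2, q3⟩
  have hb : ∀ x : ZMod p, (1 + quadraticChar (ZMod p) ((x - a) * m1)) *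
      (1 + quadraticChar (ZMod p) ((x - b) * m2)) *
      (1 + quadraticChar (ZMod p) ((x - c) * (m1 * m2))) ≤
      (if x = a then (4 : ℤ) else 0) + (if x = b then (4 : ℤ) else 0) +
        (if x = c then (4 : ℤ) else 0) := by
    intro x
    have hc := hcon' x
    by_cases hxa : x = a
    · rw [if_pos hxa, if_neg (by rw [hxa]; exact hab), if_neg (by rw [hxa]; exact hac)]
      have q0 : quadraticChar (ZMod p) ((x - a) * m1) = 0 := by
        rw [hxa, sub_self, zero_mul]; exact quadraticChar_zero
      rw [q0]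
      rcases hval' ((x - b) * m2) with h | h | h <;>
        rcases hval' ((x - c) * (m1 * m2)) with h' | h' | h' <;> rw [h, h'] <;> norm_num
    · by_cases hxb : x = b
      · rw [if_neg hxa, if_pos hxb, if_neg (by rw [hxb]; exact hbc)]
        have q0 : quadraticChar (ZMod p) ((x - b) * m2) = 0 := by
          rw [hxb, sub_self, zero_mul]; exact quadraticChar_zero
        rw [q0]
        rcases hval' ((x - a) * m1) with h | h | h <;>
          rcases hval' ((x - c) * (m1 * m2)) with h' | h' | h' <;> rw [h, h'] <;> norm_num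
      · by_cases hxc : x = c
        · rw [if_neg hxa, if_neg hxb, if_pos hxc]
          have q0 : quadraticChar (ZMod p) ((x - c) * (m1 * m2)) = 0 := by
            rw [hxc, sub_self, zero_mul]; exact quadraticChar_zero
          rw [q0]
          rcases hval' ((x - a) * m1) with h | h | h <;>
            rcases hval' ((x - b) * m2) with h' | h' | h' <;> rw [h, h'] <;> norm_num
        · rw [if_neg hxa, if_neg hxb, if_neg hxc]
          have n1 := hval _ (mul_ne_zero (sub_ne_zero.2 hxa) h1)
          have n2 := hval _ (mul_ne_zero (sub_ne_zero.2 hxb) h2)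
          have n3 := hval _ (mul_ne_zero (sub_ne_zero.2 hxc) (mul_ne_zero h1 h2))
          rcases n1 with h | h <;> rcases n2 with h' | h' <;> rcases n3 with h'' | h'' <;>
            first
            | exact (hc h h' h'').elim
            | (rw [h, h', h'']; norm_num)
  have hsum := Finset.sum_le_sum (s := Finset.univ) (fun x _ => hb x)
  rw [Finset.sum_add_distrib, Finset.sum_add_distrib, Finset.sum_ite_eq' Finset.univ a,
    Finset.sum_ite_eq' Finset.univ b, Finset.sum_ite_eq' Finset.univ c,
    if_pos (Finset.mem_univ _), if_pos (Finset.mem_univ _), if_pos (Finset.mem_univ _)] at hsum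
  set u := quadraticChar (ZMod p) m1 with hu
  set v := quadraticChar (ZMod p) m2 with hv
  set T := ∑ x : ZMod p, quadraticChar (ZMod p) ((x - a) * (x - b) * (x - c)) with hT
  have hexp : ∑ x : ZMod p, (1 + quadraticChar (ZMod p) ((x - a) * m1)) *
      (1 + quadraticChar (ZMod p) ((x - b) * m2)) *
      (1 + quadraticChar (ZMod p) ((x - c) * (m1 * m2))) =
      (p : ℤ) - (u * v + u ^ 2 * v + u * v ^ 2) + u ^ 2 * v ^ 2 * T := by
    have : ∀ x : ZMod p, (1 + quadraticChar (ZMod p) ((x - a) * m1)) *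
      (1 + quadraticChar (ZMod p) ((x - b) * m2)) *
      (1 + quadraticChar (ZMod p) ((x - c) * (m1 * m2))) =
      1 + (u * quadraticChar (ZMod p) (x - a) + v * quadraticChar (ZMod p) (x - b) +
        u * v * quadraticChar (ZMod p) (x - c)) +
        (u * v * (quadraticChar (ZMod p) (x - a) * quadraticChar (ZMod p) (x - b)) +
        u ^ 2 * v * (quadraticChar (ZMod p) (x - a) * quadraticChar (ZMod p) (x - c)) +
        u * v ^ 2 * (quadraticChar (ZMod p) (x - b) * quadraticChar (ZMod p) (x - c))) +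
        u ^ 2 * v ^ 2 * quadraticChar (ZMod p) ((x - a) * (x - b) * (x - c)) := by
      intro x
      simp only [map_mul]
      rw [← hu, ← hv]
      ring
    rw [Finset.sum_congr rfl (fun x _ => this x)]
    rw [Finset.sum_add_distrib, Finset.sum_add_distrib, Finset.sum_add_distrib,
      Finset.sum_add_distrib, Finset.sum_add_distrib, Finset.sum_add_distrib,
      Finset.sum_add_distrib]
    simp only [← Finset.mul_sum]
    rw [e1, e1, e1, e2 a b hab, e2 a c hac, e2 b c hbc, ← hT, Finset.sum_const, Finset.card_univ,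
      ZMod.card]
    simp only [nsmul_eq_mul, mul_one, mul_zero, add_zero]
    ring
  rw [hexp] at hsum
  have hTp : (p : ℤ) + T ≤ 15 := by
    rcases hval m1 h1 with q | q <;> rcases hval m2 h2 with q' | q' <;>
      rw [← hu] at q <;> rw [← hv] at q' <;> rw [q, q'] at hsum <;> linarith
  have hT' : |(T : ℝ)| ≤ 2 * Real.sqrt p := by
    rw [hT]
    push_cast
    exact e3
  have h6 : -(2 * Real.sqrt p) ≤ (T : ℝ) := (abs_le.1 hT').1
  have h7 : (p : ℝ) + T ≤ 15 := by exact_mod_cast hTp
  have h8 : Real.sqrt p ^ 2 = p := Real.sq_sqrt (Nat.cast_nonneg p)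
  have h9 : (29 : ℝ) ≤ p := by exact_mod_cast hp
  have h10 : 0 ≤ Real.sqrt p := Real.sqrt_nonneg _
  nlinarith

end Pool.Agent.H514.KS
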