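import Mathlib

/-! KS-S4: signs of two translates.

Paper proof. `χ` the quadratic character of `ZMod p`. Four times the number of the `z ≠ 0, a` with
the two prescribed signs is `∑_{z ≠ 0, a} (1 + ε1 χ(z)) (1 + ε2 χ(z - a)) = (p - 2) - ε1 χ(a) -
ε2 χ(-a) + ε1 ε2 (-1) ≥ p - 5 > 0`, by `∑_z χ(z) = 0` and `∑_z χ(z (z - a)) = -1`. -/

set_option autoImplicit false

namespace Pool.Agent.H514.KS

/-- `∑_z χ(z) χ(z - a) = -1` for `a ≠ 0` -/
theorem sum_quadraticChar_shift (p : ℕ) [Fact p.Prime] (hp : 7 ≤ p) {a : ZMod p} (ha : a ≠ 0) :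
    ∑ z : ZMod p, quadraticChar (ZMod p) z * quadraticChar (ZMod p) (z - a) = -1 := by
  have hF : ringChar (ZMod p) ≠ 2 := by
    rw [ZMod.ringChar_zmod_n]; omega
  have hχ : quadraticChar (ZMod p) ≠ 1 := quadraticChar_ne_one hF
  have h1 := jacobiSum_nontrivial_inv hχ
  have h2 : (quadraticChar (ZMod p))⁻¹ = quadraticChar (ZMod p) :=
    (quadraticChar_isQuadratic (ZMod p)).inv
  rw [h2] at h1
  unfold jacobiSum at h1
  have h3 : ∑ z : ZMod p, quadraticChar (ZMod p) z * quadraticChar (ZMod p) (z - a)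
      = ∑ x : ZMod p, quadraticChar (ZMod p) (a * x) * quadraticChar (ZMod p) (a * x - a) :=
    (Equiv.sum_comp (Equiv.mulLeft₀ a ha)
      (fun z => quadraticChar (ZMod p) z * quadraticChar (ZMod p) (z - a))).symm
  have h4 : ∀ x : ZMod p, quadraticChar (ZMod p) (a * x) * quadraticChar (ZMod p) (a * x - a)
      = quadraticChar (ZMod p) (-1) * (quadraticChar (ZMod p) x * quadraticChar (ZMod p) (1 - x)) := by
    intro x
    have e1 : a * x - a = (-1) * (a * (1 - x)) := by ring
    have e2 : quadraticChar (ZMod p) a * quadraticChar (ZMod p) a = 1 := by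
      rw [← pow_two]; exact quadraticChar_sq_one ha
    rw [e1, map_mul, map_mul, map_mul]
    linear_combination (quadraticChar (ZMod p) (-1) * (quadraticChar (ZMod p) x
      * quadraticChar (ZMod p) (1 - x))) * e2
  have e3 : quadraticChar (ZMod p) (-1) * quadraticChar (ZMod p) (-1) = 1 := by
    rw [← pow_two]; exact quadraticChar_sq_one (neg_ne_zero.2 one_ne_zero)
  rw [h3, Finset.sum_congr rfl (fun x _ => h4 x), ← Finset.mul_sum, h1]
  linear_combination (-1) * e3

theorem two_sign (p : ℕ) [Fact p.Prime] (hp : 7 ≤ p) {a : ZMod p} (ha : a ≠ 0) {ε1 ε2 : ℤ}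
    (h1 : ε1 = 1 ∨ ε1 = -1) (h2 : ε2 = 1 ∨ ε2 = -1) :
    ∃ z : ZMod p, quadraticChar (ZMod p) z = ε1 ∧ quadraticChar (ZMod p) (z - a) = ε2 := by
  by_contra hcon
  push Not at hcon
  have hF : ringChar (ZMod p) ≠ 2 := by
    rw [ZMod.ringChar_zmod_n]; omega
  have s0 : ∑ z : ZMod p, quadraticChar (ZMod p) z = 0 := quadraticChar_sum_zero hF
  have s1 : ∑ z : ZMod p, quadraticChar (ZMod p) (z - a) = 0 := by
    rw [← s0]
    exact (Equiv.subRight a).sum_comp (fun z => quadraticChar (ZMod p) z)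
  have s2 := sum_quadraticChar_shift p hp ha
  have sp : ∑ _z : ZMod p, (1 : ℤ) = p := by
    rw [Finset.sum_const, Finset.card_univ, ZMod.card, nsmul_eq_mul, mul_one]
  have tot : ∑ z : ZMod p, (1 + ε1 * quadraticChar (ZMod p) z)
      * (1 + ε2 * quadraticChar (ZMod p) (z - a)) = p - ε1 * ε2 := by
    have e : ∀ z : ZMod p, (1 + ε1 * quadraticChar (ZMod p) z)
      * (1 + ε2 * quadraticChar (ZMod p) (z - a)) = 1 + ε1 * quadraticChar (ZMod p) z
        + ε2 * quadraticChar (ZMod p) (z - a)
        + ε1 * ε2 * (quadraticChar (ZMod p) z * quadraticChar (ZMod p) (z - a)) := by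
      intro z; ring
    rw [Finset.sum_congr rfl (fun z _ => e z), Finset.sum_add_distrib, Finset.sum_add_distrib,
      Finset.sum_add_distrib, ← Finset.mul_sum, ← Finset.mul_sum, ← Finset.mul_sum, s0, s1, s2, sp]
    ring
  have hsub : ∑ z : ZMod p, (1 + ε1 * quadraticChar (ZMod p) z)
      * (1 + ε2 * quadraticChar (ZMod p) (z - a))
      = ∑ z ∈ ({0, a} : Finset (ZMod p)), (1 + ε1 * quadraticChar (ZMod p) z)
      * (1 + ε2 * quadraticChar (ZMod p) (z - a)) := by
    symm
    apply Finset.sum_subset (Finset.subset_univ _)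
    intro z _ hz
    simp only [Finset.mem_insert, Finset.mem_singleton, not_or] at hz
    obtain ⟨hz0, hza⟩ := hz
    have q1 := quadraticChar_dichotomy hz0
    have q2 := quadraticChar_dichotomy (sub_ne_zero.2 hza)
    by_cases hc : quadraticChar (ZMod p) z = ε1
    · have h3 := hcon z hc
      have h4 : quadraticChar (ZMod p) (z - a) = -ε2 := by
        rcases q2 with h | h <;> rcases h2 with h' | h' <;> rw [h, h'] at h3 <;> rw [h, h'] <;>
          first | rfl | exact absurd rfl h3
      have h5 : ε2 * ε2 = 1 := by rcases h2 with h | h <;> rw [h] <;> norm_num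
      rw [h4]
      linear_combination (-(1 + ε1 * quadraticChar (ZMod p) z)) * h5
    · have h4 : quadraticChar (ZMod p) z = -ε1 := by
        rcases q1 with h | h <;> rcases h1 with h' | h' <;> rw [h, h'] at hc <;> rw [h, h'] <;>
          first | rfl | exact absurd rfl hc
      have h5 : ε1 * ε1 = 1 := by rcases h1 with h | h <;> rw [h] <;> norm_num
      rw [h4]
      linear_combination (-(1 + ε2 * quadraticChar (ZMod p) (z - a))) * h5
  rw [hsub, Finset.sum_pair (Ne.symm ha), quadraticChar_zero, zero_sub, sub_self,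
    quadraticChar_zero] at tot
  have q1 := quadraticChar_dichotomy ha
  have q2 := quadraticChar_dichotomy (neg_ne_zero.2 ha)
  have hp' : (7 : ℤ) ≤ p := by exact_mod_cast hp
  rcases h1 with rfl | rfl <;> rcases h2 with rfl | rfl <;> rcases q1 with q1 | q1 <;>
    rcases q2 with q2 | q2 <;> rw [q1, q2] at tot <;> linarith

end Pool.Agent.H514.KS
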