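import Pool.Agent.H514.KS.Loc
import Pool.Agent.H514.KS.S3
import Pool.Agent.H514.KS.S4
import Pool.Agent.H514.IS.LocI

/-! Local solubility at the odd primes. -/

set_option autoImplicit false

open scoped Classical

namespace Pool.Agent.H514.KS

open WeierstrassCurve Pool.Agent.W262.SH Pool.Agent.W338.SH
open Pool.Agent.TH344.SH (IsR rt sg)

section sqr

variable {K Ω : Type} [Field K] [Algebra ℚ K] [Field Ω] [Algebra K Ω] [Algebra ℚ Ω]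
  [IsScalarTower ℚ K Ω]

/-- `z` is a square in the field generated by `K` and `L` -/
def Sqr (L : IntermediateField ℚ QB) (ι : QB →ₐ[ℚ] Ω) (z : K) : Prop :=
  ∃ r : Ω, r ^ 2 = algebraMap K Ω z ∧
    ∀ τ : Ω ≃ₐ[K] Ω, (∀ x ∈ L, τ (ι x) = ι x) → τ r = r

variable {L : IntermediateField ℚ QB} {ι : QB →ₐ[ℚ] Ω}

lemma Sqr.of_sq {z : K} (h : IsSquare z) : Sqr L ι z := by
  obtain ⟨c, rfl⟩ := h
  exact ⟨algebraMap K Ω c, by rw [map_mul, pow_two], fun τ _ => τ.commutes c⟩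

lemma Sqr.mul_sq {z : K} (h : Sqr L ι z) (c : K) : Sqr L ι (z * (c * c)) := by
  obtain ⟨r, h1, h2⟩ := h
  refine ⟨r * algebraMap K Ω c, ?_, fun τ hτ => ?_⟩
  · rw [mul_pow, h1, map_mul, map_mul]
    ring
  · rw [map_mul, h2 τ hτ, τ.commutes]

lemma Sqr.of_d {z : K} {s : QB} {d : ℤ} (hs : s ∈ L) (hs2 : s ^ 2 = (d : QB)) (hd : d ≠ 0)
    (h : IsSquare (z * (d : K))) : Sqr L ι z := by
  have hcz := charZ Ω
  obtain ⟨c, hc⟩ := h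
  have hS : (ι s) ^ 2 = (d : Ω) := by rw [← map_pow, hs2, map_intCast]
  have hd' : (d : Ω) ≠ 0 := by exact_mod_cast hd
  refine ⟨algebraMap K Ω c / ι s, ?_, fun τ hτ => ?_⟩
  · rw [div_pow, hS, ← map_pow, pow_two, ← hc, map_mul, map_intCast,
      mul_div_cancel_right₀ _ hd']
  · rw [map_div₀, τ.commutes, hτ s hs]

/-- the root of a square is fixed -/
lemma Sqr.fix {u : QB} {n : ℤ} (hu : u ^ 2 = (n : QB)) (h : Sqr L ι (n : K)) (τ : Ω ≃ₐ[K] Ω)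
    (hτ : ∀ x ∈ L, τ (ι x) = ι x) : τ (ι u) = ι u := by
  obtain ⟨r, h1, h2⟩ := h
  have h3 : (ι u) ^ 2 = r ^ 2 := by rw [← map_pow, hu, h1, map_intCast, map_intCast]
  rcases sq_eq_sq_iff_eq_or_eq_neg.1 h3 with h4 | h4
  · rw [h4, h2 τ hτ]
  · rw [h4, map_neg, h2 τ hτ]

/-- solubility -/
def Sol3 (K : Type) {Ω : Type} [Field K] [Algebra ℚ K] [Field Ω] [Algebra K Ω] [Algebra ℚ Ω]
    [IsScalarTower ℚ K Ω] (L : IntermediateField ℚ QB) (ι : QB →ₐ[ℚ] Ω)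
    (a b c da db dc : ℤ) : Prop :=
  ∃ X : K, (X ≠ a ∧ X ≠ b ∧ X ≠ c) ∧ Sqr L ι ((X - a) * da) ∧ Sqr L ι ((X - b) * db) ∧
    Sqr L ι ((X - c) * dc)

lemma Sol3.swap {a b c da db dc : ℤ} (h : Sol3 K L ι a b c da db dc) :
    Sol3 K L ι b a c db da dc := by
  obtain ⟨X, ⟨h1, h2, h3⟩, h4, h5, h6⟩ := h
  exact ⟨X, ⟨h2, h1, h3⟩, h5, h4, h6⟩

lemma Sol3.rot {a b c da db dc : ℤ} (h : Sol3 K L ι a b c da db dc) :
    Sol3 K L ι c a b dc da db := by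
  obtain ⟨X, ⟨h1, h2, h3⟩, h4, h5, h6⟩ := h
  exact ⟨X, ⟨h3, h1, h2⟩, h6, h4, h5⟩

theorem loc_sol3 {W : WeierstrassCurve ℚ} {e1 e2 e3 : ℤ} (hR : Rts W e1 e2 e3)
    {f : Gal L → Pt W QB}
    (hf2 : ∀ σ, f σ + f σ = 0) {u1 u2 : QB} {d1 d2 d3 s : ℤ} (hs : s ≠ 0)
    (hd : d1 * d2 * d3 = s * s)
    (hq1 : u1 ^ 2 = (d1 : QB)) (hq2 : u2 ^ 2 = (d2 : QB))
    (hs1 : ∀ σ : Gal L, inG L σ u1 = sg (e1 : QB) (f σ) * u1)
    (hs2 : ∀ σ : Gal L, inG L σ u2 = sg (e2 : QB) (f σ) * u2)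
    (h : Sol3 K L ι e1 e2 e3 d1 d2 d3) : LocN W (K := K) ι f := by
  have hcK := charZ K
  obtain ⟨X, ⟨h1, h2, h3⟩, ⟨r1, a1, b1⟩, ⟨r2, a2, b2⟩, h6⟩ := h
  have hd1 : d1 ≠ 0 := by
    rintro rfl
    apply hs
    have : s * s = 0 := by rw [← hd]; ring
    exact mul_self_eq_zero.1 this
  have hd2 : d2 ≠ 0 := by
    rintro rfl
    apply hs
    have : s * s = 0 := by rw [← hd]; ring
    exact mul_self_eq_zero.1 this
  have hd3 : d3 ≠ 0 := by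
    rintro rfl
    apply hs
    have : s * s = 0 := by rw [← hd]; ring
    exact mul_self_eq_zero.1 this
  have hd3' : (d3 : K) ≠ 0 := by exact_mod_cast hd3
  have hdK : (d1 : K) * d2 * d3 = s * s := by exact_mod_cast congrArg (fun z : ℤ => (z : K)) hd
  obtain ⟨r3, a3, b3⟩ := h6.mul_sq ((s : K) / d3)
  have e : (X - (e3 : K)) * d3 * ((s : K) / d3 * (s / d3)) = (X - e3) * (d1 * d2) := by
    field_simp
    linear_combination -hdK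
  rw [e] at a3
  exact loc_pt hR ι hf2 hd1 hd2 hq1 hq2 hs1 hs2 h1 h2 h3 a1 a2 a3
    (fun τ hτ => ⟨b1 τ hτ, b2 τ hτ, b3 τ hτ⟩)

theorem loc_sq2 {W : WeierstrassCurve ℚ} {e1 e2 e3 : ℤ} (hR : Rts W e1 e2 e3)
    {f : Gal L → Pt W QB}
    (hf2 : ∀ σ, f σ + f σ = 0) {u1 u2 : QB} {d1 d2 : ℤ} (hd1 : d1 ≠ 0) (hd2 : d2 ≠ 0)
    (hq1 : u1 ^ 2 = (d1 : QB)) (hq2 : u2 ^ 2 = (d2 : QB))
    (hs1 : ∀ σ : Gal L, inG L σ u1 = sg (e1 : QB) (f σ) * u1)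
    (hs2 : ∀ σ : Gal L, inG L σ u2 = sg (e2 : QB) (f σ) * u2)
    (h1 : Sqr L ι (d1 : K)) (h2 : Sqr L ι (d2 : K)) : LocN W (K := K) ι f := by
  have hcz : CharZero QB := charZ QB
  have hn : ∀ {u : QB} {d : ℤ}, d ≠ 0 → u ^ 2 = (d : QB) → u ≠ 0 := by
    intro u d hd hu h
    rw [h, zero_pow two_ne_zero] at hu
    exact hd (by exact_mod_cast hu.symm)
  exact loc_triv hR ι hf2 (hn hd1 hq1) (hn hd2 hq2) hs1 hs2
    (fun τ hτ => ⟨h1.fix hq1 τ hτ, h2.fix hq2 τ hτ⟩)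

end sqr

end Pool.Agent.H514.KS
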