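import Pool.Agent.H514.KS.LocQ

/-! Local solubility at the odd primes: the cases. -/

set_option autoImplicit false

open scoped Classical

namespace Pool.Agent.H514.KS

open WeierstrassCurve Pool.Agent.W262.SH Pool.Agent.W338.SH
open Pool.Agent.H514.IS (sq_of_leg leg_ne leg_cast)

section cases

variable {p : ℕ} [hp : Fact p.Prime] {Ω : Type} [Field Ω] [Algebra ℚ_[p] Ω] [Algebra ℚ Ω]
  [IsScalarTower ℚ ℚ_[p] Ω] {L : IntermediateField ℚ QB} {ι : QB →ₐ[ℚ] Ω}

lemma leg_ne_zero {n : ℤ} (h : legendreSym p n = 1) : n ≠ 0 := by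
  rintro rfl
  rw [legendreSym.at_zero] at h
  exact zero_ne_one h

lemma leg_mul_self {n : ℤ} (hn : ¬ (p : ℤ) ∣ n) : legendreSym p (n * n) = 1 := by
  have h : (n : ZMod p) ≠ 0 := fun h0 => hn ((ZMod.intCast_zmod_eq_zero_iff_dvd n p).1 h0)
  rw [legendreSym.mul, ← pow_two]
  exact legendreSym.sq_one p h

lemma leg_pm {n : ℤ} (hn : ¬ (p : ℤ) ∣ n) : legendreSym p n = 1 ∨ legendreSym p n = -1 := by
  have h : (n : ZMod p) ≠ 0 := fun h0 => hn ((ZMod.intCast_zmod_eq_zero_iff_dvd n p).1 h0)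
  exact legendreSym.eq_one_or_neg_one p h

/-- an integer point -/
lemma sol_int (hp2 : p ≠ 2) {a b c da db dc x : ℤ} (h1 : legendreSym p ((x - a) * da) = 1)
    (h2 : legendreSym p ((x - b) * db) = 1) (h3 : legendreSym p ((x - c) * dc) = 1) :
    Sol3 ℚ_[p] L ι a b c da db dc := by
  have key : ∀ {e d : ℤ}, legendreSym p ((x - e) * d) = 1 → ((x : ℚ_[p]) ≠ e) ∧
      Sqr L ι (((x : ℚ_[p]) - e) * d) := by
    intro e d h
    refine ⟨?_, Sqr.of_sq ?_⟩
    · intro h4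
      have h5 : x = e := by exact_mod_cast h4
      apply leg_ne_zero h
      rw [h5, sub_self, zero_mul]
    · have := sq_of_leg hp2 h
      push_cast at this
      exact this
  exact ⟨x, ⟨(key h1).1, (key h2).1, (key h3).1⟩, (key h1).2, (key h2).2, (key h3).2⟩

lemma two_leg (hp7 : 7 ≤ p) {a b : ℤ} (hab : ¬ (p : ℤ) ∣ a - b) {ε1 ε2 : ℤ}
    (h1 : ε1 = 1 ∨ ε1 = -1) (h2 : ε2 = 1 ∨ ε2 = -1) :
    ∃ x : ℤ, legendreSym p (x - a) = ε1 ∧ legendreSym p (x - b) = ε2 := by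
  have hn : ((b - a : ℤ) : ZMod p) ≠ 0 := by
    intro h
    apply hab
    have h3 := (ZMod.intCast_zmod_eq_zero_iff_dvd (b - a) p).1 h
    have h4 : a - b = -(b - a) := by ring
    rw [h4]
    exact h3.neg_right
  obtain ⟨z, hz1, hz2⟩ := two_sign p hp7 hn h1 h2
  obtain ⟨y, rfl⟩ := ZMod.intCast_surjective z
  refine ⟨y + a, ?_, ?_⟩
  · rw [leg_cast]
    push_cast
    rw [add_sub_cancel_right]
    exact hz1
  · rw [leg_cast]
    push_cast at hz2 ⊢
    have : ((y : ZMod p) + a - b) = y - (b - a) := by ring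
    rw [this]
    exact hz2

lemma leg_congr {m n : ℤ} (h : (p : ℤ) ∣ m - n) : legendreSym p m = legendreSym p n := by
  have h1 : (m : ZMod p) = (n : ZMod p) := by
    have := (ZMod.intCast_zmod_eq_zero_iff_dvd (m - n) p).2 h
    push_cast at this
    exact sub_eq_zero.1 this
  rw [leg_cast, leg_cast, h1]

/-- unramified classes at a prime of multiplicative reduction -/
lemma unr_split (hp7 : 7 ≤ p) {a b c da db dc s : ℤ} (hab : (p : ℤ) ∣ a - b)
    (hac : ¬ (p : ℤ) ∣ a - c) (ha : ¬ (p : ℤ) ∣ da) (hb : ¬ (p : ℤ) ∣ db)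
    (hs : da * db * dc = s * s) (hc : legendreSym p dc = 1) : Sol3 ℚ_[p] L ι a b c da db dc := by
  have hpi := Nat.prime_iff_prime_int.1 hp.out
  have hdc : ¬ (p : ℤ) ∣ dc := by
    intro h
    have := (ZMod.intCast_zmod_eq_zero_iff_dvd dc p).2 h
    rw [leg_cast, this, MulChar.map_zero] at hc
    exact zero_ne_one hc
  obtain ⟨x, h1, h2⟩ := two_leg hp7 hac (leg_pm ha) (ε2 := 1) (Or.inl rfl)
  have hsn : ¬ (p : ℤ) ∣ s := by
    intro h
    have h3 : (p : ℤ) ∣ da * db * dc := by rw [hs]; exact h.mul_right s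
    rcases hpi.dvd_or_dvd h3 with h4 | h4
    · rcases hpi.dvd_or_dvd h4 with h5 | h5
      · exact ha h5
      · exact hb h5
    · exact hdc h4
  have hprod : legendreSym p da * legendreSym p db = 1 := by
    have h3 := leg_mul_self hsn
    rw [← hs, legendreSym.mul, legendreSym.mul, hc, mul_one] at h3
    exact h3
  have hq : ∀ {n : ℤ}, ¬ (p : ℤ) ∣ n → legendreSym p n * legendreSym p n = 1 := by
    intro n hn
    rcases leg_pm hn with h | h <;> rw [h] <;> norm_num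
  refine sol_int (by omega) (x := x) ?_ ?_ ?_
  · rw [legendreSym.mul, h1, hq ha]
  · have h3 : legendreSym p (x - b) = legendreSym p (x - a) :=
      leg_congr (by
        have : x - b - (x - a) = a - b := by ring
        rw [this]
        exact hab)
    rw [legendreSym.mul, h3, h1, hprod]
  · rw [legendreSym.mul, h2, hc, one_mul]

/-- an integer point with a factor `p` -/
lemma sqr_pp {n m : ℤ} (h : Sqr L ι ((n * m : ℤ) : ℚ_[p])) :
    Sqr L ι (((p * n : ℤ) : ℚ_[p]) * ((p * m : ℤ) : ℚ_[p])) := by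
  have h1 := h.mul_sq (p : ℚ_[p])
  have h2 : ((n * m : ℤ) : ℚ_[p]) * ((p : ℚ_[p]) * p) =
      ((p * n : ℤ) : ℚ_[p]) * ((p * m : ℤ) : ℚ_[p]) := by
    push_cast
    ring
  rw [h2] at h1
  exact h1

/-- ramified classes: the general form -/
lemma ram_gen {a b c da db dc k t : ℤ} (hab : a - b = p * k)
    (ht : ¬ (p : ℤ) ∣ t) (htk : ¬ (p : ℤ) ∣ t + k) (hac : ¬ (p : ℤ) ∣ a - c)
    (h1 : Sqr L ι ((t * da : ℤ) : ℚ_[p])) (h2 : Sqr L ι (((t + k) * db : ℤ) : ℚ_[p]))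
    (h3 : Sqr L ι (((a + p * t - c) * dc : ℤ) : ℚ_[p])) :
    Sol3 ℚ_[p] L ι a b c (p * da) (p * db) dc := by
  have hp0 : (p : ℤ) ≠ 0 := by exact_mod_cast hp.out.ne_zero
  have e1 : ((a + p * t : ℤ) : ℚ_[p]) - a = ((p * t : ℤ) : ℚ_[p]) := by
    push_cast
    ring
  have e2 : ((a + p * t : ℤ) : ℚ_[p]) - b = ((p * (t + k) : ℤ) : ℚ_[p]) := by
    have h4 : (a + p * t) - b = p * (t + k) := by linear_combination hab
    rw [← h4]
    push_cast
    ring
  refine ⟨((a + p * t : ℤ) : ℚ_[p]), ⟨?_, ?_, ?_⟩, ?_, ?_, ?_⟩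
  · intro h
    have h4 : a + p * t = a := by exact_mod_cast h
    have h5 : (p : ℤ) * t = 0 := by linarith
    rcases mul_eq_zero.1 h5 with h6 | h6
    · exact hp0 h6
    · exact ht (by rw [h6]; exact dvd_zero _)
  · intro h
    have h4 : a + p * t = b := by exact_mod_cast h
    have h5 : (p : ℤ) * (t + k) = 0 := by linear_combination h4 - hab
    rcases mul_eq_zero.1 h5 with h6 | h6
    · exact hp0 h6
    · exact htk (by rw [h6]; exact dvd_zero _)
  · intro h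
    have h4 : a + p * t = c := by exact_mod_cast h
    apply hac
    have h5 : a - c = p * (-t) := by linear_combination h4
    rw [h5]
    exact dvd_mul_right _ _
  · rw [e1]
    exact sqr_pp h1
  · rw [e2]
    exact sqr_pp h2
  · have h5 : ((a + p * t : ℤ) : ℚ_[p]) - c = ((a + p * t - c : ℤ) : ℚ_[p]) := by
      push_cast
      ring
    rw [h5, ← Int.cast_mul]
    exact h3

lemma ram_split (hp7 : 7 ≤ p) {a b c da db dc k : ℤ} (hab : a - b = p * k)
    (hk : ¬ (p : ℤ) ∣ k) (hac : ¬ (p : ℤ) ∣ a - c) (ha : ¬ (p : ℤ) ∣ da) (hb : ¬ (p : ℤ) ∣ db)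
    (hc : legendreSym p ((a - c) * dc) = 1) : Sol3 ℚ_[p] L ι a b c (p * da) (p * db) dc := by
  have hp2 : p ≠ 2 := by omega
  obtain ⟨t, h1, h2⟩ := two_leg (p := p) hp7 (a := 0) (b := -k)
    (by rw [zero_sub, neg_neg]; exact hk) (leg_pm ha) (leg_pm hb)
  rw [sub_zero] at h1
  rw [sub_neg_eq_add] at h2
  have hq : ∀ {n : ℤ}, ¬ (p : ℤ) ∣ n → legendreSym p n * legendreSym p n = 1 := by
    intro n hn
    rcases leg_pm hn with h | h <;> rw [h] <;> norm_num
  have hnd : ∀ {n m : ℤ}, ¬ (p : ℤ) ∣ m → legendreSym p n = legendreSym p m → ¬ (p : ℤ) ∣ n := by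
    intro n m hm h hd
    have h3 := (ZMod.intCast_zmod_eq_zero_iff_dvd n p).2 hd
    rw [leg_cast n, h3, MulChar.map_zero] at h
    rcases leg_pm hm with h4 | h4 <;> rw [h4] at h <;> norm_num at h
  refine ram_gen hab (hnd ha h1) (hnd hb h2) hac (Sqr.of_sq (sq_of_leg hp2 ?_))
    (Sqr.of_sq (sq_of_leg hp2 ?_)) (Sqr.of_sq (sq_of_leg hp2 ?_))
  · rw [legendreSym.mul, h1, hq ha]
  · rw [legendreSym.mul, h2, hq hb]
  · rw [← hc]
    apply leg_congr
    have : (a + p * t - c) * dc - (a - c) * dc = p * (t * dc) := by ring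
    rw [this]
    exact dvd_mul_right _ _

/-- units are squares in an unramified quadratic extension -/
lemma sqr_unit (hp2 : p ≠ 2) {s : QB} {d : ℤ} (hs : s ∈ L) (hs2 : s ^ 2 = (d : QB))
    (hd : legendreSym p d = -1) {n : ℤ} (hn : ¬ (p : ℤ) ∣ n) : Sqr L ι (n : ℚ_[p]) := by
  rcases leg_pm hn with h | h
  · exact Sqr.of_sq (sq_of_leg hp2 h)
  · have hd0 : d ≠ 0 := by
      rintro rfl
      rw [legendreSym.at_zero] at hd
      norm_num at hd
    refine Sqr.of_d hs hs2 hd0 ?_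
    have h1 : legendreSym p (n * d) = 1 := by rw [legendreSym.mul, h, hd]; norm_num
    have := sq_of_leg hp2 h1
    push_cast at this
    exact this

lemma ram_inert (hp7 : 7 ≤ p) {s : QB} {d : ℤ} (hs : s ∈ L) (hs2 : s ^ 2 = (d : QB))
    (hd : legendreSym p d = -1) {a b c da db dc k : ℤ} (hab : a - b = p * k)
    (hk : ¬ (p : ℤ) ∣ k) (hac : ¬ (p : ℤ) ∣ a - c) (ha : ¬ (p : ℤ) ∣ da) (hb : ¬ (p : ℤ) ∣ db)
    (hc : ¬ (p : ℤ) ∣ dc) : Sol3 ℚ_[p] L ι a b c (p * da) (p * db) dc := by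
  have hp2 : p ≠ 2 := by omega
  have hpi := Nat.prime_iff_prime_int.1 hp.out
  obtain ⟨t, h1, h2⟩ := two_leg (p := p) hp7 (a := 0) (b := -k)
    (by rw [zero_sub, neg_neg]; exact hk) (ε1 := 1) (ε2 := 1) (Or.inl rfl) (Or.inl rfl)
  rw [sub_zero] at h1
  rw [sub_neg_eq_add] at h2
  have hnd : ∀ {n : ℤ}, legendreSym p n = 1 → ¬ (p : ℤ) ∣ n := by
    intro n h hd
    have h3 := (ZMod.intCast_zmod_eq_zero_iff_dvd n p).2 hd
    rw [leg_cast n, h3, MulChar.map_zero] at h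
    exact zero_ne_one h
  have hmul : ∀ {m n : ℤ}, ¬ (p : ℤ) ∣ m → ¬ (p : ℤ) ∣ n → ¬ (p : ℤ) ∣ m * n := by
    intro m n hm hn h
    rcases hpi.dvd_or_dvd h with h4 | h4
    · exact hm h4
    · exact hn h4
  refine ram_gen hab (hnd h1) (hnd h2) hac (sqr_unit hp2 hs hs2 hd (hmul (hnd h1) ha))
    (sqr_unit hp2 hs hs2 hd (hmul (hnd h2) hb)) (sqr_unit hp2 hs hs2 hd (hmul ?_ hc))
  intro h
  apply hac
  have : a - c = (a + p * t - c) - p * t := by ring
  rw [this]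
  exact dvd_sub h (dvd_mul_right _ _)

/-- good primes -/
lemma sol_good (hp29 : 29 ≤ p) {a b c da db dc s : ℤ} (hab : ¬ (p : ℤ) ∣ a - b)
    (hac : ¬ (p : ℤ) ∣ a - c) (hbc : ¬ (p : ℤ) ∣ b - c) (ha : ¬ (p : ℤ) ∣ da)
    (hb : ¬ (p : ℤ) ∣ db) (hc : ¬ (p : ℤ) ∣ dc) (hs : da * db * dc = s * s) :
    Sol3 ℚ_[p] L ι a b c da db dc := by
  have hp2 : p ≠ 2 := by omega
  have hpi := Nat.prime_iff_prime_int.1 hp.out
  have hne : ∀ {m n : ℤ}, ¬ (p : ℤ) ∣ m - n → (m : ZMod p) ≠ (n : ZMod p) := by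
    intro m n h h1
    apply h
    rw [← ZMod.intCast_zmod_eq_zero_iff_dvd]
    push_cast
    rw [h1, sub_self]
  have hz : ∀ {m : ℤ}, ¬ (p : ℤ) ∣ m → (m : ZMod p) ≠ 0 := by
    intro m h h1
    exact h ((ZMod.intCast_zmod_eq_zero_iff_dvd m p).1 h1)
  obtain ⟨z, h1, h2, h3⟩ := three_sign p hp29 (hne hab) (hne hac) (hne hbc) (hz ha) (hz hb)
  obtain ⟨x, rfl⟩ := ZMod.intCast_surjective z
  have hsn : ¬ (p : ℤ) ∣ s := by
    intro h
    have h3 : (p : ℤ) ∣ da * db * dc := by rw [hs]; exact h.mul_right s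
    rcases hpi.dvd_or_dvd h3 with h4 | h4
    · rcases hpi.dvd_or_dvd h4 with h5 | h5
      · exact ha h5
      · exact hb h5
    · exact hc h4
  have g1 : legendreSym p ((x - a) * da) = 1 := by
    rw [leg_cast]
    push_cast
    exact h1
  have g2 : legendreSym p ((x - b) * db) = 1 := by
    rw [leg_cast]
    push_cast
    exact h2
  have g3 : legendreSym p ((x - c) * (da * db)) = 1 := by
    rw [leg_cast]
    push_cast
    exact h3
  refine sol_int hp2 g1 g2 ?_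
  have h4 := leg_mul_self hsn
  rw [← hs, legendreSym.mul, ] at h4
  rw [legendreSym.mul] at g3 ⊢
  rcases leg_pm hc with h5 | h5
  · rw [h5, mul_one] at h4
    rw [h4, mul_one] at g3
    rw [h5, g3, mul_one]
  · rw [h5] at h4
    have h6 : legendreSym p (da * db) = -1 := by linarith
    rw [h6] at g3
    rw [h5, g3]

end cases

end Pool.Agent.H514.KS
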