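import Pool.Agent.H514.KS.Lin

/-! The classes of the subspace are locally trivial. -/

set_option autoImplicit false

open scoped Classical

namespace Pool.Agent.H514.KS

open Finset WeierstrassCurve Pool.Agent.W262.SH Pool.Agent.W338.SH
open Pool.Agent.H514.IS (lam prod_sign sq_of_leg leg_cast sq_two sg_mul sg_one sg_pow sg_prod sg_pm)

variable {n : ℕ} {D : Fin n → ℤ} {w : ℕ} {e : Fin 3 → ℤ}

/-- the integers of a vector -/
noncomputable abbrev dv (w : ℕ) (e : Fin 3 → ℤ) (v : Pp w e → ZMod 2) (k : Fin 3) : ℤ :=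
  (dk (je e) (Pp w e) k v : ℤ)

lemma val01 (c : ZMod 2) : (c ≠ 0 → c.val = 1) ∧ (c = 0 → c.val = 0) := by
  revert c
  decide

lemma ver1 (hw : 2 ≤ w) (hX : NX w e) {v : Pp w e → ZMod 2} (hv : v ∈ VV D w e) (i : Bool) {k : ℕ}
    (hk : k ∈ K1 w) :
    Pool.Agent.H514.IS.sg k (dk (je e) (Pp w e) (if i then 1 else 0) v) = 1 := by
  have h1 := Ls_ker (eps_pm hw hX) hv (Sum.inl (i, ⟨k, hk⟩))
  unfold dk
  rw [sg_prod]
  refine Eq.trans ?_ h1
  refine Finset.prod_congr rfl fun p _ => ?_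
  rw [sg_pow]
  rfl

lemma sq_small (hw : 2 ≤ w) (hX : NX w e) {v : Pp w e → ZMod 2} (hv : v ∈ VV D w e) (i : Bool)
    {p : ℕ} [hp : Fact p.Prime] (hpw : p ≤ w) :
    IsSquare ((dv w e v (if i then 1 else 0) : ℤ) : ℚ_[p]) := by
  have hp1 := hp.out.one_lt
  by_cases hp2 : p = 2
  · subst hp2
    apply sq_two
    have h1 := ver1 hw hX hv i (k := 1) (mem_filter.2 ⟨mem_Icc.2 (by omega), Or.inl rfl⟩)
    have h2 := ver1 hw hX hv i (k := 2)
      (mem_filter.2 ⟨mem_Icc.2 (by omega), Or.inr Nat.prime_two⟩)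
    show ((dk (je e) (Pp w e) (if i then 1 else 0) v : ℕ) : ℤ) % 8 = 1
    generalize dk (je e) (Pp w e) (if i then 1 else 0) v = n at h1 h2 ⊢
    unfold Pool.Agent.H514.IS.sg at h1 h2
    rw [if_pos rfl] at h1
    rw [if_neg (by norm_num), if_pos rfl] at h2
    rw [ZMod.χ₄_nat_eq_if_mod_four] at h1
    rw [ZMod.χ₈_nat_eq_if_mod_eight] at h2
    have h4 : n % 8 = 1 := by
      split_ifs at h1 h2 <;> omega
    omega
  · have h1 := ver1 hw hX hv i (k := p) (mem_filter.2 ⟨mem_Icc.2 (by omega), Or.inr hp.out⟩)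
    unfold Pool.Agent.H514.IS.sg at h1
    rw [if_neg (by omega), if_neg hp2] at h1
    apply sq_of_leg hp2
    rw [jacobiSym.legendreSym.to_jacobiSym]
    exact h1

lemma jac_pow (a : ℤ) (n q : ℕ) : jacobiSym (a ^ n) q = jacobiSym a q ^ n := by
  induction n with
  | zero => rw [pow_zero, pow_zero, jacobiSym.one_left]
  | succ n ih => rw [pow_succ, pow_succ, jacobiSym.mul_left, ih]

lemma jac_prod {ι : Type} (s : Finset ι) (f : ι → ℤ) (q : ℕ) :
    jacobiSym (∏ i ∈ s, f i) q = ∏ i ∈ s, jacobiSym (f i) q := by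
  induction s using Finset.induction_on with
  | empty => rw [Finset.prod_empty, Finset.prod_empty, jacobiSym.one_left]
  | insert i s hi ih => rw [Finset.prod_insert hi, Finset.prod_insert hi, jacobiSym.mul_left, ih]

/-- the condition at a split prime -/
lemma ver2 (hw : 2 ≤ w) (hX : NX w e) {v : Pp w e → ZMod 2} (hv : v ∈ VV D w e) {q : ℕ}
    (hq : q ∈ Pp w e) (hd : ∀ i, jacobiSym (D i) q = 1) :
    jacobiSym (e (oA (je e q)) - e (je e q)) q ^ (v ⟨q, hq⟩).val *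
      jacobiSym (dv w e v (je e q)) q = 1 := by
  have h1 := Ls_ker (eps_pm hw hX) hv (Sum.inr ⟨q, mem_filter.2 ⟨hq, hd⟩⟩)
  have h2 : jacobiSym (dv w e v (je e q)) q = ∏ p : Pp w e,
      jacobiSym ((if je e p = je e q then 1 else (p : ℕ) : ℕ) : ℤ) q ^ (v p).val := by
    unfold dv dk
    push_cast
    rw [jac_prod]
    refine Finset.prod_congr rfl fun p _ => ?_
    rw [jac_pow]
  rw [h2, ← Finset.mul_prod_erase Finset.univ _ (Finset.mem_univ (⟨q, hq⟩ : Pp w e))]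
  rw [← Finset.mul_prod_erase Finset.univ _ (Finset.mem_univ (⟨q, hq⟩ : Pp w e))] at h1
  have h3 : eps D w e (Sum.inr ⟨q, mem_filter.2 ⟨hq, hd⟩⟩) ⟨q, hq⟩ =
      jacobiSym (e (oA (je e q)) - e (je e q)) q := if_pos rfl
  rw [h3] at h1
  simp only [if_true, Nat.cast_one, jacobiSym.one_left, one_pow, one_mul]
  refine Eq.trans ?_ h1
  congr 1
  refine Finset.prod_congr rfl fun p hp => ?_
  congr 1
  have h4 : (p : ℕ) ≠ q := fun h => (Finset.mem_erase.1 hp).1 (Subtype.ext h)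
  exact (if_neg h4).symm

/-- the integers at a prime of the set -/
lemma dv_ram (v : Pp w e → ZMod 2) {q : ℕ} (hq : q ∈ Pp w e) (h : v ⟨q, hq⟩ ≠ 0) {k : Fin 3}
    (hk : je e q ≠ k) : ∃ m : ℤ, dv w e v k = q * m ∧ ¬ (q : ℤ) ∣ m := by
  refine ⟨∏ p ∈ Finset.univ.erase (⟨q, hq⟩ : Pp w e),
    ((if je e p = k then 1 else (p : ℕ) : ℕ) : ℤ) ^ (v p).val, ?_, ?_⟩
  · unfold dv dk
    push_cast
    rw [← Finset.mul_prod_erase Finset.univ _ (Finset.mem_univ (⟨q, hq⟩ : Pp w e))]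
    rw [(val01 _).1 h, pow_one, if_neg hk]
  · have hqp := Pp_prime q hq
    rw [(Nat.prime_iff_prime_int.1 hqp).dvd_finsetProd_iff]
    rintro ⟨p, hp, h1⟩
    have h2 := (Nat.prime_iff_prime_int.1 hqp).dvd_of_dvd_pow h1
    have h3 : q ∣ (if je e p = k then 1 else (p : ℕ)) := by exact_mod_cast h2
    split_ifs at h3 with h4
    · exact absurd (Nat.dvd_one.1 h3) hqp.one_lt.ne'
    · exact (Finset.mem_erase.1 hp).1 (Subtype.ext
        ((Nat.prime_dvd_prime_iff_eq hqp (Pp_prime p p.2)).1 h3).symm)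

lemma dv_unr (v : Pp w e → ZMod 2) {q : ℕ} (hqp : q.Prime) {k : Fin 3}
    (h : ∀ hq : q ∈ Pp w e, je e q = k ∨ v ⟨q, hq⟩ = 0) : ¬ (q : ℤ) ∣ dv w e v k := by
  intro h1
  have h2 : q ∣ dk (je e) (Pp w e) k v := by exact_mod_cast h1
  rw [dk_dvd Pp_prime k v hqp] at h2
  obtain ⟨h3, h4, h5⟩ := h2
  rcases h h3 with h6 | h6
  · exact h4 h6
  · exact h5 h6

/-- the theorem at a prime -/
theorem ver_p {W : WeierstrassCurve ℚ} (hR : RR W e) (hw : 29 ≤ w) (hX : NX w e)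
    {L : IntermediateField ℚ QB} (hL : ∀ i, ∃ s ∈ L, s ^ 2 = (D i : QB))
    (hd : ∀ p : ℕ, p.Prime → w < p → ∀ i, ¬ (p : ℤ) ∣ D i) {v : Pp w e → ZMod 2} (hv : v ∈ VV D w e)
    (p : ℕ) [hp : Fact p.Prime] : LocTN W ℚ_[p] (FL W e (je e) (Pp w e) L v) := by
  intro ι
  set f := FL W e (je e) (Pp w e) L v with hf
  have hP0 : ∀ p ∈ Pp w e, p ≠ 0 := fun p hp => (Pp_prime p hp).ne_zero
  have hf2 : ∀ σ, f σ + f σ = 0 := fun σ => Fv_two hR v (inG L σ)
  have hu : ∀ k, uk (je e) (Pp w e) k v ^ 2 = ((dv w e v k : ℤ) : QB) := fun k => uk_sq k v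
  have hsg : ∀ (k : Fin 3) (σ : Gal L), inG L σ (uk (je e) (Pp w e) k v) =
      Pool.Agent.TH344.SH.sg (e k : QB) (f σ) * uk (je e) (Pp w e) k v := fun k σ =>
    sg_Fv hR k v (inG L σ)
  have hpos : ∀ k, dv w e v k ≠ 0 := fun k => by
    have := dk_pos (jj := je e) Pp_prime k v
    show ((dk (je e) (Pp w e) k v : ℕ) : ℤ) ≠ 0
    exact_mod_cast this.ne'
  obtain ⟨m, hm⟩ : ∃ m : ℤ, m = ((∏ p : Pp w e, (p : ℕ) ^ (v p).val : ℕ) : ℤ) := ⟨_, rfl⟩
  have hprod : dv w e v 0 * dv w e v 1 * dv w e v 2 = m * m := by rw [hm]; exact dk_prod v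
  have hm0 : m ≠ 0 := by
    intro h
    rw [h, mul_zero] at hprod
    exact mul_ne_zero (mul_ne_zero (hpos 0) (hpos 1)) (hpos 2) hprod
  have hsol : Sol3 ℚ_[p] L ι (e 0) (e 1) (e 2) (dv w e v 0) (dv w e v 1) (dv w e v 2) →
      LocN W (K := ℚ_[p]) ι f := fun h =>
    loc_sol3 hR.rts hf2 hm0 hprod (hu 0) (hu 1) (hsg 0) (hsg 1) h
  have hsq : Sqr L ι ((dv w e v 0 : ℤ) : ℚ_[p]) → Sqr L ι ((dv w e v 1 : ℤ) : ℚ_[p]) →
      LocN W (K := ℚ_[p]) ι f := fun h0 h1 =>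
    loc_sq2 hR.rts hf2 (hpos 0) (hpos 1) (hu 0) (hu 1) (hsg 0) (hsg 1) h0 h1
  have hperm : ∀ j : Fin 3, dv w e v (oA j) * dv w e v (oB j) * dv w e v j = m * m := by
    intro j
    rw [← hprod]
    fin_cases j
    · show dv w e v 1 * dv w e v 2 * dv w e v 0 = _
      ring
    · show dv w e v 0 * dv w e v 2 * dv w e v 1 = _
      ring
    · rfl
  rcases le_or_gt p w with hpw | hpw
  · -- small primes
    have h0 := sq_small (by omega) hX hv false hpw
    have h1 := sq_small (by omega) hX hv true hpw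
    exact hsq (Sqr.of_sq h0) (Sqr.of_sq h1)
  have hp2 : p ≠ 2 := by omega
  by_cases hpP : p ∈ Pp w e
  · obtain ⟨⟨k, hk1, hk2⟩, hk3⟩ := Pp_mem hX hpP
    set j := je e p with hj
    have hj1 : ¬ (p : ℤ) ∣ dv w e v j := dv_unr v hp.out (fun _ => Or.inl rfl)
    by_cases hsplit : ∀ i, legendreSym p (D i) = 1
    · -- split primes
      have hJ : ∀ i, jacobiSym (D i) p = 1 := by
        intro i
        rw [← jacobiSym.legendreSym.to_jacobiSym]
        exact hsplit i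
      have h2 := ver2 (by omega) hX hv hpP hJ
      apply hsol
      refine Sol3.of (d := dv w e v) j ?_
      by_cases hv0 : v ⟨p, hpP⟩ = 0
      · rw [(val01 _).2 hv0, pow_zero, one_mul] at h2
        refine unr_split (by omega) ⟨k, hk1⟩ hk3 (dv_unr v hp.out (fun _ => Or.inr hv0))
          (dv_unr v hp.out (fun _ => Or.inr hv0)) (hperm j) ?_
        rw [jacobiSym.legendreSym.to_jacobiSym]
        exact h2
      · rw [(val01 _).1 hv0, pow_one] at h2
        obtain ⟨ma, ha1, ha2⟩ := dv_ram v hpP hv0 (k := oA j) (oA_ne j).symm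
        obtain ⟨mb, hb1, hb2⟩ := dv_ram v hpP hv0 (k := oB j) (oB_ne j).symm
        rw [ha1, hb1]
        refine ram_split (by omega) hk1 hk2 hk3 ha2 hb2 ?_
        rw [jacobiSym.legendreSym.to_jacobiSym, jacobiSym.mul_left]
        exact h2
    · -- inert primes
      push Not at hsplit
      obtain ⟨i, hi⟩ := hsplit
      have hinert : legendreSym p (D i) = -1 := (leg_pm (hd p hp.out hpw i)).resolve_left hi
      obtain ⟨s, hs, hs2⟩ := hL i
      by_cases hv0 : v ⟨p, hpP⟩ = 0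
      · exact hsq (sqr_unit hp2 hs hs2 hinert (dv_unr v hp.out (fun _ => Or.inr hv0)))
          (sqr_unit hp2 hs hs2 hinert (dv_unr v hp.out (fun _ => Or.inr hv0)))
      · obtain ⟨ma, ha1, ha2⟩ := dv_ram v hpP hv0 (k := oA j) (oA_ne j).symm
        obtain ⟨mb, hb1, hb2⟩ := dv_ram v hpP hv0 (k := oB j) (oB_ne j).symm
        apply hsol
        refine Sol3.of (d := dv w e v) j ?_
        rw [ha1, hb1]
        exact ram_inert (by omega) hs hs2 hinert hk1 hk2 hk3 ha2 hb2 hj1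
  · -- good primes
    have hdel : ¬ (p : ℤ) ∣ Del e := by
      intro h
      apply hpP
      rw [Pp, mem_filter, Nat.mem_primeFactors]
      refine ⟨⟨hp.out, Int.natCast_dvd.1 h, ?_⟩, hpw⟩
      rw [Int.natAbs_ne_zero]
      unfold Del
      exact mul_ne_zero (mul_ne_zero (sub_ne_zero.2 (e_ne hR (by decide)))
        (sub_ne_zero.2 (e_ne hR (by decide)))) (sub_ne_zero.2 (e_ne hR (by decide)))
    have hn : ∀ k, ¬ (p : ℤ) ∣ dv w e v k := fun k => dv_unr v hp.out (fun h => absurd h hpP)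
    apply hsol
    refine sol_good (by omega) (fun h => hdel ?_) (fun h => hdel ?_) (fun h => hdel ?_) (hn 0) (hn 1)
      (hn 2) hprod
    · exact (h.mul_right _).mul_right _
    · exact (h.mul_left _).mul_right _
    · exact h.mul_left _

/-- the theorem at the real place -/
theorem ver_r {W : WeierstrassCurve ℚ} (hR : RR W e)
    {L : IntermediateField ℚ QB} (v : Pp w e → ZMod 2) :
    LocTN W ℝ (FL W e (je e) (Pp w e) L v) := by
  intro ι
  have hpos : ∀ k, 0 < dv w e v k := fun k => by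
    have := dk_pos (jj := je e) Pp_prime k v
    show 0 < ((dk (je e) (Pp w e) k v : ℕ) : ℤ)
    exact_mod_cast this
  have hq : ∀ k, Sqr L ι ((dv w e v k : ℤ) : ℝ) := fun k => by
    refine Sqr.of_sq ⟨Real.sqrt (dv w e v k), ?_⟩
    have : (0 : ℝ) ≤ (dv w e v k : ℤ) := by exact_mod_cast (hpos k).le
    exact (Real.mul_self_sqrt this).symm
  exact loc_sq2 hR.rts (fun σ => Fv_two hR v (inG L σ)) (hpos 0).ne' (hpos 1).ne' (uk_sq 0 v)
    (uk_sq 1 v) (fun σ => sg_Fv hR 0 v (inG L σ)) (fun σ => sg_Fv hR 1 v (inG L σ)) (hq 0) (hq 1)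

theorem ver_sn {W : WeierstrassCurve ℚ} (hR : RR W e) (hw : 29 ≤ w) (hX : NX w e)
    {L : IntermediateField ℚ QB} (hL : ∀ i, ∃ s ∈ L, s ^ 2 = (D i : QB))
    (hd : ∀ p : ℕ, p.Prime → w < p → ∀ i, ¬ (p : ℤ) ∣ D i) {v : Pp w e → ZMod 2} (hv : v ∈ VV D w e) :
    IsSN W (FL W e (je e) (Pp w e) L v) :=
  ⟨FL_Z1 hR (fun p hp => (Pp_prime p hp).ne_zero) L v,
    fun p _ => ver_p hR hw hX hL hd hv p, ver_r hR v⟩

end Pool.Agent.H514.KS
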